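import Mathlib

/-!
# Linear algebra in dimension three
-/

set_option autoImplicit false

open scoped BigOperators Topology Matrix

namespace Pool.Agent.H792.KF

/-- the cross product -/
def cr (a b : Fin 3 → ℝ) : Fin 3 → ℝ :=
  ![a 1 * b 2 - a 2 * b 1, a 2 * b 0 - a 0 * b 2, a 0 * b 1 - a 1 * b 0]

/-- the matrix of the cross product with `y` -/
def EM (y : Fin 3 → ℝ) : Matrix (Fin 3) (Fin 3) ℝ :=
  !![0, y 2, - y 1; - y 2, 0, y 0; y 1, - y 0, 0]

theorem EM_ne {y : Fin 3 → ℝ} (hy : y ≠ 0) : y 0 ^ 2 + y 1 ^ 2 + y 2 ^ 2 ≠ 0 := by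
  intro h
  apply hy
  have h0 : y 0 = 0 := by nlinarith [sq_nonneg (y 0), sq_nonneg (y 1), sq_nonneg (y 2)]
  have h1 : y 1 = 0 := by nlinarith [sq_nonneg (y 0), sq_nonneg (y 1), sq_nonneg (y 2)]
  have h2 : y 2 = 0 := by nlinarith [sq_nonneg (y 0), sq_nonneg (y 1), sq_nonneg (y 2)]
  ext i
  fin_cases i
  · exact h0
  · exact h1
  · exact h2

/-- an antisymmetric matrix annihilated by `y` is a multiple of `EM y` -/
theorem antisymm3 {y : Fin 3 → ℝ} (hy : y ≠ 0) {f : Fin 3 → Fin 3 → ℝ}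
    (ha : ∀ a b, f a b = - f b a) (h0 : ∀ b, ∑ a, y a * f a b = 0) :
    ∀ a b, f a b = ((y 0 * f 1 2 + y 1 * f 2 0 + y 2 * f 0 1) /
      (y 0 ^ 2 + y 1 ^ 2 + y 2 ^ 2)) * EM y a b := by
  have hn := EM_ne hy
  have d0 : f 0 0 = 0 := by have := ha 0 0; linarith
  have d1 : f 1 1 = 0 := by have := ha 1 1; linarith
  have d2 : f 2 2 = 0 := by have := ha 2 2; linarith
  have e01 : f 1 0 = - f 0 1 := ha 1 0
  have e02 : f 0 2 = - f 2 0 := ha 0 2
  have e12 : f 2 1 = - f 1 2 := ha 2 1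
  have k0 := h0 0
  have k1 := h0 1
  have k2 := h0 2
  simp only [Fin.sum_univ_three, d0, d1, d2, e01, e02, e12] at k0 k1 k2
  have g0 : f 1 2 = (y 0 * f 1 2 + y 1 * f 2 0 + y 2 * f 0 1) /
      (y 0 ^ 2 + y 1 ^ 2 + y 2 ^ 2) * y 0 := by
    rw [div_mul_eq_mul_div, eq_div_iff hn]
    linear_combination (y 1) * k2 - (y 2) * k1
  have g1 : f 2 0 = (y 0 * f 1 2 + y 1 * f 2 0 + y 2 * f 0 1) /
      (y 0 ^ 2 + y 1 ^ 2 + y 2 ^ 2) * y 1 := by
    rw [div_mul_eq_mul_div, eq_div_iff hn]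
    linear_combination (y 2) * k0 - (y 0) * k2
  have g2 : f 0 1 = (y 0 * f 1 2 + y 1 * f 2 0 + y 2 * f 0 1) /
      (y 0 ^ 2 + y 1 ^ 2 + y 2 ^ 2) * y 2 := by
    rw [div_mul_eq_mul_div, eq_div_iff hn]
    linear_combination (y 0) * k1 - (y 1) * k0
  intro a b
  fin_cases a <;> fin_cases b <;>
    simp [EM, d0, d1, d2, e01, e02, e12]
  · exact g2
  · exact g1
  · exact g2
  · exact g0
  · exact g1
  · exact g0

/-- the curvature tensors in dimension three -/
theorem curv3 {y : Fin 3 → ℝ} (hy : y ≠ 0) {S : Fin 3 → Fin 3 → Matrix (Fin 3) (Fin 3) ℝ}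
    (h1 : ∀ a b, S a b = - S b a) (h2 : ∀ a b, (S a b)ᵀ = - S a b)
    (h3 : ∀ b, ∑ a, y a • S a b = 0) (h4 : ∀ a b, y ᵥ* S a b = 0) :
    ∃ s : ℝ, ∀ a b, S a b = s • (EM y a b • EM y) := by
  -- first pair
  set L : Matrix (Fin 3) (Fin 3) ℝ := (y 0 ^ 2 + y 1 ^ 2 + y 2 ^ 2)⁻¹ •
    (y 0 • S 1 2 + y 1 • S 2 0 + y 2 • S 0 1) with hL
  have e1 : ∀ a b, S a b = EM y a b • L := by
    intro a b
    ext c d
    have := antisymm3 hy (f := fun a b => S a b c d) (fun a b => by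
        have := congrFun (congrFun (h1 a b) c) d
        simpa using this) (fun b => by
        have := congrFun (congrFun (h3 b) c) d
        simpa [Matrix.sum_apply] using this) a b
    rw [this, hL]
    simp only [Matrix.smul_apply, Matrix.add_apply, smul_eq_mul]
    ring
  have hLa : ∀ c d, L c d = - L d c := by
    intro c d
    have e : ∀ a b, S a b c d = - S a b d c := by
      intro a b
      have := congrFun (congrFun (h2 a b) d) c
      simpa using this
    rw [hL]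
    simp only [Matrix.smul_apply, Matrix.add_apply, smul_eq_mul, e 1 2, e 2 0, e 0 1]
    ring
  have hLy : ∀ d, ∑ c, y c * L c d = 0 := by
    intro d
    have e : ∀ a b, ∑ c, y c * S a b c d = 0 := by
      intro a b
      have := congrFun (h4 a b) d
      simpa [Matrix.vecMul, dotProduct] using this
    have e2 : ∀ c, y c * L c d = (y 0 ^ 2 + y 1 ^ 2 + y 2 ^ 2)⁻¹ * (y 0 * (y c * S 1 2 c d) +
        y 1 * (y c * S 2 0 c d) + y 2 * (y c * S 0 1 c d)) := by
      intro c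
      rw [hL]
      simp only [Matrix.smul_apply, Matrix.add_apply, smul_eq_mul]
      ring
    simp only [e2]
    rw [← Finset.mul_sum, Finset.sum_add_distrib, Finset.sum_add_distrib, ← Finset.mul_sum,
      ← Finset.mul_sum, ← Finset.mul_sum, e, e, e]
    ring
  refine ⟨(y 0 * L 1 2 + y 1 * L 2 0 + y 2 * L 0 1) /
      (y 0 ^ 2 + y 1 ^ 2 + y 2 ^ 2), fun a b => ?_⟩
  rw [e1 a b]
  ext c d
  have := antisymm3 hy (f := fun a b => L a b) hLa hLy c d
  simp only [Matrix.smul_apply, smul_eq_mul]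
  rw [this]
  ring

/-- a `3×3` matrix with `A = Aᵀ`, the norm of a cross product -/
theorem gram3 (A : Matrix (Fin 3) (Fin 3) ℝ) (hA : Aᵀ = A) (y u : Fin 3 → ℝ) :
    cr y u ⬝ᵥ (A.adjugate *ᵥ cr y u) =
      (y ⬝ᵥ A *ᵥ y) * (u ⬝ᵥ A *ᵥ u) - (u ⬝ᵥ A *ᵥ y) ^ 2 := by
  have h01 : A 1 0 = A 0 1 := congrFun (congrFun hA 0) 1
  have h02 : A 2 0 = A 0 2 := congrFun (congrFun hA 0) 2
  have h12 : A 2 1 = A 1 2 := congrFun (congrFun hA 1) 2
  rw [Matrix.adjugate_fin_three]
  simp only [cr, dotProduct, Matrix.mulVec, Fin.sum_univ_three, Matrix.of_apply, Matrix.cons_val',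
    Matrix.cons_val_zero, Matrix.cons_val_one, Matrix.cons_val_two,
    Matrix.empty_val', Matrix.cons_val_fin_one, Matrix.head_cons, Matrix.tail_cons,
    Matrix.head_fin_const, h01, h02, h12]
  ring

/-- contraction of `EM y ⊗ EM y` with `P ⊗ P` -/
theorem rho3 (P : Matrix (Fin 3) (Fin 3) ℝ) (hP : Pᵀ = P) (y : Fin 3 → ℝ) :
    Matrix.trace (P * (Matrix.of fun b d => ∑ a, (P * (EM y a b • EM y)) a d)) =
      2 * (y ⬝ᵥ (P.adjugate *ᵥ y)) := by
  have h01 : P 1 0 = P 0 1 := congrFun (congrFun hP 0) 1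
  have h02 : P 2 0 = P 0 2 := congrFun (congrFun hP 0) 2
  have h12 : P 2 1 = P 1 2 := congrFun (congrFun hP 1) 2
  rw [Matrix.adjugate_fin_three]
  simp only [EM, dotProduct, Matrix.mulVec, Fin.sum_univ_three, Matrix.of_apply, Matrix.cons_val',
    Matrix.cons_val_zero, Matrix.cons_val_one, Matrix.cons_val_two,
    Matrix.empty_val', Matrix.cons_val_fin_one, Matrix.head_cons, Matrix.tail_cons,
    Matrix.head_fin_const, Matrix.trace, Matrix.diag, Matrix.mul_apply, Matrix.smul_apply,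
    smul_eq_mul, h01, h02, h12]
  ring

/-- a skew matrix annihilating two independent vectors vanishes -/
theorem skew3 {N : Matrix (Fin 3) (Fin 3) ℝ} (hN : Nᵀ = - N) {v w : Fin 3 → ℝ}
    (hv : N *ᵥ v = 0) (hw : N *ᵥ w = 0) (hvw : cr v w ≠ 0) : N = 0 := by
  have ha : ∀ a b, N a b = - N b a := by
    intro a b
    have := congrFun (congrFun hN b) a
    simpa using this
  have d0 : N 0 0 = 0 := by have := ha 0 0; linarith
  have d1 : N 1 1 = 0 := by have := ha 1 1; linarith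
  have d2 : N 2 2 = 0 := by have := ha 2 2; linarith
  have e01 : N 1 0 = - N 0 1 := ha 1 0
  have e02 : N 0 2 = - N 2 0 := ha 0 2
  have e12 : N 2 1 = - N 1 2 := ha 2 1
  have v0 := congrFun hv 0
  have v1 := congrFun hv 1
  have v2 := congrFun hv 2
  have w0 := congrFun hw 0
  have w1 := congrFun hw 1
  have w2 := congrFun hw 2
  simp only [Matrix.mulVec, dotProduct, Fin.sum_univ_three, Pi.zero_apply, d0, d1, d2, e01, e02,
    e12] at v0 v1 v2 w0 w1 w2
  have hz : N 0 1 = 0 ∧ N 2 0 = 0 ∧ N 1 2 = 0 := by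
    by_contra hcon
    apply hvw
    have f : ∀ p, (N 0 1 * p = 0 ∧ N 2 0 * p = 0 ∧ N 1 2 * p = 0) → p = 0 := by
      intro p hp
      by_contra hp0
      exact hcon ⟨(mul_eq_zero.1 hp.1).resolve_right hp0, (mul_eq_zero.1 hp.2.1).resolve_right hp0,
        (mul_eq_zero.1 hp.2.2).resolve_right hp0⟩
    have g0 : cr v w 0 = 0 := by
      have e : cr v w 0 = v 1 * w 2 - v 2 * w 1 := rfl
      rw [e]
      exact f _ ⟨by linear_combination (w 2) * v0 - (v 2) * w0,
        by linear_combination (w 1) * v0 - (v 1) * w0,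
        by linear_combination (1/2) * ((v 1) * w1 - (w 1) * v1 - (w 2) * v2 + (v 2) * w2 -
          (v 0) * w0 + (w 0) * v0)⟩
    have g1 : cr v w 1 = 0 := by
      have e : cr v w 1 = v 2 * w 0 - v 0 * w 2 := rfl
      rw [e]
      exact f _ ⟨by linear_combination (w 2) * v1 - (v 2) * w1,
        by linear_combination (1/2) * ((v 2) * w2 - (w 2) * v2 - (w 0) * v0 + (v 0) * w0 -
          (v 1) * w1 + (w 1) * v1),
        by linear_combination (w 0) * v1 - (v 0) * w1⟩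
    have g2 : cr v w 2 = 0 := by
      have e : cr v w 2 = v 0 * w 1 - v 1 * w 0 := rfl
      rw [e]
      exact f _ ⟨by linear_combination (1/2) * ((v 0) * w0 - (w 0) * v0 - (w 1) * v1 +
          (v 1) * w1 - (v 2) * w2 + (w 2) * v2),
        by linear_combination (w 1) * v2 - (v 1) * w2,
        by linear_combination (w 0) * v2 - (v 0) * w2⟩
    ext i
    fin_cases i
    · exact g0
    · exact g1
    · exact g2
  ext a b
  fin_cases a <;> fin_cases b <;> simp [d0, d1, d2, e01, e02, e12, hz.1, hz.2.1, hz.2.2]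

end Pool.Agent.H792.KF
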