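import Pool.Agent.H792.KF.Lin

/-!
# Landsberg metrics: curvature or Berwald curvature vanishes
-/

set_option autoImplicit false

open scoped BigOperators ContDiff Topology Matrix
open Filter Set

namespace Pool.Agent.H792.KF

open Pool.Agent.R774.BW Pool.Agent.H792.Gen Pool.Agent.H792.LF

variable {n : ℕ} {U : Set (Fin n → ℝ)} {F : (Fin n → ℝ) → (Fin n → ℝ) → ℝ}
  {G : (Fin n → ℝ) → (Fin n → ℝ) → (Fin n → ℝ)}

/-- any two infinitesimal isometries are proportional -/
def Dep (Q : (Fin n → ℝ) → ℝ) : Prop := ∀ X Y : Fin n → (Fin n → ℝ) → ℝ, Kil Q X → Kil Q Y →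
  ∃ a b : ℝ, (a ≠ 0 ∨ b ≠ 0) ∧ ∀ y, y ≠ 0 → ∀ i, a * X i y + b * Y i y = 0

theorem mono_F (hF : IsFinsler U F) {O : Set (Fin n → ℝ)} (hO : IsOpen O) (h : O ⊆ U) :
    IsFinsler O F :=
  ⟨hO, hF.smooth.mono (prod_mono_left h), fun x hx => hF.pos x (h hx),
    fun x hx => hF.hom x (h hx), fun x hx => hF.conv x (h hx)⟩

theorem mono_G (hG : IsSpray U F G) {O : Set (Fin n → ℝ)} (h : O ⊆ U) : IsSpray O F G :=
  fun x hx => hG x (h hx)

theorem mono_L (hL : IsLandsberg U F G) {O : Set (Fin n → ℝ)} (h : O ⊆ U) : IsLandsberg O F G :=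
  fun x hx => hL x (h hx)

theorem mono_JS {f : (Fin n → ℝ) → (Fin n → ℝ) → ℝ} (hf : JS U f) {O : Set (Fin n → ℝ)}
    (h : O ⊆ U) : JS O f := fun x hx => hf x (h hx)

theorem exists_z (hn : 3 ≤ n) (p r : Fin n → ℝ) : ∃ z : Fin n → ℝ, z ≠ 0 ∧
    ∑ a, z a * p a = 0 ∧ ∑ a, z a * r a = 0 := by
  set f : (Fin n → ℝ) →ₗ[ℝ] (Fin 2 → ℝ) := Matrix.mulVecLin (Matrix.of ![p, r]) with hf
  have hk : LinearMap.ker f ≠ ⊥ := LinearMap.ker_ne_bot_of_finrank_lt (by simp; omega)
  obtain ⟨z, hz, hz0⟩ := (Submodule.ne_bot_iff _).1 hk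
  rw [LinearMap.mem_ker] at hz
  refine ⟨z, hz0, ?_, ?_⟩
  · have := congrFun hz 0
    simp only [hf, Matrix.mulVecLin_apply, Matrix.mulVec, dotProduct, Matrix.of_apply,
      Matrix.cons_val_zero, Pi.zero_apply] at this
    rw [← this]
    exact Finset.sum_congr rfl fun a _ => mul_comm _ _
  · have := congrFun hz 1
    simp only [hf, Matrix.mulVecLin_apply, Matrix.mulVec, dotProduct, Matrix.of_apply,
      Matrix.cons_val_one, Matrix.cons_val_zero, Pi.zero_apply] at this
    rw [← this]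
    exact Finset.sum_congr rfl fun a _ => mul_comm _ _

section

variable (hF : IsFinsler U F) (hG : IsSpray U F G) (hL : IsLandsberg U F G)

include hF hG hL

/-- a curvature field which does not vanish at `x` is linear at `x`, when infinitesimal isometries
are proportional; and it is constant in some direction -/
theorem lin_at (hn : 3 ≤ n) {x : Fin n → ℝ} (hx : x ∈ U) (hd : Dep (q F x)) (k l : Fin n)
    (hne : ∃ i y, y ≠ 0 ∧ Rc G (Pi.single k 1) (Pi.single l 1) i x y ≠ 0) :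
    ∃ z : Fin n → ℝ, z ≠ 0 ∧ ∀ y, y ≠ 0 → ∀ i,
      ∑ a, z a * pd a (Rc G (Pi.single k 1) (Pi.single l 1) i x) y = 0 := by
  obtain ⟨i0, y0, hy0, hne0⟩ := hne
  -- all curvature fields are multiples
  have hmul : ∀ b c : Fin n, ∃ w : ℝ, ∀ y, y ≠ 0 → ∀ i,
      Rc G (Pi.single b 1) (Pi.single c 1) i x y =
        w * Rc G (Pi.single k 1) (Pi.single l 1) i x y := by
    intro b c
    obtain ⟨a, a', haa, hz⟩ := hd _ _ (Rc_kil hF hG hL (Pi.single k 1) (Pi.single l 1) hx)
      (Rc_kil hF hG hL (Pi.single b 1) (Pi.single c 1) hx)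
    have ha' : a' ≠ 0 := by
      rintro rfl
      have ha : a ≠ 0 := by
        rcases haa with h | h
        · exact h
        · exact absurd rfl h
      have := hz y0 hy0 i0
      rw [zero_mul, add_zero] at this
      exact hne0 ((mul_eq_zero.1 this).resolve_left ha)
    refine ⟨-(a / a'), fun y hy i => ?_⟩
    have := hz y hy i
    field_simp
    linarith
  choose w hw using hmul
  obtain ⟨z, hz0, hz1, hz2⟩ := exists_z hn (fun a => w l a) (fun a => w a k)
  refine ⟨z, hz0, fun y hy i => ?_⟩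
  have hs : ∀ b c : Fin n, Sm (Rc G (Pi.single b 1) (Pi.single c 1) i x) := fun b c =>
    (Rc_JS hF hG _ _ i).sm hx
  have e : ∀ a, pd a (Rc G (Pi.single k 1) (Pi.single l 1) i x) y =
      -(w l a * pd k (Rc G (Pi.single k 1) (Pi.single l 1) i x) y +
        w a k * pd l (Rc G (Pi.single k 1) (Pi.single l 1) i x) y) := by
    intro a
    have hb := bianchi hF hG hx hy a k l i
    rw [pd_congr (fun y hy => hw l a y hy i) k hy, pd_congr (fun y hy => hw a k y hy i) l hy,
      pd_const_mul (hs k l) _ k hy, pd_const_mul (hs k l) _ l hy] at hb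
    linarith
  calc ∑ a, z a * pd a (Rc G (Pi.single k 1) (Pi.single l 1) i x) y =
      -((∑ a, z a * w l a) * pd k (Rc G (Pi.single k 1) (Pi.single l 1) i x) y +
        (∑ a, z a * w a k) * pd l (Rc G (Pi.single k 1) (Pi.single l 1) i x) y) := by
        rw [Finset.sum_mul, Finset.sum_mul, ← Finset.sum_add_distrib, ← Finset.sum_neg_distrib]
        exact Finset.sum_congr rfl fun a _ => by rw [e a]; ring
    _ = 0 := by rw [hz1, hz2]; ring

/-- **curvature or Berwald curvature vanishes, when infinitesimal isometries are proportional** -/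
theorem curved (hn : 3 ≤ n) (hd : ∀ x ∈ U, Dep (q F x)) {x : Fin n → ℝ} (hx : x ∈ U) :
    (∀ k l i, ∀ y, y ≠ 0 → Rc G (Pi.single k 1) (Pi.single l 1) i x y = 0) ∨
    ∀ y, y ≠ 0 → ∀ i j k l, berwald G x y i j k l = 0 := by
  by_contra hcon
  push Not at hcon
  obtain ⟨⟨k, l, i0, y0, hy0, hne⟩, hB⟩ := hcon
  obtain ⟨y1, hy1, i1, j1, k1, l1, hB1⟩ := hB
  apply hB1
  set X : Fin n → (Fin n → ℝ) → (Fin n → ℝ) → ℝ := fun i => Rc G (Pi.single k 1)
    (Pi.single l 1) i with hXdef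
  have hXJ : ∀ i, JS U (X i) := fun i => Rc_JS hF hG _ _ i
  -- the open set where `X` does not vanish
  set O : Set (Fin n → ℝ) := U ∩ (fun z => X i0 z y0) ⁻¹' {0}ᶜ with hO
  have hOo : IsOpen O := by
    refine ContinuousOn.isOpen_inter_preimage ?_ hF.isOpen isOpen_compl_singleton
    intro z hz
    exact ((hXJ i0).smx hz hy0).continuousAt.continuousWithinAt
  have hOU : O ⊆ U := inter_subset_left
  have hxO : x ∈ O := ⟨hx, hne⟩
  have hF' := mono_F hF hOo hOU
  have hG' := mono_G hG hOU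
  have hL' := mono_L hL hOU
  have hXJ' : ∀ i, JS O (X i) := fun i => mono_JS (hXJ i) hOU
  -- linearity
  have hlin : ∀ z ∈ O, ∀ y, y ≠ 0 → ∀ a b i, pd a (pd b (X i z)) y = 0 := by
    intro z hz y hy a b i
    obtain ⟨w, hw0, hw⟩ := lin_at hF hG hL hn (hOU hz) (hd z (hOU hz)) k l ⟨i0, y0, hy0, hz.2⟩
    refine lin_of_dir (by omega) ((hXJ' i).sm hz)
      ((Rc_kil hF hG hL (Pi.single k 1) (Pi.single l 1) (hOU hz)).hom i) hw0 (fun y hy => ?_) hy a b
    rw [dd_eq]
    exact hw y hy i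
  have hXk : ∀ z ∈ O, Kil (q F z) (fun i => X i z) := fun z hz =>
    Rc_kil hF hG hL (Pi.single k 1) (Pi.single l 1) (hOU hz)
  have hY : ∀ v j k i, ∀ y, y ≠ 0 → pd j (pd k (Yf G (Pi.single v 1) X i x)) y = 0 := by
    intro v j k' i y hy
    obtain ⟨a, a', haa, hz⟩ := hd x hx _ _ (hXk x hxO)
      (Yf_kil hF' hG' hXJ' hL' (Pi.single v 1) hXk hxO)
    have ha' : a' ≠ 0 := by
      rintro rfl
      have ha : a ≠ 0 := by
        rcases haa with h | h
        · exact h
        · exact absurd rfl h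
      have := hz y0 hy0 i0
      rw [zero_mul, add_zero] at this
      exact hne ((mul_eq_zero.1 this).resolve_left ha)
    have h1 : ∀ y, y ≠ 0 → Yf G (Pi.single v 1) X i x y = -(a / a') * X i x y := by
      intro y hy
      have := hz y hy i
      field_simp
      linarith
    have hs : Sm (X i x) := (hXJ i).sm hx
    rw [pd_congr (fun y hy => pd_congr h1 k' hy) j hy,
      pd_congr (fun y hy => pd_const_mul hs _ k' hy) j hy, pd_const_mul (hs.pd k') _ j hy,
      hlin x hxO y hy j k' i, mul_zero]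
  -- the matrix
  obtain ⟨z, hz0, hz⟩ := lin_at hF hG hL hn hx (hd x hx) k l ⟨i0, y0, hy0, hne⟩
  set M : Matrix (Fin n) (Fin n) ℝ := Matrix.of fun a b => pd b (X a x) y0 with hM
  have hMc : ∀ y, y ≠ 0 → ∀ a b, pd b (X a x) y = M a b := by
    intro y hy a b
    exact const_of_pd (by omega) (((hXJ a).sm hx).pd b)
      (fun y hy c => hlin x hxO y hy c b a) hy hy0
  have hM0 : M ≠ 0 := by
    intro h0
    have e := ((hXk x hxO).hom i0).euler ((hXJ i0).sm hx) hy0
    simp only [hMc y0 hy0, h0, Matrix.zero_apply, mul_zero, Finset.sum_const_zero, Int.cast_one,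
      one_mul] at e
    exact hne e.symm
  have hMz : M *ᵥ z = 0 := by
    ext a
    simp only [Matrix.mulVec, dotProduct, Pi.zero_apply]
    rw [← hz y0 hy0 a]
    exact Finset.sum_congr rfl fun b _ => by
      rw [← hMc y0 hy0 a b]; ring
  have hgs : Sm (fun z => G x z i1) := (G_JS hF hG i1).sm hx
  refine kill_B (by omega) hgs (G_hom hF hG hx i1) hM0 hz0 hMz (fun y hy j k v => ?_) hy1
    j1 k1 l1
  have := rel hF' hG' hXJ' hlin hxO hY hy i1 j k v
  simp only [hMc y hy] at this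
  exact this

/-- a fibre near which all fibres are Euclidean has vanishing Berwald curvature -/
theorem berwald_of_T (hT : ∀ x ∈ U, ∀ y, y ≠ 0 → ∀ a b c, pd a (pd b (pd c (q F x))) y = 0)
    {x : Fin n → ℝ} (hx : x ∈ U) {y : Fin n → ℝ} (hy : y ≠ 0) (i j k l : Fin n) :
    berwald G x y i j k l = 0 := by
  have h1 : ∀ c, ∑ m, pd j (pd k (N G (Pi.single l 1) m x)) y * pd m (pd c (q F x)) y = 0 := by
    intro c
    have h := Dq3 hF hG hL (Pi.single l 1) hx hy j k c
    rw [Dh_congr hF.isOpen (g := fun _ _ => 0) (fun x hx y hy => hT x hx y hy j k c) hx hy,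
      Dh_const] at h
    simp only [hT x hx y hy, mul_zero, zero_mul, Finset.sum_const_zero, zero_add] at h
    linarith
  have h2 : (fun m => pd j (pd k (N G (Pi.single l 1) m x)) y) ᵥ* A (q F x) y = 0 := by
    ext c
    simp only [Matrix.vecMul, dotProduct, Pi.zero_apply]
    exact h1 c
  have h3 := congrArg (fun v => v ᵥ* (A (q F x) y)⁻¹) h2
  simp only [Matrix.vecMul_vecMul, APy (q_mn hF hx) hy, Matrix.vecMul_one,
    Matrix.zero_vecMul] at h3
  exact congrFun h3 i

end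

/-- Euclidean fibres have vanishing third derivatives -/
theorem T_of_euclid (hF : IsFinsler U F) {x : Fin n → ℝ} (hx : x ∈ U)
    {M : Matrix (Fin n) (Fin n) ℝ} (h : ∀ y, F x y = √(y ⬝ᵥ M *ᵥ y)) {y : Fin n → ℝ} (hy : y ≠ 0)
    (a b c : Fin n) : pd a (pd b (pd c (q F x))) y = 0 := by
  have h1 : ∀ z : Fin n → ℝ, z ≠ 0 → q F x z = ∑ k, ∑ j, M k j * z k * z j := by
    intro z hz
    have hpos := hF.pos x hx z hz
    rw [h z] at hpos
    have h2 := Real.sqrt_pos.1 hpos
    unfold q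
    rw [h z, Real.sq_sqrt h2.le]
    simp only [dotProduct, Matrix.mulVec, Finset.mul_sum]
    exact Finset.sum_congr rfl fun k _ => Finset.sum_congr rfl fun j _ => by ring
  rw [pd_congr (fun z hz => pd_congr (fun z hz => pd_congr h1 c hz) b hz) a hy]
  exact pd3_quad _ a b c hy

section dim3

variable {U : Set (Fin 3 → ℝ)} {F : (Fin 3 → ℝ) → (Fin 3 → ℝ) → ℝ}
  {G : (Fin 3 → ℝ) → (Fin 3 → ℝ) → (Fin 3 → ℝ)}

/-- two independent infinitesimal isometries force a Euclidean norm -/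
theorem euclid_of_two (hF : IsFinsler U F) {x : Fin 3 → ℝ} (hx : x ∈ U) (h : ¬ Dep (q F x)) :
    ∃ M : Matrix (Fin 3) (Fin 3) ℝ, M.PosDef ∧ ∀ y, F x y = √(y ⬝ᵥ M *ᵥ y) := by
  unfold Dep at h
  push Not at h
  obtain ⟨X, Y, hX, hY, hXY⟩ := h
  refine euclid_of_flat le_rfl hF hx (fun y hy a b => ?_)
  refine flat_of_two (q_mn hF hx) hX hY (fun a b hab => ?_) hy a b
  by_contra hcon
  have h2 : a ≠ 0 ∨ b ≠ 0 := by
    by_contra h3
    push Not at h3
    exact hcon h3
  obtain ⟨y, hy, i, hi⟩ := hXY a b h2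
  exact hi (hab y hy i)

variable (hF : IsFinsler U F) (hG : IsSpray U F G) (hL : IsLandsberg U F G)

include hF hG hL

theorem ball_case {x : Fin 3 → ℝ} (hx : x ∈ U) :
    (∀ y, y ≠ 0 → ∀ i j k l, berwald G x y i j k l = 0) ∨
    ∃ O ⊆ U, IsOpen O ∧ x ∈ O ∧ ∀ z ∈ O, Dep (q F z) := by
  obtain ⟨r, hr, hball⟩ := Metric.isOpen_iff.1 hF.isOpen x hx
  by_cases h : ∀ z ∈ Metric.ball x r, Dep (q F z)
  · exact Or.inr ⟨_, hball, Metric.isOpen_ball, Metric.mem_ball_self hr, h⟩
  · left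
    push Not at h
    obtain ⟨z, hz, hdep⟩ := h
    obtain ⟨M, -, hM⟩ := euclid_of_two hF (hball hz) hdep
    have hF' := mono_F hF Metric.isOpen_ball hball
    have hG' := mono_G hG hball
    have hL' := mono_L hL hball
    intro y hy i j k l
    refine berwald_of_T hF' hG' hL' (fun w hw y hy a b c => ?_) (Metric.mem_ball_self hr) hy
      i j k l
    obtain ⟨M', -, hM'⟩ := LF.main le_rfl hF' hG' hL' (convex_ball x r).isPreconnected hz hM hw
    exact T_of_euclid hF' hw hM' hy a b c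

/-- in dimension three curvature or Berwald curvature vanishes -/
theorem dim3 {x : Fin 3 → ℝ} (hx : x ∈ U) :
    (∀ k l i, ∀ y, y ≠ 0 → Rc G (Pi.single k 1) (Pi.single l 1) i x y = 0) ∨
    ∀ y, y ≠ 0 → ∀ i j k l, berwald G x y i j k l = 0 := by
  rcases ball_case hF hG hL hx with h | ⟨O, hOU, hO, hxO, hd⟩
  · exact Or.inr h
  · exact curved (mono_F hF hO hOU) (mono_G hG hOU) (mono_L hL hOU) le_rfl hd hxO

end dim3

end Pool.Agent.H792.KF
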