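import Pool.Agent.H792.KF.Cplx
import Pool.Agent.H792.KF.Main

/-!
# Curved Landsberg metrics whose fibres have only linear infinitesimal isometries
-/

set_option autoImplicit false

open scoped BigOperators ContDiff Topology Matrix
open Filter Set

namespace Pool.Agent.H792.KF

open Pool.Agent.R774.BW Pool.Agent.H792.Gen Pool.Agent.H792.LF

variable {n : ℕ}

/-- a real matrix has a (complex) eigenvector -/
theorem exists_eig (hn : 1 ≤ n) (M : Matrix (Fin n) (Fin n) ℝ) :
    ∃ (al be : ℝ) (a b : Fin n → ℝ), (a ≠ 0 ∨ b ≠ 0) ∧ M *ᵥ a = al • a - be • b ∧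
      M *ᵥ b = al • b + be • a := by
  have : Nonempty (Fin n) := ⟨⟨0, hn⟩⟩
  set MC : Matrix (Fin n) (Fin n) ℂ := M.map Complex.ofReal with hMC
  obtain ⟨μ, hμ⟩ := Module.End.exists_eigenvalue (K := ℂ) (V := Fin n → ℂ) (Matrix.toLin' MC)
  obtain ⟨v, hv⟩ := hμ.exists_hasEigenvector
  have hv0 : v ≠ 0 := hv.2
  have hv1 : MC *ᵥ v = μ • v := by
    have := hv.apply_eq_smul
    rwa [Matrix.toLin'_apply] at this
  refine ⟨μ.re, μ.im, fun i => (v i).re, fun i => (v i).im, ?_, ?_, ?_⟩
  · by_contra hcon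
    push Not at hcon
    apply hv0
    ext i
    exact Complex.ext (congrFun hcon.1 i) (congrFun hcon.2 i)
  · ext i
    have := congrArg Complex.re (congrFun hv1 i)
    simp only [Matrix.mulVec, dotProduct, hMC, Matrix.map_apply, Pi.smul_apply, smul_eq_mul,
      Complex.re_sum, Complex.mul_re, Complex.ofReal_re, Complex.ofReal_im, zero_mul,
      sub_zero] at this
    simp only [Matrix.mulVec, dotProduct, Pi.sub_apply, Pi.smul_apply, smul_eq_mul]
    exact this
  · ext i
    have := congrArg Complex.im (congrFun hv1 i)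
    simp only [Matrix.mulVec, dotProduct, hMC, Matrix.map_apply, Pi.smul_apply, smul_eq_mul,
      Complex.im_sum, Complex.mul_im, Complex.ofReal_re, Complex.ofReal_im, zero_mul,
      add_zero] at this
    simp only [Matrix.mulVec, dotProduct, Pi.add_apply, Pi.smul_apply, smul_eq_mul]
    exact this

/-- the algebraic relation for a nonzero linear infinitesimal isometry kills the Berwald
curvature -/
theorem kill_lin (hn : 3 ≤ n) {Q : (Fin n → ℝ) → ℝ} (hQ : MN Q)
    {X : Fin n → (Fin n → ℝ) → ℝ} (hX : Kil Q X) {M : Matrix (Fin n) (Fin n) ℝ}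
    (hM : M ≠ 0) (hXM : ∀ y, y ≠ 0 → ∀ a b, pd b (X a) y = M a b) {g : (Fin n → ℝ) → ℝ}
    (hg : Sm g) (hh : Hom 2 g)
    (hrel : ∀ y, y ≠ 0 → ∀ j k v, ∑ b, M b k * pd j (pd b (pd v g)) y =
      ∑ b, M b v * pd j (pd b (pd k g)) y) {y : Fin n → ℝ} (hy : y ≠ 0) (j k l : Fin n) :
    pd j (pd k (pd l g)) y = 0 := by
  by_cases hker : ∃ z : Fin n → ℝ, z ≠ 0 ∧ M *ᵥ z = 0
  · obtain ⟨z, hz, hMz⟩ := hker
    exact kill_B (by omega) hg hh hM hz hMz hrel hy j k l
  · push Not at hker
    obtain ⟨al, be, a, b, hab, hMa, hMb⟩ := exists_eig (by omega) M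
    -- no real eigenvectors
    have hreal : ∀ e : Fin n → ℝ, e ≠ 0 → ∀ c : ℝ, M *ᵥ e = c • e → False := by
      intro e he c hce
      have hc : c ≠ 0 := by
        rintro rfl
        rw [zero_smul] at hce
        exact hker e he hce
      have h1 := tang hQ hX he
      have h2 : ∀ i, X i e = c * e i := by
        intro i
        have h3 := (hX.hom i).euler (hX.sm i) he
        simp only [hXM e he, Int.cast_one, one_mul] at h3
        rw [← h3]
        have h4 := congrFun hce i
        simp only [Matrix.mulVec, dotProduct, Pi.smul_apply, smul_eq_mul] at h4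
        rw [← h4]
        exact Finset.sum_congr rfl fun m _ => mul_comm _ _
      simp only [h2] at h1
      have h5 : c * ∑ i, e i * pd i Q e = 0 := by
        rw [← h1, Finset.mul_sum]
        exact Finset.sum_congr rfl fun i _ => by ring
      rw [euler1 hQ he] at h5
      have h6 := hQ.pos e he
      rcases mul_eq_zero.1 h5 with h | h
      · exact hc h
      · linarith
    have hbe : be ≠ 0 := by
      rintro rfl
      rw [zero_smul, sub_zero] at hMa
      rw [zero_smul, add_zero] at hMb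
      rcases hab with h | h
      · exact hreal a h al hMa
      · exact hreal b h al hMb
    have hind : ∀ s t : ℝ, s • a + t • b = 0 → s = 0 ∧ t = 0 := by
      intro s t hst
      have h1 : t • a - s • b = 0 := by
        have h2 := congrArg (fun v => M *ᵥ v) hst
        simp only [Matrix.mulVec_add, Matrix.mulVec_smul, hMa, hMb, Matrix.mulVec_zero] at h2
        have h3 : be • (t • a - s • b) = 0 := by
          have h4 : be • (t • a - s • b) = s • (al • a - be • b) + t • (al • b + be • a) -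
              al • (s • a + t • b) := by module
          rw [h4, h2, hst]
          simp
        exact (smul_eq_zero.1 h3).resolve_left hbe
      have h2 : (s ^ 2 + t ^ 2) • a = 0 := by
        have : (s ^ 2 + t ^ 2) • a = s • (s • a + t • b) + t • (t • a - s • b) := by module
        rw [this, hst, h1]
        simp
      have h3 : (s ^ 2 + t ^ 2) • b = 0 := by
        have : (s ^ 2 + t ^ 2) • b = t • (s • a + t • b) - s • (t • a - s • b) := by module
        rw [this, hst, h1]
        simp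
      have h4 : s ^ 2 + t ^ 2 = 0 := by
        rcases hab with h | h
        · exact (smul_eq_zero.1 h2).resolve_right h
        · exact (smul_eq_zero.1 h3).resolve_right h
      constructor <;> nlinarith [sq_nonneg s, sq_nonneg t]
    refine kill_C hn hg hh hind (fun w hw l => ?_) hy j k l
    -- the quadratic form
    set H : Matrix (Fin n) (Fin n) ℝ := Matrix.of fun p r => pd p (pd r (pd l g)) w with hH
    have hrel2 : Mᵀ * H = H * M := by
      ext k v
      simp only [Matrix.mul_apply, Matrix.transpose_apply, hH, Matrix.of_apply]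
      have h1 := hrel w hw l k v
      have c1 : ∀ b v : Fin n, pd l (pd b (pd v g)) w = pd b (pd v (pd l g)) w := by
        intro b v
        rw [pd_comm (hg.pd v) l b hw]
        exact pd_congr (fun z hz => pd_comm hg l v hz) b hw
      simp only [c1] at h1
      rw [h1]
      refine Finset.sum_congr rfl fun b _ => ?_
      rw [pd_comm (hg.pd l) b k hw]
      ring
    have hdd : ∀ c : Fin n → ℝ, dd c (dd c (pd l g)) w = c ⬝ᵥ H *ᵥ c := by
      intro c
      rw [dd_dd_eq (hg.pd l) c c hw]
      simp only [dd_eq, dotProduct, Matrix.mulVec, hH, Matrix.of_apply, Finset.mul_sum]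
      rw [Finset.sum_comm]
      exact Finset.sum_congr rfl fun p _ => Finset.sum_congr rfl fun r _ => by ring
    rw [hdd, hdd]
    have h1 : (M *ᵥ a) ⬝ᵥ H *ᵥ b = a ⬝ᵥ H *ᵥ (M *ᵥ b) := by
      have e1 : (M *ᵥ a) ⬝ᵥ H *ᵥ b = a ⬝ᵥ (Mᵀ * H) *ᵥ b := by
        rw [← Matrix.mulVec_mulVec, Matrix.dotProduct_mulVec a, Matrix.vecMul_transpose]
      rw [e1, hrel2, Matrix.mulVec_mulVec]
    rw [hMa, hMb, Matrix.mulVec_add, Matrix.mulVec_smul, Matrix.mulVec_smul, sub_dotProduct,
      smul_dotProduct, smul_dotProduct, dotProduct_add, dotProduct_smul, dotProduct_smul] at h1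
    simp only [smul_eq_mul] at h1
    have h2 : be * (a ⬝ᵥ H *ᵥ a + b ⬝ᵥ H *ᵥ b) = 0 := by linarith
    exact (mul_eq_zero.1 h2).resolve_left hbe

variable {U : Set (Fin n → ℝ)} {F : (Fin n → ℝ) → (Fin n → ℝ) → ℝ}
  {G : (Fin n → ℝ) → (Fin n → ℝ) → (Fin n → ℝ)}

/-- **curvature or Berwald curvature vanishes, when infinitesimal isometries are linear** -/
theorem curved_lin (hF : IsFinsler U F) (hG : IsSpray U F G) (hL : IsLandsberg U F G)
    (hn : 3 ≤ n) (hd : ∀ x ∈ U, ∀ X, Kil (q F x) X → ∀ y, y ≠ 0 → ∀ a b i,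
      pd a (pd b (X i)) y = 0) {x : Fin n → ℝ} (hx : x ∈ U) :
    (∀ k l i, ∀ y, y ≠ 0 → Rc G (Pi.single k 1) (Pi.single l 1) i x y = 0) ∨
    ∀ y, y ≠ 0 → ∀ i j k l, berwald G x y i j k l = 0 := by
  by_contra hcon
  push Not at hcon
  obtain ⟨⟨k, l, i0, y0, hy0, hne⟩, hB⟩ := hcon
  obtain ⟨y1, hy1, i1, j1, k1, l1, hB1⟩ := hB
  apply hB1
  set X : Fin n → (Fin n → ℝ) → (Fin n → ℝ) → ℝ := fun i => Rc G (Pi.single k 1)
    (Pi.single l 1) i with hXdef
  have hXJ : ∀ i, JS U (X i) := fun i => Rc_JS hF hG _ _ i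
  have hXk : ∀ z ∈ U, Kil (q F z) (fun i => X i z) := fun z hz =>
    Rc_kil hF hG hL (Pi.single k 1) (Pi.single l 1) hz
  have hlin : ∀ z ∈ U, ∀ y, y ≠ 0 → ∀ a b i, pd a (pd b (X i z)) y = 0 := fun z hz =>
    hd z hz _ (hXk z hz)
  have hY : ∀ v j k i, ∀ y, y ≠ 0 → pd j (pd k (Yf G (Pi.single v 1) X i x)) y = 0 :=
    fun v j k i y hy => hd x hx _ (Yf_kil hF hG hXJ hL (Pi.single v 1) hXk hx) y hy j k i
  set M : Matrix (Fin n) (Fin n) ℝ := Matrix.of fun a b => pd b (X a x) y0 with hM
  have hMc : ∀ y, y ≠ 0 → ∀ a b, pd b (X a x) y = M a b := by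
    intro y hy a b
    exact const_of_pd (by omega) (((hXJ a).sm hx).pd b)
      (fun y hy c => hlin x hx y hy c b a) hy hy0
  have hM0 : M ≠ 0 := by
    intro h0
    have e := ((hXk x hx).hom i0).euler ((hXJ i0).sm hx) hy0
    simp only [hMc y0 hy0, h0, Matrix.zero_apply, mul_zero, Finset.sum_const_zero, Int.cast_one,
      one_mul] at e
    exact hne e.symm
  have hgs : Sm (fun z => G x z i1) := (G_JS hF hG i1).sm hx
  refine kill_lin hn (q_mn hF hx) (hXk x hx) hM0 hMc hgs (G_hom hF hG hx i1)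
    (fun y hy j k v => ?_) hy1 j1 k1 l1
  have := rel hF hG hXJ hlin hx hY hy i1 j k v
  simp only [hMc y hy] at this
  exact this

end Pool.Agent.H792.KF
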