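import Pool.Agent.H792.KF.MaxP

/-!
# Changes of coordinates
-/

set_option autoImplicit false

open scoped BigOperators ContDiff Topology Matrix
open Filter Set

namespace Pool.Agent.H792.KF

open Pool.Agent.R774.BW Pool.Agent.H792.Gen Pool.Agent.H792.LF

variable {n : ℕ}

theorem fderiv_split {U : Set (Fin n → ℝ)} {f : (Fin n → ℝ) → (Fin n → ℝ) → ℝ} (hf : JS U f)
    {x y : Fin n → ℝ} (hx : x ∈ U) (hy : y ≠ 0) (a b : Fin n → ℝ) :
    fderiv ℝ (fun p : (Fin n → ℝ) × (Fin n → ℝ) => f p.1 p.2) (x, y) (a, b) =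
      LF.dx a f x y + dd b (f x) y := by
  set Ψ : (Fin n → ℝ) × (Fin n → ℝ) → ℝ := fun p => f p.1 p.2 with hΨ
  have hd : HasFDerivAt Ψ (fderiv ℝ Ψ (x, y)) (x, y) :=
    ((hf x hx y hy).differentiableAt (by simp)).hasFDerivAt
  have h6 : HasFDerivAt (fun z : Fin n → ℝ => (z, y))
      ((ContinuousLinearMap.id ℝ (Fin n → ℝ)).prod (0 : (Fin n → ℝ) →L[ℝ] (Fin n → ℝ))) x :=
    (hasFDerivAt_id x).prodMk (hasFDerivAt_const y x)
  have h7 := (show HasFDerivAt Ψ (fderiv ℝ Ψ (x, y)) ((fun z : Fin n → ℝ => (z, y)) x)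
    from hd).comp x h6
  have h8 : fderiv ℝ (fun z => f z y) x = _ := h7.fderiv
  have h9 : HasFDerivAt (fun z : Fin n → ℝ => (x, z))
      ((0 : (Fin n → ℝ) →L[ℝ] (Fin n → ℝ)).prod (ContinuousLinearMap.id ℝ (Fin n → ℝ))) y :=
    (hasFDerivAt_const x y).prodMk (hasFDerivAt_id y)
  have h10 := (show HasFDerivAt Ψ (fderiv ℝ Ψ (x, y)) ((fun z : Fin n → ℝ => (x, z)) y)
    from hd).comp y h9
  have h11 : fderiv ℝ (f x) y = _ := h10.fderiv
  have e3 : fderiv ℝ Ψ (x, y) (a, (0 : Fin n → ℝ)) = LF.dx a f x y := by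
    unfold LF.dx
    rw [h8]
    simp
  have e4 : fderiv ℝ Ψ (x, y) ((0 : Fin n → ℝ), b) = dd b (f x) y := by
    unfold dd
    rw [h11]
    simp
  have e2 : (a, b) = (a, (0 : Fin n → ℝ)) + ((0 : Fin n → ℝ), b) := by simp
  rw [e2, map_add, e3, e4]

theorem dd_comp (L : (Fin n → ℝ) →L[ℝ] (Fin n → ℝ)) {f : (Fin n → ℝ) → ℝ} {y : Fin n → ℝ}
    (hf : DifferentiableAt ℝ f (L y)) (w : Fin n → ℝ) :
    dd w (fun z => f (L z)) y = dd (L w) f (L y) := by
  unfold dd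
  have h : HasFDerivAt (fun z => f (L z)) ((fderiv ℝ f (L y)).comp L) y :=
    hf.hasFDerivAt.comp y L.hasFDerivAt
  rw [h.fderiv]
  rfl

section lin

variable {L : (Fin n → ℝ) →L[ℝ] (Fin n → ℝ)} (hL : ∀ v, L v = 0 → v = 0) {f : (Fin n → ℝ) → ℝ}
  (hf : Sm f) (w : Fin n → ℝ) {y : Fin n → ℝ} (hy : y ≠ 0)

include hL hf hy

theorem dd_comp1 : dd w (fun z => f (L z)) y = dd (L w) f (L y) :=
  dd_comp L (hf.diff fun h => hy (hL y h)) w

theorem dd_comp2 : dd w (dd w (fun z => f (L z))) y = dd (L w) (dd (L w) f) (L y) := by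
  rw [dd_congr (fun z hz => dd_comp1 hL hf w hz) w hy, dd_comp1 hL (Sm.dd hf _) w hy]

theorem dd_comp3 : dd w (dd w (dd w (fun z => f (L z)))) y =
    dd (L w) (dd (L w) (dd (L w) f)) (L y) := by
  rw [dd_congr (fun z hz => dd_comp2 hL hf w hz) w hy,
    dd_comp1 hL (Sm.dd (Sm.dd hf _) _) w hy]

theorem dd_comp4 : dd w (dd w (dd w (dd w (fun z => f (L z))))) y =
    dd (L w) (dd (L w) (dd (L w) (dd (L w) f))) (L y) := by
  rw [dd_congr (fun z hz => dd_comp3 hL hf w hz) w hy,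
    dd_comp1 hL (Sm.dd (Sm.dd (Sm.dd hf _) _) _) w hy]

end lin

theorem dd3_quadmap (B : (Fin n → ℝ) →L[ℝ] (Fin n → ℝ) →L[ℝ] (Fin n → ℝ)) (i : Fin n)
    (w : Fin n → ℝ) {y : Fin n → ℝ} (hy : y ≠ 0) :
    dd w (dd w (dd w (fun z => B z z i))) y = 0 := by
  have e : ∀ z : Fin n → ℝ, z ≠ 0 → B z z i = ∑ j, ∑ k,
      B (Pi.single j 1) (Pi.single k 1) i * z j * z k := by
    intro z _
    have hz : z = ∑ j, z j • (Pi.single j (1:ℝ) : Fin n → ℝ) := by
      ext a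
      simp [Finset.sum_apply, Pi.single_apply]
    conv_lhs => rw [hz]
    simp only [map_sum, map_smul, _root_.sum_apply, _root_.smul_apply, Finset.sum_apply,
      Pi.smul_apply, smul_eq_mul]
    simp only [Finset.mul_sum]
    rw [Finset.sum_comm]
    exact Finset.sum_congr rfl fun j _ => Finset.sum_congr rfl fun k _ => by ring
  rw [dd_congr (fun z hz => dd_congr (fun z hz => dd_congr e w hz) w hz) w hy]
  have hs : Sm (fun z : Fin n → ℝ => ∑ j, ∑ k, B (Pi.single j 1) (Pi.single k 1) i * z j * z k) :=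
    Sm.sum fun j _ => Sm.sum fun k _ => ((sm_const _).mul (sm_coord j)).mul (sm_coord k)
  rw [dd3_eq hs w w w hy]
  refine Finset.sum_eq_zero fun a _ => Finset.sum_eq_zero fun b _ =>
    Finset.sum_eq_zero fun c _ => ?_
  rw [pd3_quad (fun j k => B (Pi.single j 1) (Pi.single k 1) i) a b c hy, mul_zero]

section

variable {U : Set (Fin n → ℝ)} {F : (Fin n → ℝ) → (Fin n → ℝ) → ℝ}
  {G : (Fin n → ℝ) → (Fin n → ℝ) → (Fin n → ℝ)}

/-- the equation for the spray, for a vector `z` -/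
theorem spray_vec (hF : IsFinsler U F) (hG : IsSpray U F G) {x y : Fin n → ℝ} (hx : x ∈ U)
    (hy : y ≠ 0) (z : Fin n → ℝ) : dd z (dd (G x y) (q F x)) y =
      1 / 2 * (dd z (LF.dx y (q F) x) y - LF.dx z (q F) x y) := by
  have hU := hF.isOpen
  have hQ := (q_mn hF hx).sm
  have hX : ∀ k : Fin n, Sm (LF.dx (Pi.single k 1) (q F) x) := fun k =>
    ((q_JS hF).dx hU _).sm hx
  have e1 : dd z (dd (G x y) (q F x)) y = ∑ l, z l * (1 / 2 * R F l x y) := by
    rw [dd_dd_eq hQ _ _ hy]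
    simp only [dd_eq, Finset.mul_sum]
    rw [Finset.sum_comm]
    refine Finset.sum_congr rfl fun l _ => ?_
    rw [← spray_eq hF hG hx hy l, Finset.mul_sum]
    exact Finset.sum_congr rfl fun i _ => by ring
  have e2 : dd z (LF.dx y (q F) x) y =
      ∑ k, y k * dd z (LF.dx (Pi.single k 1) (q F) x) y := by
    have e3 : ∀ u, u ≠ 0 → LF.dx y (q F) x u = ∑ k, y k * LF.dx (Pi.single k 1) (q F) x u :=
      fun u _ => fderiv_eq_sum (fun z => q F z u) x y
    rw [dd_congr e3 z hy, dd_sum (fun k _ => (sm_const _).mul (hX k)) z hy]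
    exact Finset.sum_congr rfl fun k _ => dd_const_mul (hX k) _ z hy
  have e4 : LF.dx z (q F) x y = ∑ l, z l * LF.dx (Pi.single l 1) (q F) x y :=
    fderiv_eq_sum (fun z => q F z y) x z
  rw [e1, e2, e4]
  unfold R
  simp only [dd_eq, Finset.mul_sum, mul_sub, Finset.sum_sub_distrib]
  congr 1
  · rw [Finset.sum_comm]
    exact Finset.sum_congr rfl fun k _ => Finset.sum_congr rfl fun l _ => by ring
  · exact Finset.sum_congr rfl fun l _ => by ring

/-- the data of a change of coordinates -/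
structure Trans (U U' O : Set (Fin n → ℝ)) (τ : (Fin n → ℝ) → (Fin n → ℝ))
    (F F' : (Fin n → ℝ) → (Fin n → ℝ) → ℝ) : Prop where
  isOpen : IsOpen O
  sub : O ⊆ U
  smooth : ContDiffOn ℝ ∞ τ O
  maps : ∀ x ∈ O, τ x ∈ U'
  inj : ∀ x ∈ O, ∀ v, fderiv ℝ τ x v = 0 → v = 0
  eq : ∀ x ∈ O, ∀ y, y ≠ 0 → F x y = F' (τ x) (fderiv ℝ τ x y)

variable {U' O : Set (Fin n → ℝ)} {τ : (Fin n → ℝ) → (Fin n → ℝ)}
  {F' : (Fin n → ℝ) → (Fin n → ℝ) → ℝ} {G' : (Fin n → ℝ) → (Fin n → ℝ) → (Fin n → ℝ)}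
  (hT : Trans U U' O τ F F') (hF : IsFinsler U F) (hF' : IsFinsler U' F')

include hT hF'

theorem Trans.dxq {x : Fin n → ℝ} (hx : x ∈ O) {y : Fin n → ℝ} (hy : y ≠ 0) (v : Fin n → ℝ) :
    LF.dx v (q F) x y = LF.dx (fderiv ℝ τ x v) (q F') (τ x) (fderiv ℝ τ x y) +
      dd (fderiv ℝ (fderiv ℝ τ) x v y) (q F' (τ x)) (fderiv ℝ τ x y) := by
  have hτ : ContDiffAt ℝ ∞ τ x := hT.smooth.contDiffAt (hT.isOpen.mem_nhds hx)
  have hd : HasFDerivAt τ (fderiv ℝ τ x) x := (hτ.differentiableAt (by simp)).hasFDerivAt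
  have hd2 : HasFDerivAt (fderiv ℝ τ) (fderiv ℝ (fderiv ℝ τ) x) x :=
    ((hτ.fderiv_right (m := ∞) (by simp)).differentiableAt (by simp)).hasFDerivAt
  have hy' : fderiv ℝ τ x y ≠ 0 := fun h => hy (hT.inj x hx y h)
  have h1 : HasFDerivAt (fun z => (τ z, fderiv ℝ τ z y))
      ((fderiv ℝ τ x).prod ((fderiv ℝ (fderiv ℝ τ) x).flip y)) x := by
    refine hd.prodMk ?_
    have h2 := hd2.clm_apply (hasFDerivAt_const y x)
    convert h2 using 1
    ext v
    simp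
  have hΨ : HasFDerivAt (fun p : (Fin n → ℝ) × (Fin n → ℝ) => q F' p.1 p.2)
      (fderiv ℝ (fun p : (Fin n → ℝ) × (Fin n → ℝ) => q F' p.1 p.2) (τ x, fderiv ℝ τ x y))
      ((fun z => (τ z, fderiv ℝ τ z y)) x) :=
    ((q_JS hF' (τ x) (hT.maps x hx) _ hy').differentiableAt (by simp)).hasFDerivAt
  have h3 := hΨ.comp x h1
  have e : (fun z => q F z y) =ᶠ[𝓝 x] (fun p : (Fin n → ℝ) × (Fin n → ℝ) => q F' p.1 p.2) ∘
      (fun z => (τ z, fderiv ℝ τ z y)) := by
    filter_upwards [hT.isOpen.mem_nhds hx] with z hz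
    simp only [Function.comp, q]
    rw [hT.eq z hz y hy]
  unfold LF.dx
  rw [e.fderiv_eq, h3.fderiv]
  simp only [ContinuousLinearMap.comp_apply, ContinuousLinearMap.prod_apply,
    ContinuousLinearMap.flip_apply]
  exact fderiv_split (q_JS hF') (hT.maps x hx) hy' _ _

omit hF' in
theorem Trans.q_eq {x : Fin n → ℝ} (hx : x ∈ O) {y : Fin n → ℝ} (hy : y ≠ 0) :
    q F x y = q F' (τ x) (fderiv ℝ τ x y) := by
  unfold q
  rw [hT.eq x hx y hy]

theorem Trans.al_eq {x : Fin n → ℝ} (hx : x ∈ O) {y : Fin n → ℝ} (hy : y ≠ 0) (w : Fin n → ℝ) :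
    al F w x y = al F' (fderiv ℝ τ x w) (τ x) (fderiv ℝ τ x y) := by
  unfold al
  rw [dd_congr (fun z hz => dd_congr (fun z hz => hT.q_eq hx hz) w hz) w hy]
  exact dd_comp2 (hT.inj x hx) (q_mn hF' (hT.maps x hx)).sm w hy

theorem Trans.ul_eq {x : Fin n → ℝ} (hx : x ∈ O) {y : Fin n → ℝ} (hy : y ≠ 0) (w : Fin n → ℝ) :
    ul F w x y = ul F' (fderiv ℝ τ x w) (τ x) (fderiv ℝ τ x y) := by
  unfold ul
  rw [dd_congr (fun z hz => dd_congr (fun z hz => dd_congr (fun z hz => dd_congr (fun z hz =>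
    hT.q_eq hx hz) w hz) w hz) w hz) w hy]
  exact dd_comp4 (hT.inj x hx) (q_mn hF' (hT.maps x hx)).sm w hy

include hF

/-- the transformation of the spray -/
theorem Trans.spray (hG : IsSpray U F G) (hG' : IsSpray U' F' G') {x : Fin n → ℝ}
    (hx : x ∈ O) {y : Fin n → ℝ} (hy : y ≠ 0) :
    (2:ℝ) • G' (τ x) (fderiv ℝ τ x y) = (2:ℝ) • fderiv ℝ τ x (G x y) -
      fderiv ℝ (fderiv ℝ τ) x y y := by
  have hτ : ContDiffAt ℝ ∞ τ x := hT.smooth.contDiffAt (hT.isOpen.mem_nhds hx)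
  have hx' := hT.maps x hx
  have hL := hT.inj x hx
  set L := fderiv ℝ τ x with hLdef
  set H := fderiv ℝ (fderiv ℝ τ) x with hHdef
  have hsym : ∀ a b, H a b = H b a := by
    have hs : IsSymmSndFDerivAt ℝ τ x := hτ.isSymmSndFDerivAt (by
      simp only [minSmoothness_of_isRCLikeNormedField]
      exact WithTop.coe_le_coe.2 (by exact le_top))
    intro a b
    exact hs a b
  have hy' : L y ≠ 0 := fun h => hy (hL y h)
  have hQ' := q_mn hF' hx'
  have hQs := hQ'.sm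
  -- the key equation
  have key : ∀ z, dd (L z) (dd (L (G x y)) (q F' (τ x))) (L y) =
      dd (L z) (dd (G' (τ x) (L y)) (q F' (τ x))) (L y) +
      1 / 2 * dd (L z) (dd (H y y) (q F' (τ x))) (L y) := by
    intro z
    have h1 := spray_vec hF hG (hT.sub hx) hy z
    have h2 := spray_vec hF' hG' hx' hy' (L z)
    have h3 : dd z (dd (G x y) (q F x)) y =
        dd (L z) (dd (L (G x y)) (q F' (τ x))) (L y) := by
      have e1 : ∀ u, u ≠ 0 → dd (G x y) (q F x) u = dd (L (G x y)) (q F' (τ x)) (L u) := by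
        intro u hu
        rw [dd_congr (fun z hz => hT.q_eq hx hz) _ hu]
        exact dd_comp1 hL hQs _ hu
      rw [dd_congr e1 z hy]
      exact dd_comp1 hL (Sm.dd hQs _) z hy
    have h4 : dd z (LF.dx y (q F) x) y =
        dd (L z) (LF.dx (L y) (q F') (τ x)) (L y) + (dd (H y z) (q F' (τ x)) (L y) +
          dd (L z) (dd (H y y) (q F' (τ x))) (L y)) := by
      have e1 : ∀ u, u ≠ 0 → LF.dx y (q F) x u = LF.dx (L y) (q F') (τ x) (L u) +
          dd (H y u) (q F' (τ x)) (L u) := fun u hu => hT.dxq hF' hx hu y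
      have d1 : HasFDerivAt (fun u => LF.dx (L y) (q F') (τ x) (L u))
          ((fderiv ℝ (LF.dx (L y) (q F') (τ x)) (L y)).comp L) y :=
        ((((q_JS hF').dx hF'.isOpen _).sm hx').diff hy').hasFDerivAt.comp y L.hasFDerivAt
      have d2 : HasFDerivAt (fun u => fderiv ℝ (q F' (τ x)) (L u))
          ((fderiv ℝ (fderiv ℝ (q F' (τ x))) (L y)).comp L) y := by
        have h5 : HasFDerivAt (fderiv ℝ (q F' (τ x))) (fderiv ℝ (fderiv ℝ (q F' (τ x))) (L y))
            (L y) := (((hQs _ hy').fderiv_right (m := ∞) (by simp)).differentiableAt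
              (by simp)).hasFDerivAt
        exact h5.comp y L.hasFDerivAt
      have d3 : HasFDerivAt (fun u => dd (H y u) (q F' (τ x)) (L u)) _ y :=
        d2.clm_apply (H y).hasFDerivAt
      have h6 : dd z (fun u => LF.dx (L y) (q F') (τ x) (L u) +
          dd (H y u) (q F' (τ x)) (L u)) y = fderiv ℝ (LF.dx (L y) (q F') (τ x)) (L y) (L z) +
          (fderiv ℝ (q F' (τ x)) (L y) (H y z) +
            fderiv ℝ (fderiv ℝ (q F' (τ x))) (L y) (L z) (H y y)) := by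
        have h7 := d1.add d3
        have h8 : dd z (fun u => LF.dx (L y) (q F') (τ x) (L u) +
          dd (H y u) (q F' (τ x)) (L u)) y = _ := congrArg (fun T => T z) h7.fderiv
        rw [h8]
        simp
      rw [dd_congr e1 z hy, h6]
      have h9 : fderiv ℝ (fderiv ℝ (q F' (τ x))) (L y) (L z) (H y y) =
          dd (L z) (dd (H y y) (q F' (τ x))) (L y) := by
        unfold dd
        rw [fderiv_clm_apply (((hQs _ hy').fderiv_right (m := ∞) (by simp)).differentiableAt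
              (by simp)) (differentiableAt_const _)]
        simp
      rw [h9]
      rfl
    have h5 : LF.dx z (q F) x y = LF.dx (L z) (q F') (τ x) (L y) +
        dd (H z y) (q F' (τ x)) (L y) := hT.dxq hF' hx hy z
    rw [h3, h4, h5, hsym z y] at h1
    rw [h1, h2]
    ring
  -- non-degeneracy
  set V : Fin n → ℝ := (2:ℝ) • L (G x y) - (2:ℝ) • G' (τ x) (L y) - H y y with hV
  have hsurj : Function.Surjective L := by
    have hinj : Function.Injective (L : (Fin n → ℝ) →ₗ[ℝ] (Fin n → ℝ)) := by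
      rw [← LinearMap.ker_eq_bot, LinearMap.ker_eq_bot']
      exact fun v hv => hL v hv
    exact LinearMap.injective_iff_surjective.1 hinj
  have hzero : V = 0 := by
    by_contra hne
    obtain ⟨z, hz⟩ := hsurj V
    have h1 := key z
    have lin : ∀ (u : Fin n → ℝ), dd u (dd V (q F' (τ x))) (L y) =
        2 * dd u (dd (L (G x y)) (q F' (τ x))) (L y) -
        2 * dd u (dd (G' (τ x) (L y)) (q F' (τ x))) (L y) -
        dd u (dd (H y y) (q F' (τ x))) (L y) := by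
      intro u
      rw [dd_dd_eq hQs u V hy', dd_dd_eq hQs u (L (G x y)) hy',
        dd_dd_eq hQs u (G' (τ x) (L y)) hy', dd_dd_eq hQs u (H y y) hy', Finset.mul_sum,
        Finset.mul_sum, ← Finset.sum_sub_distrib, ← Finset.sum_sub_distrib]
      refine Finset.sum_congr rfl fun k _ => ?_
      simp only [hV, Pi.sub_apply, Pi.smul_apply, smul_eq_mul]
      ring
    have h2 := lin (L z)
    have h3 : dd (L z) (dd V (q F' (τ x))) (L y) = 0 := by
      rw [h2, h1]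
      ring
    rw [hz] at h3
    have h4 := al_pos hF' hx' hy' hne
    unfold al at h4
    linarith
  rw [hV] at hzero
  have h5 : (2:ℝ) • G' (τ x) (L y) = (2:ℝ) • L (G x y) - H y y -
      ((2:ℝ) • L (G x y) - (2:ℝ) • G' (τ x) (L y) - H y y) := by abel
  rw [h5, hzero, sub_zero]

/-- the lowered Berwald curvature is invariant -/
theorem Trans.bl_eq (hG : IsSpray U F G) (hG' : IsSpray U' F' G') {x : Fin n → ℝ}
    (hx : x ∈ O) {y : Fin n → ℝ} (hy : y ≠ 0) (w : Fin n → ℝ) :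
    bl F G w x y = bl F' G' (fderiv ℝ τ x w) (τ x) (fderiv ℝ τ x y) := by
  have hx' := hT.maps x hx
  have hL := hT.inj x hx
  have hQ' := q_mn hF' hx'
  have hGs : ∀ i, Sm (fun z => G x z i) := fun i => (G_JS hF hG i).sm (hT.sub hx)
  have hGs' : ∀ i, Sm (fun z => G' (τ x) z i) := fun i => (G_JS hF' hG' i).sm hx'
  have hy' : fderiv ℝ τ x y ≠ 0 := fun h => hy (hL y h)
  -- the third derivatives of the spray
  have h1 : ∀ i, dd (fderiv ℝ τ x w) (dd (fderiv ℝ τ x w) (dd (fderiv ℝ τ x w)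
      (fun z => G' (τ x) z i))) (fderiv ℝ τ x y) =
      ∑ j, fderiv ℝ τ x (Pi.single j 1) i * dd w (dd w (dd w (fun z => G x z j))) y := by
    intro i
    rw [← dd_comp3 hL (hGs' i) w hy]
    have e1 : ∀ z, z ≠ 0 → G' (τ x) (fderiv ℝ τ x z) i =
        (∑ j, fderiv ℝ τ x (Pi.single j 1) i * G x z j) +
          (-(1 / 2 : ℝ)) * fderiv ℝ (fderiv ℝ τ) x z z i := by
      intro z hz
      have h2 := congrFun (hT.spray hF hF' hG hG' hx hz) i
      simp only [Pi.smul_apply, Pi.sub_apply, smul_eq_mul] at h2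
      have h3 : fderiv ℝ τ x (G x z) i = ∑ j, fderiv ℝ τ x (Pi.single j 1) i * G x z j := by
        have hz : G x z = ∑ j, G x z j • (Pi.single j (1:ℝ) : Fin n → ℝ) := by
          ext a
          simp [Finset.sum_apply, Pi.single_apply]
        conv_lhs => rw [hz]
        simp only [map_sum, map_smul, Finset.sum_apply, Pi.smul_apply, smul_eq_mul]
        exact Finset.sum_congr rfl fun j _ => by ring
      rw [h3] at h2
      linarith
    have s1 : ∀ j ∈ (Finset.univ : Finset (Fin n)),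
        Sm (fun z => fderiv ℝ τ x (Pi.single j 1) i * G x z j) := fun j _ =>
      (sm_const _).mul (hGs j)
    have hB : Sm (fun z => fderiv ℝ (fderiv ℝ τ) x z z i) := by
      intro z _
      have h4 : ContDiff ℝ ∞ (fun z => fderiv ℝ (fderiv ℝ τ) x z z) :=
        (fderiv ℝ (fderiv ℝ τ) x).contDiff.clm_apply contDiff_id
      exact ((contDiff_apply ℝ ℝ i).comp h4).contDiffAt
    have d1 : ∀ (f g : (Fin n → ℝ) → ℝ), Sm f → Sm g → dd w (dd w (dd w
        (fun z => f z + -(1 / 2 : ℝ) * g z))) y = dd w (dd w (dd w f)) y +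
        -(1 / 2 : ℝ) * dd w (dd w (dd w g)) y := by
      intro f g hf hg
      have a1 : ∀ (f g : (Fin n → ℝ) → ℝ), Sm f → Sm g → ∀ z, z ≠ 0 →
          dd w (fun z => f z + -(1 / 2 : ℝ) * g z) z = dd w f z + -(1 / 2 : ℝ) * dd w g z := by
        intro f g hf hg z hz
        rw [dd_add hf ((sm_const _).mul hg) w hz, dd_const_mul hg _ w hz]
      rw [dd_congr (fun z hz => dd_congr (fun z hz => a1 f g hf hg z hz) w hz) w hy,
        dd_congr (fun z hz => a1 _ _ (Sm.dd hf w) (Sm.dd hg w) z hz) w hy,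
        a1 _ _ (Sm.dd (Sm.dd hf w) w) (Sm.dd (Sm.dd hg w) w) y hy]
    rw [dd_congr (fun z hz => dd_congr (fun z hz => dd_congr e1 w hz) w hz) w hy,
      d1 _ _ (Sm.sum s1) hB, dd3_quadmap _ i w hy, mul_zero, add_zero]
    have d2 : ∀ (c : Fin n → ℝ) (f : Fin n → (Fin n → ℝ) → ℝ), (∀ j, Sm (f j)) → ∀ z, z ≠ 0 →
        dd w (fun z => ∑ j, c j * f j z) z = ∑ j, c j * dd w (f j) z := by
      intro c f hf z hz
      rw [dd_sum (fun j _ => (sm_const _).mul (hf j)) w hz]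
      exact Finset.sum_congr rfl fun j _ => dd_const_mul (hf j) _ w hz
    rw [dd_congr (fun z hz => dd_congr (fun z hz => d2 _ _ hGs z hz) w hz) w hy,
      dd_congr (fun z hz => d2 _ _ (fun j => Sm.dd (hGs j) w) z hz) w hy,
      d2 _ _ (fun j => Sm.dd (Sm.dd (hGs j) w) w) y hy]
  -- the second derivatives of the metric
  have h2 : ∀ j, dd w (pd j (q F x)) y = ∑ i, fderiv ℝ τ x (Pi.single j 1) i *
      dd (fderiv ℝ τ x w) (pd i (q F' (τ x))) (fderiv ℝ τ x y) := by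
    intro j
    have e1 : ∀ z, z ≠ 0 → pd j (q F x) z =
        dd (fderiv ℝ τ x (Pi.single j 1)) (q F' (τ x)) (fderiv ℝ τ x z) := by
      intro z hz
      rw [pd_congr (fun z hz => hT.q_eq hx hz) j hz]
      exact dd_comp1 hL hQ'.sm _ hz
    rw [dd_congr e1 w hy, dd_comp1 hL (Sm.dd hQ'.sm _) w hy, dd_dd_eq hQ'.sm _ _ hy']
  unfold bl
  simp only [h1, h2, Finset.mul_sum, Finset.sum_mul]
  rw [Finset.sum_comm]
  exact Finset.sum_congr rfl fun i _ => Finset.sum_congr rfl fun j _ => by ring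

/-- `Phi` is invariant -/
theorem Trans.Phi_eq (hG : IsSpray U F G) (hG' : IsSpray U' F' G') {x : Fin n → ℝ}
    (hx : x ∈ O) {y : Fin n → ℝ} (hy : y ≠ 0) (w : Fin n → ℝ) :
    Phi F G x y w = Phi F' G' (τ x) (fderiv ℝ τ x y) (fderiv ℝ τ x w) := by
  unfold Phi
  rw [hT.eq x hx y hy, hT.al_eq hF' hx hy w, hT.ul_eq hF' hx hy w,
    hT.bl_eq hF hF' hG hG' hx hy w]

end

/-- `Phi` does not change when the vectors are scaled -/
theorem Phi_scale {U : Set (Fin n → ℝ)} {F : (Fin n → ℝ) → (Fin n → ℝ) → ℝ}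
    {G : (Fin n → ℝ) → (Fin n → ℝ) → (Fin n → ℝ)} (hF : IsFinsler U F) (hG : IsSpray U F G)
    {x y w : Fin n → ℝ} (hx : x ∈ U) (hy : y ≠ 0) {s t : ℝ} (hs : 0 < s)
    (ht : 0 < t) : Phi F G x (s • y) (t • w) = Phi F G x y w := by
  have hQ := q_mn hF hx
  have hGs : ∀ i, Sm (fun z => G x z i) := fun i => (G_JS hF hG i).sm hx
  -- scaling in `w`
  have sc : ∀ (f : (Fin n → ℝ) → ℝ) (z : Fin n → ℝ), dd (t • w) f z = t * dd w f z := by
    intro f z
    unfold dd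
    rw [map_smul, smul_eq_mul]
  have sc2 : ∀ {f : (Fin n → ℝ) → ℝ}, Sm f → ∀ z, z ≠ 0 →
      dd (t • w) (dd (t • w) f) z = t ^ 2 * dd w (dd w f) z := by
    intro f hf z hz
    rw [sc, dd_congr (fun z _ => sc f z) w hz, dd_const_mul (Sm.dd hf w) t w hz]
    ring
  have sc3 : ∀ {f : (Fin n → ℝ) → ℝ}, Sm f → ∀ z, z ≠ 0 →
      dd (t • w) (dd (t • w) (dd (t • w) f)) z = t ^ 3 * dd w (dd w (dd w f)) z := by
    intro f hf z hz
    rw [sc, dd_congr (fun z hz => sc2 hf z hz) w hz, dd_const_mul (Sm.dd (Sm.dd hf w) w) _ w hz]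
    ring
  have sc4 : ∀ {f : (Fin n → ℝ) → ℝ}, Sm f → ∀ z, z ≠ 0 →
      dd (t • w) (dd (t • w) (dd (t • w) (dd (t • w) f))) z =
        t ^ 4 * dd w (dd w (dd w (dd w f))) z := by
    intro f hf z hz
    rw [sc, dd_congr (fun z hz => sc3 hf z hz) w hz,
      dd_const_mul (Sm.dd (Sm.dd (Sm.dd hf w) w) w) _ w hz]
    ring
  have hsy : s • y ≠ 0 := smul_ne_zero hs.ne' hy
  -- scaling in `y`
  have h1 : al F (t • w) x (s • y) = t ^ 2 * al F w x y := by
    unfold al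
    rw [sc2 hQ.sm _ hsy]
    have hh : Hom (2 - 1 - 1) (dd w (dd w (q F x))) :=
      Hom.dd' (Hom.dd' hQ.hom2 hQ.sm w) (Sm.dd hQ.sm w) w
    rw [hh y hy s hs]
    norm_num
  have h2 : ul F (t • w) x (s • y) = t ^ 4 * (s ^ (-2 : ℤ) * ul F w x y) := by
    unfold ul
    rw [sc4 hQ.sm _ hsy]
    have hh : Hom (2 - 1 - 1 - 1 - 1) (dd w (dd w (dd w (dd w (q F x))))) :=
      Hom.dd' (Hom.dd' (Hom.dd' (Hom.dd' hQ.hom2 hQ.sm w) (Sm.dd hQ.sm w) w)
        (Sm.dd (Sm.dd hQ.sm w) w) w) (Sm.dd (Sm.dd (Sm.dd hQ.sm w) w) w) w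
    rw [hh y hy s hs]
    norm_num
  have h3 : bl F G (t • w) x (s • y) = t ^ 4 * (s ^ (-1 : ℤ) * bl F G w x y) := by
    unfold bl
    rw [Finset.mul_sum, Finset.mul_sum]
    refine Finset.sum_congr rfl fun j _ => ?_
    rw [sc3 (hGs j) _ hsy, sc]
    have hh : Hom (2 - 1 - 1 - 1) (dd w (dd w (dd w (fun z => G x z j)))) :=
      Hom.dd' (Hom.dd' (Hom.dd' (G_hom hF hG hx j) (hGs j) w) (Sm.dd (hGs j) w) w)
        (Sm.dd (Sm.dd (hGs j) w) w) w
    have hh2 : Hom (2 - 1 - 1) (dd w (pd j (q F x))) :=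
      Hom.dd' (hQ.hom2.pd hQ.sm j) (hQ.sm.pd j) w
    rw [hh y hy s hs, hh2 y hy s hs]
    norm_num
    ring
  unfold Phi
  rw [h1, h2, h3, hF.hom x hx y s hs]
  have hs0 := hs.ne'
  have ht0 := ht.ne'
  have e : (s * F x y) ^ 3 * (t ^ 4 * (s ^ (-2 : ℤ) * ul F w x y)) *
      (t ^ 4 * (s ^ (-1 : ℤ) * bl F G w x y)) = t ^ 8 * (F x y ^ 3 * ul F w x y *
        bl F G w x y) := by
    rw [zpow_neg, zpow_neg]
    field_simp
  rw [e]
  have e2 : (t ^ 2 * al F w x y) ^ 4 = t ^ 8 * al F w x y ^ 4 := by ring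
  rw [e2]
  exact mul_div_mul_left _ _ (pow_ne_zero 8 ht0)

end Pool.Agent.H792.KF
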