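import Pool.Agent.H792.KF.Lin

/-!
# The Cauchy-Riemann argument
-/

set_option autoImplicit false

open scoped BigOperators ContDiff Topology Matrix
open Filter Set

namespace Pool.Agent.H792.KF

open Pool.Agent.R774.BW Pool.Agent.H792.Gen Pool.Agent.H792.LF

variable {n : ℕ}

/-- a `(-1)`-homogeneous function tends to zero at infinity -/
theorem tendsto_hom {f : (Fin n → ℝ) → ℝ} (hf : Sm f) (hh : Hom (-1) f) :
    Tendsto f (cocompact (Fin n → ℝ)) (𝓝 0) := by
  have hcpt := isCompact_sphere (0 : Fin n → ℝ) 1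
  have hc : ContinuousOn f (Metric.sphere 0 1) := by
    intro y hy
    have hy0 : y ≠ 0 := by
      rintro rfl
      simp at hy
    exact (hf y hy0).continuousAt.continuousWithinAt
  obtain ⟨C, hC⟩ := hcpt.exists_bound_of_continuousOn hc
  have h1 : Tendsto (fun p : Fin n → ℝ => ‖p‖) (cocompact _) atTop := tendsto_norm_cocompact_atTop
  have h2 : Tendsto (fun p : Fin n → ℝ => ‖p‖⁻¹ * C) (cocompact _) (𝓝 (0 * C)) :=
    (tendsto_inv_atTop_zero.comp h1).mul_const C
  rw [zero_mul] at h2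
  refine squeeze_zero_norm' ?_ h2
  filter_upwards [h1.eventually_gt_atTop 0] with p hp
  have hp0 : p ≠ 0 := norm_pos_iff.1 hp
  have h3 : f p = ‖p‖⁻¹ * f (‖p‖⁻¹ • p) := by
    have := hh p hp0 ‖p‖⁻¹ (inv_pos.2 hp)
    rw [this]
    simp only [zpow_neg, zpow_one, inv_inv]
    field_simp
  rw [h3, norm_mul, norm_inv, norm_norm]
  refine mul_le_mul_of_nonneg_left (hC _ ?_) (inv_nonneg.2 hp.le)
  rw [mem_sphere_zero_iff_norm, norm_smul, norm_inv, norm_norm, inv_mul_cancel₀ hp.ne']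

theorem hom_dd {f : (Fin n → ℝ) → ℝ} (hf : Sm f) {m : ℤ} (hh : Hom m f) (a : Fin n → ℝ) :
    Hom (m - 1) (dd a f) := by
  intro y hy t ht
  rw [dd_eq, dd_eq, Finset.mul_sum]
  refine Finset.sum_congr rfl fun b _ => ?_
  rw [hh.pd hf b y hy t ht]
  ring

/-- functions satisfying the Cauchy-Riemann equations on a plane which avoids the origin -/
theorem cr_plane {f h : (Fin n → ℝ) → ℝ} (hf : Sm f) (hh : Sm h) (hf1 : Hom (-1) f)
    (hh1 : Hom (-1) h) {a b : Fin n → ℝ} (hab : ∀ s t : ℝ, s • a + t • b = 0 → s = 0 ∧ t = 0)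
    (h1 : ∀ y, y ≠ 0 → dd a f y + dd b h y = 0) (h2 : ∀ y, y ≠ 0 → dd b f y = dd a h y)
    {y : Fin n → ℝ} (hy : ∀ s t : ℝ, y + (s • a + t • b) ≠ 0) : f y = 0 ∧ h y = 0 := by
  set L : ℂ →ₗ[ℝ] (Fin n → ℝ) :=
    { toFun := fun z => z.re • a + z.im • b
      map_add' := by intro z w; simp only [Complex.add_re, Complex.add_im]; module
      map_smul' := by
        intro c z
        simp only [Complex.real_smul, Complex.mul_re, Complex.ofReal_re, Complex.ofReal_im,
          zero_mul, sub_zero, Complex.mul_im, add_zero, RingHom.id_apply]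
        module } with hL
  have hLz : ∀ z : ℂ, L z = z.re • a + z.im • b := fun z => rfl
  have hLinj : LinearMap.ker L = ⊥ := by
    rw [LinearMap.ker_eq_bot']
    intro z hz
    obtain ⟨h3, h4⟩ := hab _ _ hz
    exact Complex.ext h3 h4
  have hemb := L.isClosedEmbedding_of_injective hLinj
  set γ : ℂ → (Fin n → ℝ) := fun z => y + L z with hγ
  have hγt : Tendsto γ (cocompact ℂ) (cocompact (Fin n → ℝ)) := by
    have e : γ = (Homeomorph.addLeft y) ∘ L := rfl
    rw [e]
    exact ((Homeomorph.addLeft y).isClosedEmbedding.tendsto_cocompact).comp hemb.tendsto_cocompact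
  have hγ0 : ∀ z, γ z ≠ 0 := fun z => hy z.re z.im
  set Lc : ℂ →L[ℝ] (Fin n → ℝ) := LinearMap.toContinuousLinearMap L with hLc
  have hγd : ∀ z, HasFDerivAt γ Lc z := fun z => Lc.hasFDerivAt.const_add y
  set Φ : ℂ → ℂ := fun z => (f (γ z) : ℂ) - Complex.I * (h (γ z) : ℂ) with hΦ
  have hder : ∀ z, HasFDerivAt Φ ((ContinuousLinearMap.toSpanSingleton ℂ
      ((dd a f (γ z) : ℂ) - Complex.I * (dd a h (γ z) : ℂ))) : ℂ →L[ℂ] ℂ) z := by
    intro z
    have k1 : HasFDerivAt (fun z => f (γ z)) ((fderiv ℝ f (γ z)).comp Lc) z :=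
      ((hf.diff (hγ0 z)).hasFDerivAt).comp z (hγd z)
    have k2 : HasFDerivAt (fun z => h (γ z)) ((fderiv ℝ h (γ z)).comp Lc) z :=
      ((hh.diff (hγ0 z)).hasFDerivAt).comp z (hγd z)
    have k3 : HasFDerivAt (fun z => ((f (γ z) : ℝ) : ℂ))
        (Complex.ofRealCLM.comp ((fderiv ℝ f (γ z)).comp Lc)) z :=
      (Complex.ofRealCLM.hasFDerivAt).comp z k1
    have k4 : HasFDerivAt (fun z => ((h (γ z) : ℝ) : ℂ))
        (Complex.ofRealCLM.comp ((fderiv ℝ h (γ z)).comp Lc)) z :=
      (Complex.ofRealCLM.hasFDerivAt).comp z k2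
    have k5 := k3.sub (k4.const_mul Complex.I)
    refine hasFDerivAt_of_restrictScalars ℝ k5 ?_
    ext w
    have e1 : ∀ φ : (Fin n → ℝ) → ℝ, fderiv ℝ φ (γ z) (L w) =
        w.re * dd a φ (γ z) + w.im * dd b φ (γ z) := by
      intro φ
      rw [hLz, map_add, map_smul, map_smul]
      rfl
    have e2 := h1 _ (hγ0 z)
    have e3 := h2 _ (hγ0 z)
    have e4 : dd b h (γ z) = - dd a f (γ z) := by linarith
    simp only [hLc, ContinuousLinearMap.coe_restrictScalars', FunLike.coe_sub,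
      Pi.sub_apply, FunLike.coe_smul, Pi.smul_apply, ContinuousLinearMap.coe_comp,
      Function.comp_apply, LinearMap.coe_toContinuousLinearMap', e1, e3, e4,
      ContinuousLinearMap.toSpanSingleton_apply, smul_eq_mul, Complex.ofRealCLM_apply]
    apply Complex.ext
    · simp
    · simp; ring
  have hΦd : Differentiable ℂ Φ := fun z => (hder z).differentiableAt
  have hΦt : Tendsto Φ (cocompact ℂ) (𝓝 0) := by
    have t1 := (tendsto_hom hf hf1).comp hγt
    have t2 := (tendsto_hom hh hh1).comp hγt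
    have t3 : Tendsto (fun z => ((f (γ z) : ℝ) : ℂ)) (cocompact ℂ) (𝓝 ((0:ℝ):ℂ)) :=
      (Complex.continuous_ofReal.tendsto 0).comp t1
    have t4 : Tendsto (fun z => ((h (γ z) : ℝ) : ℂ)) (cocompact ℂ) (𝓝 ((0:ℝ):ℂ)) :=
      (Complex.continuous_ofReal.tendsto 0).comp t2
    have t5 := t3.sub (t4.const_mul Complex.I)
    simpa using t5
  have hzero := hΦd.apply_eq_of_tendsto_cocompact 0 hΦt
  have hγ00 : γ 0 = y := by simp [hγ]
  simp only [hΦ, hγ00] at hzero
  have r1 := congrArg Complex.re hzero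
  have r2 := congrArg Complex.im hzero
  simp at r1 r2
  exact ⟨r1, r2⟩

/-- a vector outside a plane -/
theorem exists_q (hn : 3 ≤ n) (a b : Fin n → ℝ) : ∃ q : Fin n → ℝ, ∀ s t e : ℝ,
    s • a + t • b + e • q = 0 → e = 0 := by
  by_contra hcon
  push Not at hcon
  -- every vector is in the span of `a, b`
  have hspan : ∀ q : Fin n → ℝ, q ∈ Submodule.span ℝ {a, b} := by
    intro q
    obtain ⟨s, t, e, h1, he⟩ := hcon q
    have : q = (-(e⁻¹ * s)) • a + (-(e⁻¹ * t)) • b := by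
      have h2 : e • q = -(s • a + t • b) := by
        rw [eq_neg_iff_add_eq_zero, ← h1]; abel
      have h3 := congrArg (fun v => e⁻¹ • v) h2
      simp only [smul_smul, inv_mul_cancel₀ he, one_smul] at h3
      rw [h3]
      module
    rw [this]
    exact Submodule.add_mem _ (Submodule.smul_mem _ _ (Submodule.subset_span (by simp)))
      (Submodule.smul_mem _ _ (Submodule.subset_span (by simp)))
  have htop : Submodule.span ℝ ({a, b} : Set (Fin n → ℝ)) = ⊤ := by
    rw [eq_top_iff]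
    exact fun q _ => hspan q
  have h1 : Module.finrank ℝ (Submodule.span ℝ ({a, b} : Set (Fin n → ℝ))) ≤ 2 := by
    have h2 := finrank_span_finset_le_card (R := ℝ) ({a, b} : Finset (Fin n → ℝ))
    have h3 : ({a, b} : Finset (Fin n → ℝ)).card ≤ 2 := Finset.card_le_two
    have h4 : ((({a, b} : Finset (Fin n → ℝ)) : Set (Fin n → ℝ))) = {a, b} := by simp
    rw [h4] at h2
    unfold Set.finrank at h2
    omega
  rw [htop, finrank_top] at h1
  simp at h1
  omega

theorem cr_all (hn : 3 ≤ n) {f h : (Fin n → ℝ) → ℝ} (hf : Sm f) (hh : Sm h) (hf1 : Hom (-1) f)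
    (hh1 : Hom (-1) h) {a b : Fin n → ℝ} (hab : ∀ s t : ℝ, s • a + t • b = 0 → s = 0 ∧ t = 0)
    (h1 : ∀ y, y ≠ 0 → dd a f y + dd b h y = 0) (h2 : ∀ y, y ≠ 0 → dd b f y = dd a h y)
    {y : Fin n → ℝ} (hy : y ≠ 0) : f y = 0 := by
  by_cases hpl : ∀ s t : ℝ, y + (s • a + t • b) ≠ 0
  · exact (cr_plane hf hh hf1 hh1 hab h1 h2 hpl).1
  · push Not at hpl
    obtain ⟨s0, t0, h0⟩ := hpl
    have hy' : y = (-s0) • a + (-t0) • b := by
      have := eq_neg_of_add_eq_zero_left h0
      rw [this]; module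
    obtain ⟨q, hq⟩ := exists_q hn a b
    have h5 : ∀ e : ℝ, e ≠ 0 → f (y + e • q) = 0 := by
      intro e he
      refine (cr_plane hf hh hf1 hh1 hab h1 h2 (y := y + e • q) fun s t h6 => he ?_).1
      refine hq (-s0 + s) (-t0 + t) e ?_
      rw [← h6, hy']
      module
    have h6 : Tendsto (fun e : ℝ => f (y + e • q)) (𝓝[≠] 0) (𝓝 (f y)) := by
      have h7 : Tendsto (fun e : ℝ => y + e • q) (𝓝 0) (𝓝 (y + (0:ℝ) • q)) :=
        (tendsto_id.smul_const q).const_add y
      rw [zero_smul, add_zero] at h7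
      exact ((hf y hy).continuousAt.tendsto.comp h7).mono_left nhdsWithin_le_nhds
    have h8 : Tendsto (fun e : ℝ => f (y + e • q)) (𝓝[≠] 0) (𝓝 0) := by
      refine tendsto_const_nhds.congr' ?_
      filter_upwards [self_mem_nhdsWithin] with e he using (h5 e he).symm
    exact tendsto_nhds_unique h6 h8

/-- the Berwald curvature vanishes if it is harmonic on planes -/
theorem kill_C (hn : 3 ≤ n) {g : (Fin n → ℝ) → ℝ} (hg : Sm g) (hh : Hom 2 g)
    {a b : Fin n → ℝ} (hab : ∀ s t : ℝ, s • a + t • b = 0 → s = 0 ∧ t = 0)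
    (hrel : ∀ y, y ≠ 0 → ∀ l, dd a (dd a (pd l g)) y + dd b (dd b (pd l g)) y = 0)
    {y : Fin n → ℝ} (hy : y ≠ 0) (j k l : Fin n) : pd j (pd k (pd l g)) y = 0 := by
  have ha : a ≠ 0 := by
    rintro rfl
    have := (hab 1 0 (by simp)).1
    exact one_ne_zero this
  -- commuting the derivatives
  have hcomm : ∀ (c : Fin n → ℝ) (k l : Fin n), ∀ w, w ≠ 0 → dd c (dd c (pd k (pd l g))) w =
      pd k (dd c (dd c (pd l g))) w := by
    intro c k l w hw
    have e1 : dd c (dd c (pd k (pd l g))) w = dd c (pd k (dd c (pd l g))) w :=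
      dd_congr (fun w hw => dd_comm (hg.pd l) c (Pi.single k 1) hw) c hw
    rw [e1]
    exact dd_comm (Gen.Sm.dd (hg.pd l) c) c (Pi.single k 1) hw
  have h1 : ∀ (k l : Fin n) (w : Fin n → ℝ), w ≠ 0 → dd a (pd k (pd l g)) w = 0 := by
    intro k l w hw
    have hkl : Sm (pd k (pd l g)) := (hg.pd l).pd k
    have hh0 : Hom 0 (pd k (pd l g)) := by
      have := (hh.pd hg l).pd (hg.pd l) k
      norm_num at this
      exact this
    have hha : Hom (-1) (dd a (pd k (pd l g))) := by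
      have := hom_dd hkl hh0 a
      norm_num at this
      exact this
    have hhb : Hom (-1) (dd b (pd k (pd l g))) := by
      have := hom_dd hkl hh0 b
      norm_num at this
      exact this
    refine cr_all hn (Gen.Sm.dd hkl a) (Gen.Sm.dd hkl b) hha hhb hab (fun w hw => ?_)
      (fun w hw => dd_comm hkl b a hw) hw
    rw [hcomm a k l w hw, hcomm b k l w hw]
    have e := pd_congr (g := fun _ => (0:ℝ)) (fun w hw => hrel w hw l) k hw
    rw [pd_const, pd_add (Gen.Sm.dd (Gen.Sm.dd (hg.pd l) a) a)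
      (Gen.Sm.dd (Gen.Sm.dd (hg.pd l) b) b) k hw] at e
    exact e
  have hh3 : Hom (-1) (pd j (pd k (pd l g))) := by
    have := (((hh.pd hg l).pd (hg.pd l) k).pd ((hg.pd l).pd k) j)
    norm_num at this
    exact this
  refine null_dir (by omega) (((hg.pd l).pd k).pd j) hh3 ha (fun w hw => ?_) hy
  rw [← dd_eq]
  have e1 := dd_comm ((hg.pd l).pd k) a (Pi.single j 1) hw
  rw [dd_single, dd_single] at e1
  rw [e1, pd_congr (g := fun _ => 0) (fun w hw => h1 k l w hw) j hw, pd_const]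

end Pool.Agent.H792.KF
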