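import Pool.Graph.R_seed8.R774.BW.Few

/-!
# The curvature of the nonlinear connection of a Finsler metric
-/

set_option autoImplicit false

namespace Pool.Agent.H792.KF

open Pool.Agent.R774.BW

variable {n : ℕ}

/-- the coefficients of the nonlinear connection, `N^i_k(x,y) = ∂G^i/∂y^k` -/
noncomputable def ncon (G : (Fin n → ℝ) → (Fin n → ℝ) → (Fin n → ℝ)) (k i : Fin n)
    (x y : Fin n → ℝ) : ℝ := pd k (fun z => G x z i) y

/-- the horizontal derivative of a function on the slit tangent bundle,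
`δ_k f = ∂f/∂x^k - Σ_j N^j_k ∂f/∂y^j` -/
noncomputable def hor (G : (Fin n → ℝ) → (Fin n → ℝ) → (Fin n → ℝ)) (k : Fin n)
    (f : (Fin n → ℝ) → (Fin n → ℝ) → ℝ) (x y : Fin n → ℝ) : ℝ :=
  fderiv ℝ (fun z => f z y) x (Pi.single k 1) - ∑ j, ncon G k j x y * pd j (f x) y

/-- the curvature of the nonlinear connection, `R^i_kl = δ_l N^i_k - δ_k N^i_l` -/
noncomputable def curvature (G : (Fin n → ℝ) → (Fin n → ℝ) → (Fin n → ℝ)) (x y : Fin n → ℝ)
    (i k l : Fin n) : ℝ := hor G l (ncon G k i) x y - hor G k (ncon G l i) x y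

end Pool.Agent.H792.KF
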