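import Pool.Agent.H792.KF.Two
import Pool.Agent.H792.KF.CurDefs

/-!
# The curvature of the nonlinear connection of a Landsberg metric is an infinitesimal isometry
-/

set_option autoImplicit false

open scoped BigOperators ContDiff Topology Matrix
open Filter Set

namespace Pool.Agent.H792.KF

open Pool.Agent.R774.BW Pool.Agent.H792.Gen Pool.Agent.H792.LF

variable {n : ℕ}

theorem fderiv_comm2 {f : (Fin n → ℝ) → ℝ} {x : Fin n → ℝ} (hf : ContDiffAt ℝ ∞ f x)
    (v w : Fin n → ℝ) :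
    fderiv ℝ (fun z => fderiv ℝ f z w) x v = fderiv ℝ (fun z => fderiv ℝ f z v) x w := by
  have hs : IsSymmSndFDerivAt ℝ f x := hf.isSymmSndFDerivAt (by
    simp only [minSmoothness_of_isRCLikeNormedField]
    exact WithTop.coe_le_coe.2 (by exact le_top))
  have hd : DifferentiableAt ℝ (fderiv ℝ f) x :=
    (hf.fderiv_right (m := ∞) (by simp)).differentiableAt (by simp)
  have e : ∀ a b : Fin n → ℝ, fderiv ℝ (fun z => fderiv ℝ f z b) x a =
      fderiv ℝ (fderiv ℝ f) x a b := by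
    intro a b
    rw [fderiv_clm_apply hd (differentiableAt_const _)]
    simp
  rw [e, e, hs]

section

variable {U : Set (Fin n → ℝ)} {f g : (Fin n → ℝ) → (Fin n → ℝ) → ℝ}
  {N : Fin n → (Fin n → ℝ) → (Fin n → ℝ) → ℝ} {v : Fin n → ℝ}

theorem Dh_add (hf : JS U f) (hg : JS U g) {x y : Fin n → ℝ} (hx : x ∈ U) (hy : y ≠ 0) :
    Dh N v (fun x y => f x y + g x y) x y = Dh N v f x y + Dh N v g x y := by
  have h := Dh_sub (N := N) (v := v) hf ((JS.const (0:ℝ)).sub hg) hx hy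
  have h2 := Dh_sub (N := N) (v := v) (JS.const (n := n) (U := U) (0:ℝ)) hg hx hy
  have e : (fun x y => f x y - (0 - g x y)) = fun x y => f x y + g x y := by
    funext x y; ring
  rw [e, h2, Dh_const] at h
  rw [h]; ring

/-- the commutator of two horizontal derivatives -/
theorem Dh_comm (hU : IsOpen U) (hf : JS U f) {M N : Fin n → (Fin n → ℝ) → (Fin n → ℝ) → ℝ}
    (hM : ∀ i, JS U (M i)) (hN : ∀ i, JS U (N i)) (v w : Fin n → ℝ) {x y : Fin n → ℝ}
    (hx : x ∈ U) (hy : y ≠ 0) :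
    Dh M v (Dh N w f) x y - Dh N w (Dh M v f) x y =
      ∑ i, (Dh N w (M i) x y - Dh M v (N i) x y) * pd i (f x) y := by
  have key : ∀ (M N : Fin n → (Fin n → ℝ) → (Fin n → ℝ) → ℝ) (_ : ∀ i, JS U (M i))
      (_ : ∀ i, JS U (N i)) (v w : Fin n → ℝ), Dh M v (Dh N w f) x y =
      dx v (LF.dx w f) x y - ∑ j, M j x y * pd j (LF.dx w f x) y -
      ∑ i, Dh M v (N i) x y * pd i (f x) y - ∑ i, N i x y * pd i (LF.dx v f x) y +
      ∑ i, ∑ j, N i x y * M j x y * pd j (pd i (f x)) y := by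
    intro M N hM hN v w
    have e1 : Dh N w f = fun x y => LF.dx w f x y - ∑ i, N i x y * pd i (f x) y := rfl
    rw [e1, Dh_sub (hf.dx hU w) (JS.sum fun i _ => (hN i).mul (hf.pd hU i)) hx hy,
      Dh_sum (fun i _ => (hN i).mul (hf.pd hU i)) hx hy]
    have e2 : ∀ i, Dh M v (fun x y => N i x y * pd i (f x) y) x y =
        Dh M v (N i) x y * pd i (f x) y + (N i x y * pd i (LF.dx v f x) y -
          ∑ j, N i x y * M j x y * pd j (pd i (f x)) y) := by
      intro i
      rw [Dh_mul (hN i) (hf.pd hU i) hx hy]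
      congr 1
      have h2 : LF.dx v (fun x y => pd i (f x) y) x y = pd i (LF.dx v f x) y :=
        mixed (hf x hx y hy) (Pi.single i 1) v
      have h3 : Dh M v (fun x y => pd i (f x) y) x y = pd i (LF.dx v f x) y -
          ∑ j, M j x y * pd j (pd i (f x)) y := by
        unfold Dh
        rw [h2]
      rw [h3, mul_sub, Finset.mul_sum]
      congr 1
      exact Finset.sum_congr rfl fun j _ => by ring
    simp only [e2, Finset.sum_add_distrib, Finset.sum_sub_distrib]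
    have e3 : Dh M v (LF.dx w f) x y = dx v (LF.dx w f) x y - ∑ j, M j x y * pd j (LF.dx w f x) y :=
      rfl
    rw [e3]
    ring
  rw [key M N hM hN v w, key N M hN hM w v]
  have h1 : LF.dx v (LF.dx w f) x y = LF.dx w (LF.dx v f) x y :=
    fderiv_comm2 (f := fun z => f z y) (hf.smx hx hy) v w
  have h2 : ∑ i, ∑ j, N i x y * M j x y * pd j (pd i (f x)) y =
      ∑ i, ∑ j, M i x y * N j x y * pd j (pd i (f x)) y := by
    rw [Finset.sum_comm]
    refine Finset.sum_congr rfl fun i _ => Finset.sum_congr rfl fun j _ => ?_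
    rw [pd_comm (hf.sm hx) i j hy]
    ring
  rw [h1, h2]
  simp only [sub_mul, Finset.sum_sub_distrib]
  ring

end

section hom

variable {f g : (Fin n → ℝ) → ℝ} {a b : ℤ}

theorem Hom.mul' (hf : Hom a f) (hg : Hom b g) : Hom (a + b) (fun y => f y * g y) := by
  intro y hy t ht
  simp only [hf y hy t ht, hg y hy t ht, zpow_add₀ ht.ne']
  ring

theorem Hom.add' (hf : Hom a f) (hg : Hom a g) : Hom a (fun y => f y + g y) := by
  intro y hy t ht
  simp only [hf y hy t ht, hg y hy t ht]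
  ring

theorem Hom.sub' (hf : Hom a f) (hg : Hom a g) : Hom a (fun y => f y - g y) := by
  intro y hy t ht
  simp only [hf y hy t ht, hg y hy t ht]
  ring

theorem Hom.sum' {ι : Type*} {s : Finset ι} {f : ι → (Fin n → ℝ) → ℝ}
    (hf : ∀ i ∈ s, Hom a (f i)) : Hom a (fun y => ∑ i ∈ s, f i y) := by
  intro y hy t ht
  rw [Finset.mul_sum]
  exact Finset.sum_congr rfl fun i hi => hf i hi y hy t ht

theorem hom_coord (i : Fin n) : Hom 1 (fun y : Fin n → ℝ => y i) := by
  intro y hy t ht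
  simp

theorem hom_const (c : ℝ) : Hom 0 (fun _ : Fin n → ℝ => c) := by
  intro y hy t ht
  simp

theorem Hom.dx' {U : Set (Fin n → ℝ)} (hU : IsOpen U) {f : (Fin n → ℝ) → (Fin n → ℝ) → ℝ}
    (hf : JS U f) (hh : ∀ x ∈ U, Hom a (f x)) {x : Fin n → ℝ} (hx : x ∈ U) (v : Fin n → ℝ) :
    Hom a (LF.dx v f x) := by
  intro y hy t ht
  unfold LF.dx
  have e : (fun z => f z (t • y)) =ᶠ[𝓝 x] fun z => t ^ a * f z y := by
    filter_upwards [hU.mem_nhds hx] with z hz using hh z hz y hy t ht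
  rw [e.fderiv_eq, fderiv_const_mul ((hf.smx hx hy).differentiableAt (by simp))]
  simp

theorem Hom.Dh' {U : Set (Fin n → ℝ)} (hU : IsOpen U) {f : (Fin n → ℝ) → (Fin n → ℝ) → ℝ}
    (hf : JS U f) (hh : ∀ x ∈ U, Hom a (f x)) {N : Fin n → (Fin n → ℝ) → (Fin n → ℝ) → ℝ}
    {x : Fin n → ℝ} (hx : x ∈ U) (hN : ∀ i, Hom 1 (N i x)) (v : Fin n → ℝ) :
    Hom a (Dh N v f x) := by
  refine Hom.sub' (Hom.dx' hU hf hh hx v) (Hom.sum' fun i _ => ?_)
  have h := Hom.mul' (hN i) ((hh x hx).pd (hf.sm hx) i)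
  have e : (1:ℤ) + (a - 1) = a := by ring
  rwa [e] at h

end hom

section

variable {U : Set (Fin n → ℝ)} {F : (Fin n → ℝ) → (Fin n → ℝ) → ℝ}
  {G : (Fin n → ℝ) → (Fin n → ℝ) → (Fin n → ℝ)}

/-- the curvature fields -/
noncomputable def Rc (G : (Fin n → ℝ) → (Fin n → ℝ) → (Fin n → ℝ)) (v w : Fin n → ℝ) (i : Fin n)
    (x y : Fin n → ℝ) : ℝ := Dh (N G w) w (N G v i) x y - Dh (N G v) v (N G w i) x y

variable (hF : IsFinsler U F) (hG : IsSpray U F G)

include hF hG

theorem Rc_JS (v w : Fin n → ℝ) (i : Fin n) : JS U (Rc G v w i) :=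
  (JS.Dh hF.isOpen (N_JS hF hG v i) (N_JS hF hG w)).sub
    (JS.Dh hF.isOpen (N_JS hF hG w i) (N_JS hF hG v))

theorem N1_JM (v : Fin n → ℝ) : JM U (N1 G v) := fun i a => (N_JS hF hG v i).pd hF.isOpen a

/-- derivatives of matrices of derivatives -/
theorem DM_N1 (v : Fin n → ℝ) {X : Fin n → (Fin n → ℝ) → (Fin n → ℝ) → ℝ}
    (hX : ∀ i, JS U (X i)) {x y : Fin n → ℝ} (hx : x ∈ U) (hy : y ≠ 0) :
    DM (N G v) v (fun x y => X1 (fun i => X i x) y) x y =
      X1 (fun i => Dh (N G v) v (X i) x) y + X1 (fun i => X i x) y * N1 G v x y := by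
  ext i a
  simp only [DM, X1, N1, Matrix.of_apply, Matrix.add_apply, Matrix.mul_apply]
  rw [Dh_pd hF.isOpen (hX i) (N_JS hF hG v) a hx hy]
  congr 1
  exact Finset.sum_congr rfl fun j _ => mul_comm _ _


theorem G_hom {x : Fin n → ℝ} (hx : x ∈ U) (i : Fin n) : Hom 2 (fun z => G x z i) := by
  have hQ := q_mn hF hx
  have hR : ∀ l, Hom 2 (R F l x) := by
    intro l
    have h1 : ∀ v : Fin n → ℝ, Hom 2 (LF.dx v (q F) x) := fun v => dxq_hom hF hx v
    have h2 : ∀ k : Fin n, Hom 2 (fun y => pd l (LF.dx (Pi.single k 1) (q F) x) y * y k) := by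
      intro k
      have := Hom.mul' ((h1 (Pi.single k 1)).pd (((q_JS hF).dx hF.isOpen _).sm hx) l)
        (hom_coord k)
      norm_num at this
      exact this
    exact Hom.sub' (Hom.sum' fun k _ => h2 k) (h1 _)
  have hS : Hom 2 (fun z => ∑ l, P (q F x) i l z * ((1 / 2 : ℝ) * R F l x z)) := by
    refine Hom.sum' fun l _ => ?_
    have h1 := Hom.mul' (hom_const (n := n) (1 / 2 : ℝ)) (hR l)
    have h2 := Hom.mul' (P_hom hQ i l) h1
    norm_num at h2
    exact h2
  have hE : ∀ z, z ≠ 0 → G x z i = ∑ l, P (q F x) i l z * ((1 / 2 : ℝ) * R F l x z) := by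
    intro z hz
    have h1 : A (q F x) z *ᵥ (fun m => G x z m) = fun l => (1 / 2 : ℝ) * R F l x z := by
      ext l
      simp only [Matrix.mulVec, dotProduct, A, Matrix.of_apply]
      exact spray_eq hF hG hx hz l
    have h5 := congrArg (fun v => (A (q F x) z)⁻¹ *ᵥ v) h1
    simp only [Matrix.mulVec_mulVec,
      Matrix.nonsing_inv_mul (A (q F x) z) (isUnit_iff_ne_zero.2 (A_det_pos hQ hz).ne'),
      Matrix.one_mulVec] at h5
    have h6 := congrFun h5 i
    rw [h6]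
    simp only [Matrix.mulVec, dotProduct, P]
  intro y hy t ht
  have hty : t • y ≠ 0 := smul_ne_zero ht.ne' hy
  have := hS y hy t ht
  simp only at this
  rw [← hE y hy, ← hE _ hty] at this
  exact this

theorem N_hom (v : Fin n → ℝ) {x : Fin n → ℝ} (hx : x ∈ U) (i : Fin n) : Hom 1 (N G v i x) := by
  have h : ∀ y, N G v i x y = ∑ k, v k * pd k (fun z => G x z i) y := fun y =>
    dd_eq v (fun z => G x z i) y
  have h1 : Hom 1 (fun y => ∑ k, v k * pd k (fun z => G x z i) y) := by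
    refine Hom.sum' fun k _ => ?_
    have := Hom.mul' (hom_const (n := n) (v k))
      ((G_hom hF hG hx i).pd ((G_JS hF hG i).sm hx) k)
    norm_num at this
    exact this
  intro y hy t ht
  rw [h, h]
  exact h1 y hy t ht

theorem Rc_hom (v w : Fin n → ℝ) {x : Fin n → ℝ} (hx : x ∈ U) (i : Fin n) :
    Hom 1 (Rc G v w i x) :=
  Hom.sub' (Hom.Dh' hF.isOpen (N_JS hF hG v i) (fun _ hx => N_hom hF hG v hx i) hx
    (fun j => N_hom hF hG w hx j) w)
    (Hom.Dh' hF.isOpen (N_JS hF hG w i) (fun _ hx => N_hom hF hG w hx i) hx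
    (fun j => N_hom hF hG v hx j) v)

omit hF hG in
theorem JM.tr {f : (Fin n → ℝ) → (Fin n → ℝ) → Matrix (Fin n) (Fin n) ℝ} (hf : JM U f) :
    JM U (fun x y => (f x y)ᵀ) := fun c d => hf d c

omit hF hG in
theorem JM.add {f g : (Fin n → ℝ) → (Fin n → ℝ) → Matrix (Fin n) (Fin n) ℝ} (hf : JM U f)
    (hg : JM U g) : JM U (fun x y => f x y + g x y) := fun c d => (hf c d).add (hg c d)

omit hF hG in
theorem DM_add {f g : (Fin n → ℝ) → (Fin n → ℝ) → Matrix (Fin n) (Fin n) ℝ} (hf : JM U f)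
    (hg : JM U g) {N : Fin n → (Fin n → ℝ) → (Fin n → ℝ) → ℝ} {v x y : Fin n → ℝ} (hx : x ∈ U)
    (hy : y ≠ 0) : DM N v (fun x y => f x y + g x y) x y = DM N v f x y + DM N v g x y := by
  ext c d
  exact Dh_add (hf c d) (hg c d) hx hy

omit hF hG in
theorem DM_tr {f : (Fin n → ℝ) → (Fin n → ℝ) → Matrix (Fin n) (Fin n) ℝ}
    {N : Fin n → (Fin n → ℝ) → (Fin n → ℝ) → ℝ} {v x y : Fin n → ℝ} :
    DM N v (fun x y => (f x y)ᵀ) x y = (DM N v f x y)ᵀ := rfl

omit hF hG in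
theorem DM_congr (hU : IsOpen U) {f g : (Fin n → ℝ) → (Fin n → ℝ) → Matrix (Fin n) (Fin n) ℝ}
    (h : ∀ x ∈ U, ∀ y, y ≠ 0 → f x y = g x y)
    {N : Fin n → (Fin n → ℝ) → (Fin n → ℝ) → ℝ} {v x y : Fin n → ℝ} (hx : x ∈ U)
    (hy : y ≠ 0) : DM N v f x y = DM N v g x y := by
  ext c d
  exact Dh_congr hU (fun x hx y hy => by rw [h x hx y hy]) hx hy

/-- second horizontal derivatives of the metric -/
theorem DDA (hL : IsLandsberg U F G) (v w : Fin n → ℝ) {x y : Fin n → ℝ} (hx : x ∈ U)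
    (hy : y ≠ 0) : DM (N G v) v (fun x y => DM (N G w) w (fun x y => A (q F x) y) x y) x y =
      (X1 (fun i => Dh (N G v) v (N G w i) x) y + N1 G w x y * N1 G v x y)ᵀ * A (q F x) y +
      (N1 G w x y)ᵀ * ((N1 G v x y)ᵀ * A (q F x) y + A (q F x) y * N1 G v x y) +
      (((N1 G v x y)ᵀ * A (q F x) y + A (q F x) y * N1 G v x y) * N1 G w x y +
      A (q F x) y * (X1 (fun i => Dh (N G v) v (N G w i) x) y + N1 G w x y * N1 G v x y)) := by
  rw [DM_congr hF.isOpen (g := fun x y => (N1 G w x y)ᵀ * A (q F x) y + A (q F x) y * N1 G w x y)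
    (fun x hx y hy => LF.DM_A hF hG hL w hx hy) hx hy]
  have hA := A_JM hF
  have hN := N1_JM hF hG w
  rw [DM_add ((JM.tr hN).mul hA) (hA.mul hN) hx hy, DM_mul (f := fun x y => (N1 G w x y)ᵀ)
    (JM.tr hN) hA hx hy, DM_mul hA hN hx hy, DM_tr, LF.DM_A hF hG hL v hx hy]
  have h1 : DM (N G v) v (N1 G w) x y =
      X1 (fun i => Dh (N G v) v (N G w i) x) y + N1 G w x y * N1 G v x y :=
    DM_N1 hF hG v (X := N G w) (fun i => N_JS hF hG w i) hx hy
  rw [h1]

/-- the curvature fields are infinitesimal isometries -/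
theorem Rc_kil (hL : IsLandsberg U F G) (v w : Fin n → ℝ) {x : Fin n → ℝ} (hx : x ∈ U) :
    Kil (q F x) (fun i => Rc G v w i x) := by
  refine ⟨fun i => (Rc_JS hF hG v w i).sm hx, fun i => Rc_hom hF hG v w hx i,
    fun y hy a b => ?_⟩
  have hq2 : JS U (fun x y => pd a (pd b (q F x)) y) :=
    ((q_JS hF).pd hF.isOpen b).pd hF.isOpen a
  have h1 := Dh_comm hF.isOpen hq2 (N_JS hF hG v) (N_JS hF hG w) v w hx hy
  have h2 := congrFun (congrFun (DDA hF hG hL v w hx hy) a) b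
  have h3 := congrFun (congrFun (DDA hF hG hL w v hx hy) a) b
  have e2 : DM (N G v) v (fun x y => DM (N G w) w (fun x y => A (q F x) y) x y) x y a b =
    Dh (N G v) v (Dh (N G w) w (fun x y => pd a (pd b (q F x)) y)) x y := rfl
  have e3 : DM (N G w) w (fun x y => DM (N G v) v (fun x y => A (q F x) y) x y) x y a b =
    Dh (N G w) w (Dh (N G v) v (fun x y => pd a (pd b (q F x)) y)) x y := rfl
  rw [e2] at h2
  rw [e3] at h3
  rw [h2, h3] at h1
  have hQ := q_mn hF hx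
  have h4 : ∀ m k, pd k (Rc G v w m x) y = X1 (fun i => Dh (N G w) w (N G v i) x) y m k -
      X1 (fun i => Dh (N G v) v (N G w i) x) y m k := by
    intro m k
    exact pd_sub ((JS.Dh hF.isOpen (N_JS hF hG v m) (N_JS hF hG w)).sm hx)
      ((JS.Dh hF.isOpen (N_JS hF hG w m) (N_JS hF hG v)).sm hx) k hy
  have h5 : ∑ m, (Rc G v w m x y * pd m (pd a (pd b (q F x))) y +
      pd m (pd b (q F x)) y * pd a (Rc G v w m x) y +
      pd m (pd a (q F x)) y * pd b (Rc G v w m x) y) =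
      ∑ m, Rc G v w m x y * pd m (pd a (pd b (q F x))) y +
      ((X1 (fun i => Dh (N G w) w (N G v i) x) y -
        X1 (fun i => Dh (N G v) v (N G w i) x) y)ᵀ * A (q F x) y +
      A (q F x) y * (X1 (fun i => Dh (N G w) w (N G v i) x) y -
        X1 (fun i => Dh (N G v) v (N G w i) x) y)) a b := by
    simp only [h4, Matrix.add_apply, Matrix.mul_apply, Matrix.transpose_apply, Matrix.sub_apply,
      ← Finset.sum_add_distrib]
    refine Finset.sum_congr rfl fun m _ => ?_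
    have e1 : A (q F x) y m b = pd m (pd b (q F x)) y := rfl
    have e2 : A (q F x) y a m = pd m (pd a (q F x)) y := pd2_symm hQ a m hy
    rw [e1, e2]
    ring
  rw [h5]
  have h6 : ∑ m, Rc G v w m x y * pd m (pd a (pd b (q F x))) y =
      ∑ i, (Dh (N G w) w (N G v i) x y - Dh (N G v) v (N G w i) x y) *
        pd i (fun y => pd a (pd b (q F x)) y) y := rfl
  rw [h6, ← h1, ← Matrix.sub_apply, ← Matrix.add_apply]
  have h7 : ∀ (Y Z M N A : Matrix (Fin n) (Fin n) ℝ),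
      ((Y + N * M)ᵀ * A + Nᵀ * (Mᵀ * A + A * M) + ((Mᵀ * A + A * M) * N + A * (Y + N * M))) -
      ((Z + M * N)ᵀ * A + Mᵀ * (Nᵀ * A + A * N) + ((Nᵀ * A + A * N) * M + A * (Z + M * N))) +
      ((Z - Y)ᵀ * A + A * (Z - Y)) = 0 := by
    intro Y Z M N A
    simp only [Matrix.transpose_add, Matrix.transpose_sub, Matrix.transpose_mul]
    noncomm_ring
  rw [h7]
  rfl

end

end Pool.Agent.H792.KF
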