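import Pool.Agent.H792.KF.Flow

/-!
# The Berwald curvature is parallel along the geodesic flow
-/

set_option autoImplicit false

open scoped BigOperators ContDiff Topology Matrix
open Filter Set

namespace Pool.Agent.H792.KF

open Pool.Agent.R774.BW Pool.Agent.H792.Gen Pool.Agent.H792.LF

variable {n : ℕ} {U : Set (Fin n → ℝ)} {F : (Fin n → ℝ) → (Fin n → ℝ) → ℝ}
  {G : (Fin n → ℝ) → (Fin n → ℝ) → (Fin n → ℝ)}

theorem Dh_lin {N : (Fin n → ℝ) → Fin n → (Fin n → ℝ) → (Fin n → ℝ) → ℝ}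
    (hN : ∀ v i x y, N v i x y = ∑ k, v k * N (Pi.single k 1) i x y) (w : Fin n → ℝ)
    (f : (Fin n → ℝ) → (Fin n → ℝ) → ℝ) (x y : Fin n → ℝ) :
    Dh (N w) w f x y = ∑ l, w l * Dh (N (Pi.single l 1)) (Pi.single l 1) f x y := by
  unfold Dh
  simp only [mul_sub, Finset.sum_sub_distrib]
  congr 1
  · exact fderiv_eq_sum (fun z => f z y) x w
  · simp only [Finset.mul_sum]
    rw [Finset.sum_comm]
    refine Finset.sum_congr rfl fun i _ => ?_
    rw [hN w i x y, Finset.sum_mul]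
    exact Finset.sum_congr rfl fun l _ => by ring

variable (hF : IsFinsler U F) (hG : IsSpray U F G)

include hF hG

theorem Rc_lin (v w : Fin n → ℝ) (i : Fin n) {x y : Fin n → ℝ} (hx : x ∈ U) (hy : y ≠ 0) :
    Rc G v w i x y = ∑ k, ∑ l, v k * w l * Rc G (Pi.single k 1) (Pi.single l 1) i x y := by
  have hN : ∀ v i x y, N G v i x y = ∑ k, v k * N G (Pi.single k 1) i x y := fun v i x y =>
    dd_eq v (fun z => G x z i) y
  have h1 : ∀ v w : Fin n → ℝ, Dh (N G w) w (N G v i) x y =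
      ∑ k, ∑ l, v k * w l * Dh (N G (Pi.single l 1)) (Pi.single l 1)
        (N G (Pi.single k 1) i) x y := by
    intro v w
    rw [Dh_lin hN w, Finset.sum_comm]
    refine Finset.sum_congr rfl fun l _ => ?_
    have e1 : Dh (N G (Pi.single l 1)) (Pi.single l 1) (N G v i) x y =
        Dh (N G (Pi.single l 1)) (Pi.single l 1) (fun x y => ∑ k, v k *
          N G (Pi.single k 1) i x y) x y := by
      congr 1
      funext x y
      exact hN v i x y
    rw [e1, Dh_sum (fun k _ => (JS.const (v k)).mul (N_JS hF hG _ i)) hx hy, Finset.mul_sum]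
    refine Finset.sum_congr rfl fun k _ => ?_
    rw [Dh_mul (JS.const (v k)) (N_JS hF hG _ i) hx hy, Dh_const]
    ring
  unfold Rc
  rw [h1 v w, h1 w v]
  have h2 : ∑ k, ∑ l, w k * v l * Dh (N G (Pi.single l 1)) (Pi.single l 1)
        (N G (Pi.single k 1) i) x y = ∑ k, ∑ l, v k * w l *
        Dh (N G (Pi.single k 1)) (Pi.single k 1) (N G (Pi.single l 1) i) x y := by
    rw [Finset.sum_comm]
    exact Finset.sum_congr rfl fun k _ => Finset.sum_congr rfl fun l _ => by ring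
  rw [h2]
  simp only [mul_sub, Finset.sum_sub_distrib]

/-- flat points -/
theorem rlin_of_zero {x : Fin n → ℝ} (hx : x ∈ U)
    (h : ∀ k l i, ∀ y, y ≠ 0 → Rc G (Pi.single k 1) (Pi.single l 1) i x y = 0) : RLin G x := by
  intro v w i y hy
  have h1 : ∀ z, z ≠ 0 → Rc G v w i x z = 0 := by
    intro z hz
    rw [Rc_lin hF hG v w i hx hz]
    simp only [h _ _ _ z hz, mul_zero, Finset.sum_const_zero]
  rw [dd_congr (g := fun _ => (0:ℝ)) (fun z hz => ?_) w hy]
  · simp [Gen.dd]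
  · rw [dd_congr (g := fun _ => (0:ℝ)) (fun z hz => h1 z hz) w hz]
    simp [Gen.dd]

/-- points at which the infinitesimal isometries are linear -/
theorem rlin_of_kil (hL : IsLandsberg U F G) {x : Fin n → ℝ} (hx : x ∈ U)
    (h : ∀ X, Kil (q F x) X → ∀ y, y ≠ 0 → ∀ a b i, pd a (pd b (X i)) y = 0) : RLin G x := by
  intro v w i y hy
  have h1 := h _ (Rc_kil hF hG hL v w hx)
  have hs : Sm (Rc G v w i x) := (Rc_JS hF hG v w i).sm hx
  rw [dd_dd_eq hs w w hy]
  simp only [dd_eq]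
  refine Finset.sum_eq_zero fun b _ => ?_
  rw [Finset.sum_eq_zero, mul_zero]
  intro a _
  rw [h1 y hy a b i, mul_zero]

/-- points near which the Berwald curvature vanishes -/
theorem para_of_berwald {O : Set (Fin n → ℝ)} (hO : IsOpen O) (hOU : O ⊆ U)
    (h : ∀ x ∈ O, ∀ y, y ≠ 0 → ∀ i j k l, berwald G x y i j k l = 0) {x : Fin n → ℝ}
    (hx : x ∈ O) : Para G x := by
  intro w y hy i
  have h1 : ∀ z ∈ O, ∀ t, t ≠ 0 → ∀ i, ∀ a b c : Fin n → ℝ,
      dd a (dd b (dd c (fun s => G z s i))) t = 0 := by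
    intro z hz t ht i a b c
    rw [dd3_eq ((G_JS hF hG i).sm (hOU hz)) a b c ht]
    refine Finset.sum_eq_zero fun j _ => Finset.sum_eq_zero fun k _ =>
      Finset.sum_eq_zero fun l _ => ?_
    have := h z hz t ht i j k l
    have e : pd j (pd k (pd l (fun s => G z s i))) t = berwald G z t i j k l := rfl
    rw [e, this, mul_zero]
  rw [Dh_congr hO (g := fun _ _ => 0) (fun z hz t ht => h1 z hz t ht i w w w) hx hy, Dh_const]
  have h2 : ∀ j, dd w (dd w (pd j (fun z => G x z i))) y = 0 := fun j =>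
    h1 x hx y hy i w w (Pi.single j 1)
  simp only [h1 x hx y hy, h2, mul_zero, zero_mul, Finset.sum_const_zero, sub_zero]

/-- the property is closed -/
theorem para_closed {x : Fin n → ℝ} (hx : x ∈ U)
    (h : ∀ O : Set (Fin n → ℝ), IsOpen O → x ∈ O → ∃ z ∈ O, z ∈ U ∧ Para G z) : Para G x := by
  intro w y hy i
  have hU := hF.isOpen
  have hGJ := fun i => G_JS hF hG i
  have d1 : ∀ j, JS U (fun x y => dd w (fun z => G x z j) y) := fun j => JS.dy hU (hGJ j) w
  have d3 : ∀ j, JS U (fun x y => dd w (dd w (dd w (fun z => G x z j))) y) := fun j =>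
    JS.dy hU (JS.dy hU (d1 j) w) w
  have p1 : ∀ j, JS U (fun x y => pd j (fun z => G x z i) y) := fun j => (hGJ i).pd hU j
  have p3 : ∀ j, JS U (fun x y => dd w (dd w (pd j (fun z => G x z i))) y) := fun j =>
    JS.dy hU (JS.dy hU (p1 j) w) w
  have hJ : JS U (fun x' y' => Dh (N G y) y (fun x y => dd w (dd w (dd w (fun z => G x z i))) y)
      x' y' - (3 * ∑ j, dd w (fun z => G x' z j) y' * dd w (dd w (pd j (fun z => G x' z i))) y' -
      ∑ j, dd w (dd w (dd w (fun z => G x' z j))) y' * pd j (fun z => G x' z i) y')) :=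
    (JS.Dh hU (d3 i) (N_JS hF hG y)).sub (((JS.const 3).mul (JS.sum fun j _ =>
      (d1 j).mul (p3 j))).sub (JS.sum fun j _ => (d3 j).mul (p1 j)))
  have hc := (hJ.smx hx hy).continuousAt
  by_contra hne
  have hne2 := sub_ne_zero.2 hne
  have h1 := hc.eventually_ne hne2
  obtain ⟨O, hO, hOo, hxO⟩ := mem_nhds_iff.1 h1
  obtain ⟨z, hz, -, hP⟩ := h O hOo hxO
  exact hO hz (sub_eq_zero.2 (hP w y hy i))

/-- **the Berwald curvature is parallel along the geodesic flow if at each point the curvature is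
linear or the Berwald curvature vanishes** -/
theorem para_all (h : ∀ x ∈ U, RLin G x ∨ ∀ y, y ≠ 0 → ∀ i j k l, berwald G x y i j k l = 0)
    {x : Fin n → ℝ} (hx : x ∈ U) : Para G x := by
  by_cases hc : ∃ O : Set (Fin n → ℝ), IsOpen O ∧ x ∈ O ∧ O ⊆ U ∧
      ∀ z ∈ O, ∀ y, y ≠ 0 → ∀ i j k l, berwald G z y i j k l = 0
  · obtain ⟨O, hO, hxO, hOU, hB⟩ := hc
    exact para_of_berwald hF hG hO hOU hB hxO
  · refine para_closed hF hG hx fun O hO hxO => ?_
    push Not at hc
    obtain ⟨z, hz, y, hy, i, j, k, l, hne⟩ := hc (O ∩ U) (hO.inter hF.isOpen) ⟨hxO, hx⟩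
      inter_subset_right
    refine ⟨z, hz.1, hz.2, para_of_lin hF hG hz.2 ?_⟩
    rcases h z hz.2 with h1 | h1
    · exact h1
    · exact absurd (h1 y hy i j k l) hne

end Pool.Agent.H792.KF
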