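import Mathlib

/-!
# A topological lemma: there is no nowhere vanishing homotopy from a constant loop to a loop with
odd winding on a quarter of the circle
-/

set_option autoImplicit false

open scoped Topology
open Filter Set

namespace Pool.Agent.H792.KF

theorem exp_lift (H : C(ℝ × ℝ, ℂ)) (h0 : ∀ p, H p ≠ 0) :
    ∃ L : C(ℝ × ℝ, ℂ), ∀ p, Complex.exp (L p) = H p := by
  obtain ⟨e, he⟩ : ∃ e : ℂ, Complex.exp e = H 0 := ⟨Complex.log (H 0), Complex.exp_log (h0 0)⟩
  obtain ⟨L, ⟨-, hL⟩, -⟩ := Complex.isCoveringMapOn_exp.existsUnique_continuousMap_lifts H he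
    (fun a => h0 a)
  exact ⟨L, fun p => congrFun hL p⟩

theorem exp_const (g : C(ℝ × ℝ, ℂ)) {c : ℂ} (h : ∀ p, Complex.exp (g p) = c) (p : ℝ × ℝ) :
    g p = g 0 := by
  have hc : c ≠ 0 := by rw [← h 0]; exact Complex.exp_ne_zero _
  obtain ⟨L, -, hu⟩ := Complex.isCoveringMapOn_exp.existsUnique_continuousMap_lifts
    (A := ℝ × ℝ) (f := ContinuousMap.const _ c) (a₀ := 0) (e₀ := g 0) (by simp [h])
    (fun a => by simpa using hc)
  have h1 := hu g ⟨rfl, by ext p; simp [h]⟩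
  have h2 := hu (ContinuousMap.const _ (g 0)) ⟨rfl, by ext p; simp [h]⟩
  rw [h1, ← h2]
  rfl

/-- the topological lemma -/
theorem no_family (H : ℝ × ℝ → ℂ) (hc : Continuous H) (h0 : ∀ p, H p ≠ 0)
    (ha : ∀ θ, H (0, θ) = H (0, 0)) (hb : ∀ t θ, H (t, θ + 2 * Real.pi) = H (t, θ))
    (hd : ∀ θ, H (1, θ + Real.pi / 2) = - H (1, θ)) : False := by
  obtain ⟨L, hL⟩ := exp_lift ⟨H, hc⟩ h0
  have hL' : ∀ p, Complex.exp (L p) = H p := hL
  -- the difference over a full turn
  have h1 := exp_const ⟨fun p => L (p.1, p.2 + 2 * Real.pi) - L p, by fun_prop⟩ (c := 1)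
    (fun p => by
      simp only [ContinuousMap.coe_mk]
      rw [Complex.exp_sub, hL', hL', hb, div_self (h0 _)])
  have h2 := exp_const ⟨fun p => L (0, p.2), by fun_prop⟩ (c := H (0, 0))
    (fun p => by
      simp only [ContinuousMap.coe_mk]
      rw [hL', ha])
  have h3 := exp_const ⟨fun p => L (1, p.2 + Real.pi / 2) - L (1, p.2), by fun_prop⟩ (c := -1)
    (fun p => by
      simp only [ContinuousMap.coe_mk]
      rw [Complex.exp_sub, hL', hL', hd, neg_div, div_self (h0 _)])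
  simp only [ContinuousMap.coe_mk] at h1 h2 h3
  have e3 : Complex.exp (L (1, 0 + Real.pi / 2) - L (1, 0)) = -1 := by
    rw [Complex.exp_sub, hL', hL', hd, neg_div, div_self (h0 _)]
  have k0 := h2 (0, 2 * Real.pi)
  have k1 := h1 (1, 0)
  simp only [Prod.fst_zero, Prod.snd_zero, zero_add] at k0 k1
  have m1 := h3 (0, Real.pi / 2)
  have m2 := h3 (0, Real.pi / 2 + Real.pi / 2)
  have m3 := h3 (0, Real.pi / 2 + Real.pi / 2 + Real.pi / 2)
  simp only [Prod.snd_zero, zero_add] at m1 m2 m3 e3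
  have e4 : Real.pi / 2 + Real.pi / 2 + Real.pi / 2 + Real.pi / 2 = 2 * Real.pi := by ring
  rw [e4] at m3
  have k2 : L (1, 2 * Real.pi) - L (1, 0) = 0 := by
    have e5 : ((0 : ℝ × ℝ)) = (0, 0) := rfl
    rw [e5] at k1
    rw [k1, k0]
    simp
  have e6 : L (1, Real.pi / 2) - L (1, 0) = 0 := by linear_combination (1/4) * k2 - (1/4) * m1 -
    (1/4) * m2 - (1/4) * m3
  rw [e6, Complex.exp_zero] at e3
  norm_num at e3

end Pool.Agent.H792.KF
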