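import Pool.Agent.H792.KF.Frame3
import Pool.Agent.H792.KF.Top
import Pool.Graph.R_pool_sql_team_seeded_b0a926ef.R774.BW.Jac

/-!
# Norms in dimension three with constant scalar curvature are flat
-/

set_option autoImplicit false

open scoped BigOperators ContDiff Topology Matrix
open Filter Set

namespace Pool.Agent.H792.KF

open Pool.Agent.R774.BW Pool.Agent.H792.Gen Pool.Agent.H792.LF

variable {Q : (Fin 3 → ℝ) → ℝ} (hQ : MN Q) {y : Fin 3 → ℝ} (hy : y ≠ 0)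

/-- the Cartan tensor (up to a factor) on three vectors -/
noncomputable def T3 (Q : (Fin 3 → ℝ) → ℝ) (y a b c : Fin 3 → ℝ) : ℝ := b ⬝ᵥ Tw Q y a *ᵥ c

theorem T3_eq (a b c : Fin 3 → ℝ) : T3 Q y a b c =
    ∑ i, ∑ j, ∑ k, a i * b j * c k * pd i (pd j (pd k Q)) y := by
  simp only [T3, Tw, dotProduct, Matrix.mulVec, Matrix.sum_apply, Matrix.smul_apply, TM,
    Matrix.of_apply, smul_eq_mul, Finset.mul_sum, Finset.sum_mul]
  rw [Finset.sum_comm' (s := Finset.univ) (t := fun _ => Finset.univ)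
      (t' := Finset.univ) (s' := fun _ => Finset.univ) (by simp)]
  have : ∀ k : Fin 3, ∑ j, ∑ i, b j * (a i * pd i (pd j (pd k Q)) y * c k) =
      ∑ i, ∑ j, a i * b j * c k * pd i (pd j (pd k Q)) y := fun k => by
    rw [Finset.sum_comm]
    exact Finset.sum_congr rfl fun i _ => Finset.sum_congr rfl fun j _ => by ring
  simp only [this]
  rw [Finset.sum_comm]
  refine Finset.sum_congr rfl fun i _ => ?_
  rw [Finset.sum_comm]

include hQ hy

theorem Tw_tr (a : Fin 3 → ℝ) : (Tw Q y a)ᵀ = Tw Q y a := by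
  unfold Tw
  rw [Matrix.transpose_sum]
  exact Finset.sum_congr rfl fun i _ => by rw [Matrix.transpose_smul, TM_transpose hQ hy]

theorem T3_swap12 (a b c : Fin 3 → ℝ) : T3 Q y a b c = T3 Q y b a c := by
  rw [T3_eq, T3_eq, Finset.sum_comm]
  refine Finset.sum_congr rfl fun j _ => Finset.sum_congr rfl fun i _ =>
    Finset.sum_congr rfl fun k _ => ?_
  rw [pd3_symm1 hQ i j k hy]; ring

theorem T3_swap23 (a b c : Fin 3 → ℝ) : T3 Q y a b c = T3 Q y a c b := by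
  unfold T3
  rw [Matrix.dotProduct_mulVec, ← Matrix.mulVec_transpose, Tw_tr hQ hy, dotProduct_comm]

theorem Tw_y (a b : Fin 3 → ℝ) : (Tw Q y a *ᵥ b) ⬝ᵥ y = 0 := by
  rw [dotProduct_comm, Matrix.dotProduct_mulVec]
  have : y ᵥ* Tw Q y a = 0 := by
    unfold Tw
    rw [Matrix.vecMul_sum]
    exact Finset.sum_eq_zero fun i _ => by rw [Matrix.vecMul_smul, y_TM hQ hy, smul_zero]
  rw [this, zero_dotProduct]

/-- the curvature in the frame -/
theorem curv_frame {u : Fin 3 → ℝ} (hu : ∀ c : ℝ, u ≠ c • y) {s : ℝ}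
    (hs : ∀ a b, SM Q a b y = s • (EM y a b • EM y)) :
    s * (w1 Q y u ⬝ᵥ EM y *ᵥ w2 Q y u) ^ 2 = (lam Q y u)⁻¹ *
      (T3 Q y (w1 Q y u) (w1 Q y u) (w1 Q y u) * T3 Q y (w1 Q y u) (w2 Q y u) (w2 Q y u) +
      T3 Q y (w1 Q y u) (w1 Q y u) (w2 Q y u) * T3 Q y (w2 Q y u) (w2 Q y u) (w2 Q y u) -
      T3 Q y (w1 Q y u) (w1 Q y u) (w2 Q y u) ^ 2 -
      T3 Q y (w1 Q y u) (w2 Q y u) (w2 Q y u) ^ 2) := by
  set p := w1 Q y u with hp
  set r := w2 Q y u with hr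
  have h1 : ∑ a, p a • ∑ b, r b • SM Q a b y =
      Tw Q y p * (A Q y)⁻¹ * Tw Q y r - Tw Q y r * (A Q y)⁻¹ * Tw Q y p := by
    unfold Tw SM
    simp only [smul_sub, Finset.sum_sub_distrib, Finset.sum_mul, Finset.mul_sum, Finset.smul_sum]
    congr 1
    · rw [Finset.sum_comm]
      refine Finset.sum_congr rfl fun b _ => Finset.sum_congr rfl fun a _ => ?_
      simp only [Matrix.smul_mul, Matrix.mul_smul, smul_smul]
      rw [mul_comm]
    · refine Finset.sum_congr rfl fun a _ => Finset.sum_congr rfl fun b _ => ?_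
      simp only [Matrix.smul_mul, Matrix.mul_smul, smul_smul]
  have h2 : ∑ a, p a • ∑ b, r b • SM Q a b y = (s * (p ⬝ᵥ EM y *ᵥ r)) • EM y := by
    simp only [hs, dotProduct, Matrix.mulVec, Finset.mul_sum, Finset.sum_smul, Finset.smul_sum]
    refine Finset.sum_congr rfl fun a _ => Finset.sum_congr rfl fun b _ => ?_
    simp only [smul_smul]
    congr 1
    ring
  rw [h2] at h1
  have h3 := congrArg (fun M => p ⬝ᵥ M *ᵥ r) h1
  simp only [Matrix.smul_mulVec, dotProduct_smul, smul_eq_mul, Matrix.sub_mulVec,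
    dotProduct_sub] at h3
  have e : ∀ a b : Fin 3 → ℝ, p ⬝ᵥ (Tw Q y a * (A Q y)⁻¹ * Tw Q y b) *ᵥ r =
      (Tw Q y a *ᵥ p) ⬝ᵥ (A Q y)⁻¹ *ᵥ (Tw Q y b *ᵥ r) := by
    intro a b
    rw [← Matrix.mulVec_mulVec, ← Matrix.mulVec_mulVec, Matrix.dotProduct_mulVec,
      ← Matrix.mulVec_transpose, Tw_tr hQ hy]
  rw [e, e, P_dot hQ hy hu _ _ (Tw_y hQ hy _ _), P_dot hQ hy hu _ _ (Tw_y hQ hy _ _),
    ← hp, ← hr] at h3
  have f : ∀ a b c : Fin 3 → ℝ, (Tw Q y a *ᵥ b) ⬝ᵥ c = T3 Q y a c b := by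
    intro a b c
    rw [dotProduct_comm]; rfl
  simp only [f] at h3
  have g1 : T3 Q y p r p = T3 Q y p p r := T3_swap23 hQ hy _ _ _
  have g2 : T3 Q y r p r = T3 Q y p r r := T3_swap12 hQ hy _ _ _
  have g3 : T3 Q y r p p = T3 Q y p p r := by rw [T3_swap12 hQ hy, T3_swap23 hQ hy]
  have g4 : T3 Q y r r p = T3 Q y p r r := by rw [T3_swap23 hQ hy, T3_swap12 hQ hy]
  rw [g1, g2, g3, g4] at h3
  linear_combination h3

omit hQ hy in
theorem EM_det (p r : Fin 3 → ℝ) (M : Matrix (Fin 3) (Fin 3) ℝ)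
    (hM : ∀ i α, M i α = ![p i, r i, y i] α) : p ⬝ᵥ EM y *ᵥ r = M.det := by
  rw [Matrix.det_fin_three]
  simp only [hM, EM, dotProduct, Matrix.mulVec, Fin.sum_univ_three, Matrix.of_apply,
    Matrix.cons_val', Matrix.cons_val_zero, Matrix.cons_val_one, Matrix.cons_val_two,
    Matrix.tail_cons, Matrix.head_cons, Matrix.empty_val', Matrix.cons_val_fin_one,
    Matrix.head_fin_const]
  ring

theorem frame_ne {u : Fin 3 → ℝ} (hu : ∀ c : ℝ, u ≠ c • y) :
    w1 Q y u ⬝ᵥ EM y *ᵥ w2 Q y u ≠ 0 := by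
  rw [EM_det _ _ (WM Q y u) (fun i α => rfl)]
  exact (P_frame hQ hy hu).2

/-- the structure of the curvature -/
theorem exists_s : ∃ s : ℝ, ∀ a b, SM Q a b y = s • (EM y a b • EM y) :=
  curv3 hy (SM_anti) (SM_transpose hQ hy) (sum_SM hQ hy) (y_SM hQ hy)

theorem rho_s {s : ℝ} (hs : ∀ a b, SM Q a b y = s • (EM y a b • EM y)) :
    ∃ c : ℝ, 0 < c ∧ rho Q y = s * c := by
  refine ⟨2 * (y ⬝ᵥ ((A Q y)⁻¹.adjugate *ᵥ y)), ?_, ?_⟩
  · have hdet : 0 < ((A Q y)⁻¹).det := (P_posDef hQ hy).det_pos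
    have hadj : ((A Q y)⁻¹).adjugate = ((A Q y)⁻¹).det • A Q y := by
      have h1 : ((A Q y)⁻¹)⁻¹ = A Q y :=
        Matrix.nonsing_inv_nonsing_inv _ (isUnit_iff_ne_zero.2 (A_det_pos hQ hy).ne')
      rw [Matrix.inv_def ((A Q y)⁻¹), Ring.inverse_eq_inv'] at h1
      have h2 := congrArg (fun M => ((A Q y)⁻¹).det • M) h1
      simp only [smul_smul, mul_inv_cancel₀ hdet.ne', one_smul] at h2
      exact h2
    rw [hadj, Matrix.smul_mulVec, dotProduct_smul, smul_eq_mul]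
    have := N_pos hQ hy
    positivity
  · rw [← rho3 _ (P_tr hQ hy)]
    have h5 : Ric Q y = s • (Matrix.of fun b d => ∑ a, ((A Q y)⁻¹ * (EM y a b • EM y)) a d) := by
      ext b d
      simp only [Ric, Matrix.of_apply, hs, Matrix.smul_apply, smul_eq_mul, Finset.mul_sum,
        Matrix.mul_smul]
    unfold rho
    rw [h5, Matrix.mul_smul, Matrix.trace_smul, smul_eq_mul]

/-- the mean Cartan form in the frame -/
theorem th_frame {u : Fin 3 → ℝ} (hu : ∀ c : ℝ, u ≠ c • y) (a : Fin 3 → ℝ) :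
    ∑ k, a k * th Q k y = (lam Q y u)⁻¹ * (T3 Q y a (w1 Q y u) (w1 Q y u) +
      T3 Q y a (w2 Q y u) (w2 Q y u)) := by
  have h1 : ∑ k, a k * th Q k y = ∑ i, ∑ j, (A Q y)⁻¹ i j * Tw Q y a i j := by
    simp only [th, P, Tw, Matrix.sum_apply, Matrix.smul_apply, TM, Matrix.of_apply, smul_eq_mul,
      Finset.mul_sum]
    rw [Finset.sum_comm]
    refine Finset.sum_congr rfl fun i _ => ?_
    rw [Finset.sum_comm]
    exact Finset.sum_congr rfl fun j _ => Finset.sum_congr rfl fun k _ => by ring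
  have h2 : ∑ i, ∑ j, y i * y j * Tw Q y a i j = 0 := by
    have := Tw_y hQ hy a y
    simp only [dotProduct, Matrix.mulVec, Finset.sum_mul] at this
    rw [← this]
    exact Finset.sum_congr rfl fun i _ => Finset.sum_congr rfl fun j _ => by ring
  have h3 : ∀ i j, (A Q y)⁻¹ i j * Tw Q y a i j =
      (lam Q y u)⁻¹ * (w1 Q y u i * (Tw Q y a i j * w1 Q y u j)) +
      (lam Q y u)⁻¹ * (w2 Q y u i * (Tw Q y a i j * w2 Q y u j)) +
      (y ⬝ᵥ A Q y *ᵥ y)⁻¹ * (y i * y j * Tw Q y a i j) := by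
    intro i j
    rw [P_entry hQ hy hu]
    ring
  rw [h1]
  simp only [h3, Finset.sum_add_distrib, ← Finset.mul_sum]
  rw [h2]
  unfold T3
  simp only [dotProduct, Matrix.mulVec, ← Finset.mul_sum]
  ring

/-- the sign of the scalar curvature where the mean Cartan form vanishes -/
theorem rho_nonpos (hth : ∀ k, th Q k y = 0) : rho Q y ≤ 0 := by
  obtain ⟨u, hu⟩ : ∃ u : Fin 3 → ℝ, ∀ c : ℝ, u ≠ c • y := by
    by_contra hcon
    push Not at hcon
    obtain ⟨c0, hc0⟩ := hcon (Pi.single 0 1)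
    obtain ⟨c1, hc1⟩ := hcon (Pi.single 1 1)
    have a1 := congrFun hc0 0
    have a2 := congrFun hc0 1
    have a3 := congrFun hc1 0
    have a4 := congrFun hc1 1
    simp at a1 a2 a3 a4
    rcases a2 with a2 | a2
    · rw [a2] at a1; simp at a1
    · rw [a2] at a4; simp at a4
  obtain ⟨s, hs⟩ := exists_s hQ hy
  obtain ⟨c, hc, hrho⟩ := rho_s hQ hy hs
  have h1 := curv_frame hQ hy hu hs
  have hl := lam_pos hQ hy hu
  have t1 := th_frame hQ hy hu (w1 Q y u)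
  have t2 := th_frame hQ hy hu (w2 Q y u)
  simp only [hth, mul_zero, Finset.sum_const_zero] at t1 t2
  have hl' : (lam Q y u)⁻¹ ≠ 0 := inv_ne_zero hl.ne'
  have k1 := (mul_eq_zero.1 t1.symm).resolve_left hl'
  have k2 := (mul_eq_zero.1 t2.symm).resolve_left hl'
  have g : T3 Q y (w2 Q y u) (w1 Q y u) (w1 Q y u) = T3 Q y (w1 Q y u) (w1 Q y u) (w2 Q y u) := by
    rw [T3_swap12 hQ hy, T3_swap23 hQ hy]
  rw [g] at k2
  set a := T3 Q y (w1 Q y u) (w1 Q y u) (w1 Q y u)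
  set b := T3 Q y (w1 Q y u) (w1 Q y u) (w2 Q y u)
  set c' := T3 Q y (w1 Q y u) (w2 Q y u) (w2 Q y u)
  set d := T3 Q y (w2 Q y u) (w2 Q y u) (w2 Q y u)
  have e1 : a = - c' := by linarith
  have e2 : d = - b := by linarith
  rw [e1, e2] at h1
  have h2 : s * (w1 Q y u ⬝ᵥ EM y *ᵥ w2 Q y u) ^ 2 ≤ 0 := by
    rw [h1]
    have : 0 ≤ (lam Q y u)⁻¹ * (2 * b ^ 2 + 2 * c' ^ 2) := by positivity
    nlinarith
  have h3 : 0 < (w1 Q y u ⬝ᵥ EM y *ᵥ w2 Q y u) ^ 2 := by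
    have := frame_ne hQ hy hu
    positivity
  have h4 : s ≤ 0 := by
    by_contra hcon
    push Not at hcon
    have := mul_pos hcon h3
    linarith
  rw [hrho]
  exact mul_nonpos_of_nonpos_of_nonneg h4 hc.le

omit hQ hy in
/-- the trace free part of the Cartan tensor -/
noncomputable def Hc (Q : (Fin 3 → ℝ) → ℝ) (y u : Fin 3 → ℝ) : ℂ :=
  ((T3 Q y (w1 Q y u) (w1 Q y u) (w1 Q y u) -
    3 * T3 Q y (w1 Q y u) (w2 Q y u) (w2 Q y u) : ℝ) : ℂ) +
  ((3 * T3 Q y (w1 Q y u) (w1 Q y u) (w2 Q y u) -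
    T3 Q y (w2 Q y u) (w2 Q y u) (w2 Q y u) : ℝ) : ℂ) * Complex.I

/-- the trace free part does not vanish where the scalar curvature is negative -/
theorem Hc_ne {u : Fin 3 → ℝ} (hu : ∀ c : ℝ, u ≠ c • y) (hr : rho Q y < 0) : Hc Q y u ≠ 0 := by
  intro h
  obtain ⟨s, hs⟩ := exists_s hQ hy
  obtain ⟨c, hc, hrho⟩ := rho_s hQ hy hs
  have h1 := curv_frame hQ hy hu hs
  have hl := lam_pos hQ hy hu
  unfold Hc at h
  have hre := congrArg Complex.re h
  have him := congrArg Complex.im h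
  simp only [Complex.add_re, Complex.ofReal_re, Complex.mul_re, Complex.I_re, mul_zero,
    Complex.ofReal_im, Complex.I_im, mul_one, sub_self, add_zero, Complex.zero_re] at hre
  simp only [Complex.add_im, Complex.ofReal_im, Complex.mul_im, Complex.ofReal_re, Complex.I_im,
    mul_one, Complex.I_re, mul_zero, add_zero, zero_add, Complex.zero_im] at him
  set a := T3 Q y (w1 Q y u) (w1 Q y u) (w1 Q y u)
  set b := T3 Q y (w1 Q y u) (w1 Q y u) (w2 Q y u)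
  set c' := T3 Q y (w1 Q y u) (w2 Q y u) (w2 Q y u)
  set d := T3 Q y (w2 Q y u) (w2 Q y u) (w2 Q y u)
  have e1 : a = 3 * c' := by linarith
  have e2 : d = 3 * b := by linarith
  rw [e1, e2] at h1
  have h2 : 0 ≤ s * (w1 Q y u ⬝ᵥ EM y *ᵥ w2 Q y u) ^ 2 := by
    rw [h1]
    have : 0 ≤ (lam Q y u)⁻¹ * (2 * b ^ 2 + 2 * c' ^ 2) := by positivity
    nlinarith
  have h3 : 0 < (w1 Q y u ⬝ᵥ EM y *ᵥ w2 Q y u) ^ 2 := by
    have := frame_ne hQ hy hu
    positivity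
  have h4 : 0 ≤ s := by
    by_contra hcon
    push Not at hcon
    have := mul_pos (neg_pos.2 hcon) h3
    linarith
  rw [hrho] at hr
  have := mul_nonneg h4 hc.le
  linarith

end Pool.Agent.H792.KF
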