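import Pool.Agent.H792.KF.AllLin
import Pool.Agent.H792.KF.Dense

/-!
# Tame norms: all infinitesimal isometries are linear, or any two are proportional
-/

set_option autoImplicit false

open scoped BigOperators ContDiff Topology Matrix
open Filter Set

namespace Pool.Agent.H792.KF

open Pool.Agent.R774.BW Pool.Agent.H792.Gen Pool.Agent.H792.LF

variable {n : ℕ}

/-- all infinitesimal isometries are linear -/
def LinK (Q : (Fin n → ℝ) → ℝ) : Prop :=
  ∀ X, Kil Q X → ∀ y, y ≠ 0 → ∀ a b i, pd a (pd b (X i)) y = 0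

variable {U : Set (Fin n → ℝ)} {F : (Fin n → ℝ) → (Fin n → ℝ) → ℝ}
  {G : (Fin n → ℝ) → (Fin n → ℝ) → (Fin n → ℝ)}
  (hF : IsFinsler U F) (hG : IsSpray U F G) (hL : IsLandsberg U F G)

include hF hG hL

/-- the curvature fields of a tame norm are linear -/
theorem tame_lin (hn : 3 ≤ n) {x : Fin n → ℝ} (hx : x ∈ U) (h : LinK (q F x) ∨ Dep (q F x))
    (v w : Fin n → ℝ) {y : Fin n → ℝ} (hy : y ≠ 0) (a b i : Fin n) :
    pd a (pd b (Rc G v w i x)) y = 0 := by
  rcases h with h | h
  · exact h _ (Rc_kil hF hG hL v w hx) y hy a b i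
  · by_cases h0 : ∀ k l i, ∀ y, y ≠ 0 → Rc G (Pi.single k 1) (Pi.single l 1) i x y = 0
    · have h1 : ∀ z, z ≠ 0 → Rc G v w i x z = 0 := by
        intro z hz
        rw [Rc_lin hF hG v w i hx hz]
        simp only [h0 _ _ _ z hz, mul_zero, Finset.sum_const_zero]
      rw [pd_congr (g := fun _ => (0:ℝ)) (fun z hz => ?_) a hy, pd_const]
      rw [pd_congr (g := fun _ => (0:ℝ)) h1 b hz, pd_const]
    · push Not at h0
      obtain ⟨k, l, i0, y0, hy0, hne⟩ := h0
      obtain ⟨z, hz0, hz⟩ := lin_at hF hG hL hn hx h k l ⟨i0, y0, hy0, hne⟩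
      have hX := Rc_kil hF hG hL (Pi.single k 1) (Pi.single l 1) hx
      obtain ⟨c, c', hcc, hcz⟩ := h _ _ hX (Rc_kil hF hG hL v w hx)
      have hc' : c' ≠ 0 := by
        rintro rfl
        have hc : c ≠ 0 := by
          rcases hcc with h | h
          · exact h
          · exact absurd rfl h
        have := hcz y0 hy0 i0
        rw [zero_mul, add_zero] at this
        exact hne ((mul_eq_zero.1 this).resolve_left hc)
      have h1 : ∀ y, y ≠ 0 → Rc G v w i x y =
          -(c / c') * Rc G (Pi.single k 1) (Pi.single l 1) i x y := by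
        intro y hy
        have := hcz y hy i
        field_simp
        linarith
      have hs : Sm (Rc G (Pi.single k 1) (Pi.single l 1) i x) := hX.sm i
      rw [pd_congr (fun y hy => pd_congr h1 b hy) a hy,
        pd_congr (fun y hy => pd_const_mul hs _ b hy) a hy, pd_const_mul (hs.pd b) _ a hy,
        lin_of_dir (by omega) hs (hX.hom i) hz0 (fun y hy => ?_) hy a b, mul_zero]
      rw [dd_eq]
      exact hz y hy i

theorem tame_rlin (hn : 3 ≤ n) {x : Fin n → ℝ} (hx : x ∈ U) (h : LinK (q F x) ∨ Dep (q F x)) :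
    RLin G x := by
  intro v w i y hy
  have hs : Sm (Rc G v w i x) := (Rc_JS hF hG v w i).sm hx
  rw [dd_dd_eq hs w w hy]
  simp only [dd_eq]
  refine Finset.sum_eq_zero fun b _ => ?_
  rw [Finset.sum_eq_zero, mul_zero]
  intro a _
  rw [tame_lin hF hG hL hn hx h v w hy a b i, mul_zero]

/-- **curvature or Berwald curvature vanishes, for tame norms** -/
theorem curved_tame (hn : 3 ≤ n) (hd : ∀ x ∈ U, LinK (q F x) ∨ Dep (q F x)) {x : Fin n → ℝ}
    (hx : x ∈ U) :
    (∀ k l i, ∀ y, y ≠ 0 → Rc G (Pi.single k 1) (Pi.single l 1) i x y = 0) ∨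
    ∀ y, y ≠ 0 → ∀ i j k l, berwald G x y i j k l = 0 := by
  by_contra hcon
  push Not at hcon
  obtain ⟨⟨k, l, i0, y0, hy0, hne⟩, hB⟩ := hcon
  obtain ⟨y1, hy1, i1, j1, k1, l1, hB1⟩ := hB
  apply hB1
  set X : Fin n → (Fin n → ℝ) → (Fin n → ℝ) → ℝ := fun i => Rc G (Pi.single k 1)
    (Pi.single l 1) i with hXdef
  have hXJ : ∀ i, JS U (X i) := fun i => Rc_JS hF hG _ _ i
  have hXk : ∀ z ∈ U, Kil (q F z) (fun i => X i z) := fun z hz =>
    Rc_kil hF hG hL (Pi.single k 1) (Pi.single l 1) hz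
  have hlin : ∀ z ∈ U, ∀ y, y ≠ 0 → ∀ a b i, pd a (pd b (X i z)) y = 0 := fun z hz y hy a b i =>
    tame_lin hF hG hL hn hz (hd z hz) _ _ hy a b i
  have hY : ∀ v j k i, ∀ y, y ≠ 0 → pd j (pd k (Yf G (Pi.single v 1) X i x)) y = 0 := by
    intro v j k' i y hy
    have hYk := Yf_kil hF hG hXJ hL (Pi.single v 1) hXk hx
    rcases hd x hx with h | h
    · exact h _ hYk y hy j k' i
    · obtain ⟨a, a', haa, hz⟩ := h _ _ (hXk x hx) hYk
      have ha' : a' ≠ 0 := by
        rintro rfl
        have ha : a ≠ 0 := by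
          rcases haa with h | h
          · exact h
          · exact absurd rfl h
        have := hz y0 hy0 i0
        rw [zero_mul, add_zero] at this
        exact hne ((mul_eq_zero.1 this).resolve_left ha)
      have h1 : ∀ y, y ≠ 0 → Yf G (Pi.single v 1) X i x y = -(a / a') * X i x y := by
        intro y hy
        have := hz y hy i
        field_simp
        linarith
      have hs : Sm (X i x) := (hXJ i).sm hx
      rw [pd_congr (fun y hy => pd_congr h1 k' hy) j hy,
        pd_congr (fun y hy => pd_const_mul hs _ k' hy) j hy, pd_const_mul (hs.pd k') _ j hy,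
        hlin x hx y hy j k' i, mul_zero]
  set M : Matrix (Fin n) (Fin n) ℝ := Matrix.of fun a b => pd b (X a x) y0 with hM
  have hMc : ∀ y, y ≠ 0 → ∀ a b, pd b (X a x) y = M a b := by
    intro y hy a b
    exact const_of_pd (by omega) (((hXJ a).sm hx).pd b)
      (fun y hy c => hlin x hx y hy c b a) hy hy0
  have hM0 : M ≠ 0 := by
    intro h0
    have e := ((hXk x hx).hom i0).euler ((hXJ i0).sm hx) hy0
    simp only [hMc y0 hy0, h0, Matrix.zero_apply, mul_zero, Finset.sum_const_zero, Int.cast_one,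
      one_mul] at e
    exact hne e.symm
  have hgs : Sm (fun z => G x z i1) := (G_JS hF hG i1).sm hx
  refine kill_lin hn (q_mn hF hx) (hXk x hx) hM0 hMc hgs (G_hom hF hG hx i1)
    (fun y hy j k v => ?_) hy1 j1 k1 l1
  have := rel hF hG hXJ hlin hx hY hy i1 j k v
  simp only [hMc y hy] at this
  exact this

end Pool.Agent.H792.KF
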