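import Pool.Agent.H792.KF.TameDefs
import Pool.Agent.H792.KF.Mani

/-!
# The final theorems
-/

set_option autoImplicit false

open scoped BigOperators ContDiff Topology Matrix Manifold
open Filter Set

namespace Pool.Agent.H792.KF

open Pool.Agent.R774.BW Pool.Agent.H792.Gen Pool.Agent.H792.LF

variable {n : ℕ}

theorem kil_of_isKilling {F : (Fin n → ℝ) → (Fin n → ℝ) → ℝ} {x : Fin n → ℝ}
    {X : (Fin n → ℝ) → Fin n → ℝ} (h : IsKilling F x X) : Kil (q F x) (fun i y => X y i) := by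
  refine ⟨fun i y hy => h.1 i y hy, fun i y hy t ht => ?_, fun y hy i j => h.2.2 y hy i j⟩
  have := congrFun (h.2.1 y hy t ht) i
  simp only [Pi.smul_apply, smul_eq_mul] at this
  simpa using this

theorem isKilling_of_kil {F : (Fin n → ℝ) → (Fin n → ℝ) → ℝ} {x : Fin n → ℝ}
    {X : Fin n → (Fin n → ℝ) → ℝ} (h : Kil (q F x) X) : IsKilling F x (fun y i => X i y) := by
  refine ⟨fun i y hy => h.sm i y hy, fun y hy t ht => ?_, fun y hy i j => h.eq y hy i j⟩
  ext i
  have := h.hom i y hy t ht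
  simp only [zpow_one] at this
  simpa using this

theorem dep_iff {F : (Fin n → ℝ) → (Fin n → ℝ) → ℝ} {x : Fin n → ℝ} :
    Proportional F x ↔ Dep (q F x) := by
  constructor
  · intro h X Y hX hY
    exact h _ _ (isKilling_of_kil hX) (isKilling_of_kil hY)
  · intro h X Y hX hY
    exact h _ _ (kil_of_isKilling hX) (kil_of_isKilling hY)

theorem tame_imp {F : (Fin n → ℝ) → (Fin n → ℝ) → ℝ} {x : Fin n → ℝ} (h : Tame F x) :
    LinK (q F x) ∨ Dep (q F x) := by
  rcases h with h | h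
  · left
    intro X hX y hy a b i
    obtain ⟨A, hA⟩ := h _ (isKilling_of_kil hX)
    have h1 : ∀ z, z ≠ 0 → X i z = ∑ j, A i j * z j := fun z hz => congrFun (hA z hz) i
    have h2 : ∀ z, z ≠ 0 → pd b (X i) z = A i b := by
      intro z hz
      rw [pd_congr h1 b hz, pd_sum (fun j _ => (sm_const _).mul (sm_coord j)) b hz]
      have h3 : ∀ j, pd b (fun z : Fin n → ℝ => A i j * z j) z = A i j * (if j = b then 1 else 0) :=
        fun j => by rw [pd_const_mul (sm_coord j) _ b hz, pd_coord]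
      simp only [h3]
      simp
    rw [pd_congr h2 a hy, pd_const]
  · exact Or.inr (dep_iff.1 h)

theorem curvature_eq (G : (Fin n → ℝ) → (Fin n → ℝ) → (Fin n → ℝ)) (x y : Fin n → ℝ)
    (i k l : Fin n) : curvature G x y i k l = Rc G (Pi.single k 1) (Pi.single l 1) i x y := rfl

theorem closed_tame (hn : 3 ≤ n) (M : Type) [TopologicalSpace M] [CompactSpace M]
    [ChartedSpace (Fin n → ℝ) M] [IsManifold 𝓘(ℝ, Fin n → ℝ) ∞ M]
    (F : TangentBundle 𝓘(ℝ, Fin n → ℝ) M → ℝ) (hF : IsFinslerMetric F)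
    (hL : IsLandsbergMetric F)
    (h : ∀ e ∈ atlas (Fin n → ℝ) M, ∀ x ∈ e.target, Tame (loc F e) x) : IsBerwaldMetric F :=
  closed_main hF hL fun e he G hG x hx =>
    Or.inl (tame_rlin (hF e he) hG (hL e he G hG) hn hx (tame_imp (h e he x hx)))

theorem closed_three (M : Type) [TopologicalSpace M] [CompactSpace M]
    [ChartedSpace (Fin 3 → ℝ) M] [IsManifold 𝓘(ℝ, Fin 3 → ℝ) ∞ M]
    (F : TangentBundle 𝓘(ℝ, Fin 3 → ℝ) M → ℝ) (hF : IsFinslerMetric F)
    (hL : IsLandsbergMetric F) : IsBerwaldMetric F :=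
  closed_main hF hL fun e he G hG x hx => by
    rcases ball_case (hF e he) hG (hL e he G hG) hx with h | ⟨O, -, -, hxO, hd⟩
    · exact Or.inr h
    · exact Or.inl (tame_rlin (hF e he) hG (hL e he G hG) le_rfl hx (Or.inr (hd x hxO)))

section local_

variable {U : Set (Fin n → ℝ)} {F : (Fin n → ℝ) → (Fin n → ℝ) → ℝ}
  {G : (Fin n → ℝ) → (Fin n → ℝ) → (Fin n → ℝ)}

theorem local_tame (hn : 3 ≤ n) (hF : IsFinsler U F) (hG : IsSpray U F G)
    (hL : IsLandsberg U F G) (h : ∀ x ∈ U, Tame F x) (x : Fin n → ℝ) (hx : x ∈ U) :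
    (∀ y, y ≠ 0 → ∀ i k l, curvature G x y i k l = 0) ∨
    ∀ y, y ≠ 0 → ∀ i j k l, berwald G x y i j k l = 0 := by
  rcases curved_tame hF hG hL hn (fun x hx => tame_imp (h x hx)) hx with h | h
  · exact Or.inl fun y hy i k l => h k l i y hy
  · exact Or.inr h

end local_

section three

variable {U : Set (Fin 3 → ℝ)} {F : (Fin 3 → ℝ) → (Fin 3 → ℝ) → ℝ}
  {G : (Fin 3 → ℝ) → (Fin 3 → ℝ) → (Fin 3 → ℝ)}

theorem local_three (hF : IsFinsler U F) (hG : IsSpray U F G)
    (hL : IsLandsberg U F G) (x : Fin 3 → ℝ) (hx : x ∈ U) :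
    (∀ y, y ≠ 0 → ∀ i k l, curvature G x y i k l = 0) ∨
    ∀ y, y ≠ 0 → ∀ i j k l, berwald G x y i j k l = 0 := by
  rcases dim3 hF hG hL hx with h | h
  · exact Or.inl fun y hy i k l => h k l i y hy
  · exact Or.inr h

theorem compatible_three (hF : IsFinsler U F) (hG : IsSpray U F G)
    (hL : IsLandsberg U F G) (Γ : (Fin 3 → ℝ) → Fin 3 → Fin 3 → Fin 3 → ℝ)
    (hΓ : Compatible U F Γ) (x : Fin 3 → ℝ) (hx : x ∈ U) (y : Fin 3 → ℝ) (hy : y ≠ 0)
    (i j k l : Fin 3) : berwald G x y i j k l = 0 := by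
  rcases ball_case hF hG hL hx with h | ⟨O, -, -, hxO, hd⟩
  · exact h y hy i j k l
  · refine main_few hF hG hΓ hx (fun K hK => ?_) (fun y hy j k l => hL x hx y hy j k l) hy i j k l
    obtain ⟨a, b, hab, h⟩ := (dep_iff.2 (hd x hxO)) (K 0) (K 1) (hK 0) (hK 1)
    refine ⟨![a, b, 0], ?_, fun y hy m => ?_⟩
    · intro h0
      have e0 := congrFun h0 0
      have e1 := congrFun h0 1
      simp only [Matrix.cons_val_zero, Matrix.cons_val_one, Pi.zero_apply] at e0 e1
      rcases hab with h | h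
      · exact h e0
      · exact h e1
    · rw [Fin.sum_univ_three]
      simp only [Matrix.cons_val_zero, Matrix.cons_val_one, Matrix.cons_val, zero_mul, add_zero]
      exact h y hy m

theorem riemann_three (hF : IsFinsler U F) (hG : IsSpray U F G)
    (hL : IsLandsberg U F G) (hU : IsPreconnected U) (p : Fin 3 → ℝ) (hp : p ∈ U)
    (h : ¬ Proportional F p) (x : Fin 3 → ℝ) (hx : x ∈ U) :
    ∃ A : Matrix (Fin 3) (Fin 3) ℝ, A.PosDef ∧ ∀ y, F x y = √(y ⬝ᵥ A *ᵥ y) := by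
  obtain ⟨M, -, hM⟩ := euclid_of_two hF hp fun h1 => h (dep_iff.2 h1)
  exact LF.main le_rfl hF hG hL hU hp hM hx

end three

end Pool.Agent.H792.KF
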