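import Pool.Agent.H792.KF.Dim3

/-!
# Norms in dimension three with constant scalar curvature are flat: the topological argument
-/

set_option autoImplicit false

open scoped BigOperators ContDiff Topology Matrix
open Filter Set

namespace Pool.Agent.H792.KF

open Pool.Agent.R774.BW Pool.Agent.H792.Gen Pool.Agent.H792.LF

variable {Q : (Fin 3 → ℝ) → ℝ}

/-- the family of points on the sphere -/
noncomputable def yy (p : ℝ × ℝ) : Fin 3 → ℝ :=
  ![Real.sin (Real.pi * p.1) * Real.cos p.2, Real.sin (Real.pi * p.1) * Real.sin p.2,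
    Real.cos (Real.pi * p.1)]

/-- the family of tangent vectors -/
noncomputable def uu (p : ℝ × ℝ) : Fin 3 → ℝ :=
  ![Real.cos (Real.pi * p.1) + Real.sin p.2 ^ 2 * (1 - Real.cos (Real.pi * p.1)),
    -(Real.sin p.2 * Real.cos p.2 * (1 - Real.cos (Real.pi * p.1))),
    -(Real.cos p.2 * Real.sin (Real.pi * p.1))]

theorem yy_ne (p : ℝ × ℝ) : yy p ≠ 0 := by
  intro h
  have h0 := congrFun h 0
  have h1 := congrFun h 1
  have h2 := congrFun h 2
  simp only [yy, Matrix.cons_val_zero, Matrix.cons_val_one, Matrix.cons_val_two, Matrix.tail_cons,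
    Matrix.head_cons, Pi.zero_apply] at h0 h1 h2
  have e1 := Real.sin_sq_add_cos_sq (Real.pi * p.1)
  have e2 := Real.sin_sq_add_cos_sq p.2
  have : Real.sin (Real.pi * p.1) ^ 2 = 0 := by
    calc Real.sin (Real.pi * p.1) ^ 2 = (Real.sin (Real.pi * p.1) * Real.sin p.2) ^ 2 +
        (Real.sin (Real.pi * p.1) * Real.cos p.2) ^ 2 := by
          linear_combination (-(Real.sin (Real.pi * p.1) ^ 2)) * e2
      _ = 0 := by rw [h0, h1]; ring
  rw [this, h2] at e1
  norm_num at e1

theorem uu_ne (p : ℝ × ℝ) (c : ℝ) : uu p ≠ c • yy p := by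
  intro h
  have h0 := congrFun h 0
  have h1 := congrFun h 1
  have h2 := congrFun h 2
  simp only [yy, uu, Matrix.cons_val_zero, Matrix.cons_val_one, Matrix.cons_val_two,
    Matrix.tail_cons, Matrix.head_cons, Pi.smul_apply, smul_eq_mul] at h0 h1 h2
  have e1 := Real.sin_sq_add_cos_sq (Real.pi * p.1)
  have e2 := Real.sin_sq_add_cos_sq p.2
  set s := Real.sin (Real.pi * p.1)
  set k := Real.cos (Real.pi * p.1)
  set a := Real.sin p.2
  set b := Real.cos p.2
  have hdot : (k + a ^ 2 * (1 - k)) * (s * b) + (-(a * b * (1 - k))) * (s * a) +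
      (-(b * s)) * k = 0 := by ring
  have hone : (k + a ^ 2 * (1 - k)) ^ 2 + (-(a * b * (1 - k))) ^ 2 + (-(b * s)) ^ 2 = 1 := by
    have hb : b ^ 2 = 1 - a ^ 2 := by linarith
    have hs : s ^ 2 = 1 - k ^ 2 := by linarith
    calc (k + a ^ 2 * (1 - k)) ^ 2 + (-(a * b * (1 - k))) ^ 2 + (-(b * s)) ^ 2 =
        (k + a ^ 2 * (1 - k)) ^ 2 + a ^ 2 * b ^ 2 * (1 - k) ^ 2 + b ^ 2 * s ^ 2 := by ring
      _ = 1 := by rw [hb, hs]; ring
  have : (k + a ^ 2 * (1 - k)) ^ 2 + (-(a * b * (1 - k))) ^ 2 + (-(b * s)) ^ 2 = 0 := by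
    have : (k + a ^ 2 * (1 - k)) ^ 2 + (-(a * b * (1 - k))) ^ 2 + (-(b * s)) ^ 2 =
      c * ((k + a ^ 2 * (1 - k)) * (s * b) + (-(a * b * (1 - k))) * (s * a) +
      (-(b * s)) * k) := by
      linear_combination (k + a ^ 2 * (1 - k)) * h0 + (-(a * b * (1 - k))) * h1 +
        (-(b * s)) * h2
    rw [this, hdot, mul_zero]
  linarith

theorem yy_cont : Continuous yy := by
  unfold yy
  refine continuous_pi fun i => ?_
  fin_cases i <;> simp <;> fun_prop

theorem uu_cont : Continuous uu := by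
  unfold uu
  refine continuous_pi fun i => ?_
  fin_cases i <;> simp <;> fun_prop

theorem T3_neg (y a b c : Fin 3 → ℝ) : T3 Q y (-a) (-b) (-c) = - T3 Q y a b c := by
  rw [T3_eq, T3_eq]
  simp only [← Finset.sum_neg_distrib]
  refine Finset.sum_congr rfl fun i _ => Finset.sum_congr rfl fun j _ =>
    Finset.sum_congr rfl fun k _ => ?_
  simp only [Pi.neg_apply]
  ring

theorem w1_neg (y u : Fin 3 → ℝ) : w1 Q y (-u) = - w1 Q y u := by
  unfold w1
  rw [neg_dotProduct, neg_div, neg_smul]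
  abel

theorem w2_neg (y u : Fin 3 → ℝ) : w2 Q y (-u) = - w2 Q y u := by
  have h : cr y (-u) = - cr y u := by
    ext i
    fin_cases i <;> simp [cr] <;> ring
  unfold w2
  rw [h, Matrix.mulVec_neg, smul_neg]

theorem Hc_neg (y u : Fin 3 → ℝ) : Hc Q y (-u) = - Hc Q y u := by
  unfold Hc
  rw [w1_neg, w2_neg, T3_neg, T3_neg, T3_neg, T3_neg]
  push_cast
  ring

variable (hQ : MN Q)

include hQ

omit hQ in
theorem cont_sm {f : (Fin 3 → ℝ) → ℝ} (hf : Sm f) : Continuous fun p => f (yy p) := by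
  rw [continuous_iff_continuousAt]
  intro p
  exact ContinuousAt.comp (f := yy) (hf _ (yy_ne p)).continuousAt yy_cont.continuousAt

theorem Hc_cont : Continuous fun p => Hc Q (yy p) (uu p) := by
  have hA : Continuous fun p => A Q (yy p) :=
    continuous_matrix fun i j => cont_sm ((hQ.sm.pd j).pd i)
  have hP : Continuous fun p => (A Q (yy p))⁻¹ :=
    continuous_matrix fun i j => cont_sm (P_sm hQ i j)
  have hN : Continuous fun p => yy p ⬝ᵥ A Q (yy p) *ᵥ yy p :=
    yy_cont.dotProduct (hA.matrix_mulVec yy_cont)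
  have hM : Continuous fun p => uu p ⬝ᵥ A Q (yy p) *ᵥ yy p :=
    uu_cont.dotProduct (hA.matrix_mulVec yy_cont)
  have hN0 : ∀ p, yy p ⬝ᵥ A Q (yy p) *ᵥ yy p ≠ 0 := fun p => (N_pos hQ (yy_ne p)).ne'
  have hw1 : Continuous fun p => w1 Q (yy p) (uu p) := by
    unfold w1
    exact uu_cont.sub ((hM.div hN hN0).smul yy_cont)
  have hcr : Continuous fun p => cr (yy p) (uu p) := by
    have h1 : ∀ i, Continuous fun p => yy p i := fun i => (continuous_apply i).comp yy_cont
    have h2 : ∀ i, Continuous fun p => uu p i := fun i => (continuous_apply i).comp uu_cont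
    refine continuous_pi fun i => ?_
    fin_cases i
    · exact ((h1 1).mul (h2 2)).sub ((h1 2).mul (h2 1))
    · exact ((h1 2).mul (h2 0)).sub ((h1 0).mul (h2 2))
    · exact ((h1 0).mul (h2 1)).sub ((h1 1).mul (h2 0))
  have hw2 : Continuous fun p => w2 Q (yy p) (uu p) := by
    unfold w2
    exact (hA.matrix_det.div hN hN0).sqrt.smul (hP.matrix_mulVec hcr)
  have hT : ∀ a b c : ℝ × ℝ → Fin 3 → ℝ, Continuous a → Continuous b → Continuous c →
      Continuous fun p => T3 Q (yy p) (a p) (b p) (c p) := by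
    intro a b c ha hb hc
    simp only [T3_eq]
    refine continuous_finsetSum _ fun i _ => continuous_finsetSum _ fun j _ =>
      continuous_finsetSum _ fun k _ => ?_
    exact ((((continuous_apply i).comp ha).mul ((continuous_apply j).comp hb)).mul
      ((continuous_apply k).comp hc)).mul (cont_sm (((hQ.sm.pd k).pd j).pd i))
  unfold Hc
  refine (Complex.continuous_ofReal.comp ?_).add
    ((Complex.continuous_ofReal.comp ?_).mul continuous_const)
  · exact (hT _ _ _ hw1 hw1 hw1).sub (continuous_const.mul (hT _ _ _ hw1 hw2 hw2))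
  · exact (continuous_const.mul (hT _ _ _ hw1 hw1 hw2)).sub (hT _ _ _ hw2 hw2 hw2)

/-- there is no norm in dimension three with everywhere negative `rho` -/
theorem not_neg (h : ∀ y, y ≠ 0 → rho Q y < 0) : False := by
  refine no_family (fun p => Hc Q (yy p) (uu p)) (Hc_cont hQ)
    (fun p => Hc_ne hQ (yy_ne p) (uu_ne p) (h _ (yy_ne p))) ?_ ?_ ?_
  · intro θ
    have e1 : yy (0, θ) = yy (0, 0) := by
      unfold yy; simp
    have e2 : uu (0, θ) = uu (0, 0) := by
      unfold uu; simp
    simp only [e1, e2]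
  · intro t θ
    have e1 : yy (t, θ + 2 * Real.pi) = yy (t, θ) := by
      unfold yy; simp
    have e2 : uu (t, θ + 2 * Real.pi) = uu (t, θ) := by
      unfold uu; simp
    simp only [e1, e2]
  · intro θ
    have e1 : yy (1, θ + Real.pi / 2) = yy (1, θ) := by
      unfold yy; simp
    have e2 : uu (1, θ + Real.pi / 2) = - uu (1, θ) := by
      unfold uu
      have e := Real.sin_sq_add_cos_sq θ
      ext i
      fin_cases i
      · simp [Real.sin_add_pi_div_two, Real.cos_add_pi_div_two]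
        linarith
      · simp [Real.sin_add_pi_div_two, Real.cos_add_pi_div_two]
        ring
      · simp
    simp only [e1, e2, Hc_neg]

/-- a norm in dimension three with constant `Q rho` is flat -/
theorem flat3 {c : ℝ} (hc : ∀ y, y ≠ 0 → Q y * rho Q y = c) {y : Fin 3 → ℝ} (hy : y ≠ 0)
    (a b : Fin 3) : SM Q a b y = 0 := by
  obtain ⟨y0, hy0, hth⟩ := t_jac 3 (by norm_num) Q hQ
  have h1 : c ≤ 0 := by
    rw [← hc y0 hy0]
    exact mul_nonpos_of_nonneg_of_nonpos (hQ.pos _ hy0).le (rho_nonpos hQ hy0 hth)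
  have h2 : c = 0 := by
    by_contra hcon
    have hneg : c < 0 := lt_of_le_of_ne h1 hcon
    refine not_neg hQ fun z hz => ?_
    have h3 := hc z hz
    have h4 := hQ.pos z hz
    by_contra h5
    push Not at h5
    have := mul_nonneg h4.le h5
    linarith
  have h3 : rho Q y = 0 := by
    have h4 := hc y hy
    rw [h2] at h4
    exact (mul_eq_zero.1 h4).resolve_left (hQ.pos y hy).ne'
  obtain ⟨s, hs⟩ := exists_s hQ hy
  obtain ⟨k, hk, hrho⟩ := rho_s hQ hy hs
  rw [h3] at hrho
  have hs0 : s = 0 := (mul_eq_zero.1 hrho.symm).resolve_right hk.ne'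
  rw [hs, hs0, zero_smul]

end Pool.Agent.H792.KF
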