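import Pool.Agent.H792.KF.Tens

/-!
# Derivatives along the geodesic flow: evaluation in the direction of the flow
-/

set_option autoImplicit false

open scoped BigOperators ContDiff Topology Matrix
open Filter Set

namespace Pool.Agent.H792.KF

open Pool.Agent.R774.BW Pool.Agent.H792.Gen Pool.Agent.H792.LF

variable {n : ℕ}

/-- the connection applied to `w` -/
noncomputable def Nw (G : (Fin n → ℝ) → (Fin n → ℝ) → (Fin n → ℝ)) (w x y : Fin n → ℝ) :
    Fin n → ℝ := fun i => dd w (fun z => G x z i) y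

/-- the second derivative of `F²` on `w` -/
noncomputable def al (F : (Fin n → ℝ) → (Fin n → ℝ) → ℝ) (w x y : Fin n → ℝ) : ℝ :=
  dd w (dd w (q F x)) y

/-- the fourth derivative of `F²` on `w` -/
noncomputable def ul (F : (Fin n → ℝ) → (Fin n → ℝ) → ℝ) (w x y : Fin n → ℝ) : ℝ :=
  dd w (dd w (dd w (dd w (q F x)))) y

/-- the lowered Berwald curvature on `w` -/
noncomputable def bl (F : (Fin n → ℝ) → (Fin n → ℝ) → ℝ)
    (G : (Fin n → ℝ) → (Fin n → ℝ) → (Fin n → ℝ)) (w x y : Fin n → ℝ) : ℝ :=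
  ∑ j, dd w (dd w (dd w (fun z => G x z j))) y * dd w (pd j (q F x)) y

/-- the Berwald curvature is parallel along the geodesic flow, at `x` -/
def Para (G : (Fin n → ℝ) → (Fin n → ℝ) → (Fin n → ℝ)) (x : Fin n → ℝ) : Prop :=
  ∀ w y, y ≠ 0 → ∀ i,
    Dh (N G y) y (fun x y => dd w (dd w (dd w (fun z => G x z i))) y) x y =
      3 * ∑ j, dd w (fun z => G x z j) y * dd w (dd w (pd j (fun z => G x z i))) y -
      ∑ j, dd w (dd w (dd w (fun z => G x z j))) y * pd j (fun z => G x z i) y

variable {U : Set (Fin n → ℝ)} {F : (Fin n → ℝ) → (Fin n → ℝ) → ℝ}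
  {G : (Fin n → ℝ) → (Fin n → ℝ) → (Fin n → ℝ)}
  (hF : IsFinsler U F) (hG : IsSpray U F G)

include hF hG

theorem ev1 (w : Fin n → ℝ) (i : Fin n) {x y : Fin n → ℝ} (hx : x ∈ U) (hy : y ≠ 0) :
    dd w (N G y i x) y = dd w (fun z => G x z i) y := by
  have h := euler_c1 (G_hom hF hG hx i) ((G_JS hF hG i).sm hx) w hy
  have e : dd w (N G y i x) y = dd w (dd y (fun z => G x z i)) y := rfl
  rw [e, h]
  norm_num

theorem ev2 (w : Fin n → ℝ) (i : Fin n) {x y : Fin n → ℝ} (hx : x ∈ U) (hy : y ≠ 0) :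
    dd w (dd w (N G y i x)) y = 0 := by
  have h := euler_c2 (G_hom hF hG hx i) ((G_JS hF hG i).sm hx) w hy
  have e : dd w (dd w (N G y i x)) y = dd w (dd w (dd y (fun z => G x z i))) y := rfl
  rw [e, h]
  norm_num

theorem ev3 (w : Fin n → ℝ) (i : Fin n) {x y : Fin n → ℝ} (hx : x ∈ U) (hy : y ≠ 0) :
    dd w (dd w (dd w (N G y i x))) y = - dd w (dd w (dd w (fun z => G x z i))) y := by
  have h := euler_c3 (G_hom hF hG hx i) ((G_JS hF hG i).sm hx) w hy
  have e : dd w (dd w (dd w (N G y i x))) y = dd w (dd w (dd w (dd y (fun z => G x z i)))) y := rfl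
  rw [e, h]
  norm_num

theorem ev4 (w : Fin n → ℝ) (i : Fin n) {x y : Fin n → ℝ} (hx : x ∈ U) (hy : y ≠ 0) :
    dd w (dd w (dd w (dd w (N G y i x)))) y =
      - 2 * dd w (dd w (dd w (dd w (fun z => G x z i)))) y := by
  have h := euler_c4 (G_hom hF hG hx i) ((G_JS hF hG i).sm hx) w hy
  have e : dd w (dd w (dd w (dd w (N G y i x)))) y =
    dd w (dd w (dd w (dd w (dd y (fun z => G x z i))))) y := rfl
  rw [e, h]
  norm_num

/-- `F` is constant along the flow -/
theorem flow_q {x y : Fin n → ℝ} (hx : x ∈ U) (hy : y ≠ 0) :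
    Dh (N G y) y (q F) x y = 0 := Dq hF hG y hx hy

theorem flow_al (w : Fin n → ℝ) {x y : Fin n → ℝ} (hx : x ∈ U) (hy : y ≠ 0) :
    Dh (N G y) y (al F w) x y = 2 * dd (Nw G w x y) (dd w (q F x)) y := by
  have h := Dq_2 hF hG y w hx hy
  have e : Dh (N G y) y (al F w) x y =
    Dh (N G y) y (fun x y => dd w (dd w (q F x)) y) x y := rfl
  have hQ := (q_mn hF hx).sm
  rw [e, h, dd_eq (Nw G w x y)]
  simp only [ev2 hF hG w _ hx hy, ev1 hF hG w _ hx hy, zero_mul, Finset.sum_const_zero, zero_add]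
  congr 1
  exact Finset.sum_congr rfl fun j _ => by rw [dd_pd hQ w j hy]; rfl

theorem flow_ul (hL : IsLandsberg U F G) (w : Fin n → ℝ) {x y : Fin n → ℝ} (hx : x ∈ U)
    (hy : y ≠ 0) : Dh (N G y) y (ul F w) x y =
      -2 * bl F G w x y + 4 * dd (Nw G w x y) (dd w (dd w (dd w (q F x)))) y := by
  have h := Dq_4 hF hG y w hx hy
  have e : Dh (N G y) y (ul F w) x y =
    Dh (N G y) y (fun x y => dd w (dd w (dd w (dd w (q F x)))) y) x y := rfl
  have hQ := (q_mn hF hx).sm
  have hGs : ∀ i, Sm (fun z => G x z i) := fun i => (G_JS hF hG i).sm hx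
  -- the derivative of the Landsberg condition
  have h1 : ∑ j, dd w (dd w (dd w (dd w (fun z => G x z j)))) y * pd j (q F x) y =
      - bl F G w x y := by
    have h2 : dd w (fun y => ∑ i, dd w (dd w (dd w (fun z => G x z i))) y * pd i (q F x) y) y =
        0 := by
      rw [dd_congr (g := fun _ => (0:ℝ)) (fun z hz => ?_) w hy]
      · simp [Gen.dd]
      · have h3 := lands_vec hF hG hL hx z hz w w w
        rw [← h3]
        exact Finset.sum_congr rfl fun i _ => mul_comm _ _
    rw [dd_sum_mul (fun i _ => Sm.dd (Sm.dd (Sm.dd (hGs i) w) w) w) (fun i _ => hQ.pd i) w hy]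
      at h2
    unfold bl
    linarith
  rw [e, h, dd_eq (Nw G w x y)]
  simp only [ev1 hF hG w _ hx hy, ev2 hF hG w _ hx hy, ev3 hF hG w _ hx hy, ev4 hF hG w _ hx hy,
    zero_mul, Finset.sum_const_zero, mul_zero, add_zero]
  have e1 : ∑ j, -2 * dd w (dd w (dd w (dd w (fun z => G x z j)))) y * pd j (q F x) y =
      -2 * ∑ j, dd w (dd w (dd w (dd w (fun z => G x z j)))) y * pd j (q F x) y := by
    rw [Finset.mul_sum]
    exact Finset.sum_congr rfl fun j _ => by ring
  have e2 : ∑ j, -dd w (dd w (dd w (fun z => G x z j))) y * dd w (pd j (q F x)) y =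
      - bl F G w x y := by
    unfold bl
    rw [← Finset.sum_neg_distrib]
    exact Finset.sum_congr rfl fun j _ => by ring
  have e3 : ∑ j, dd w (fun z => G x z j) y * dd w (dd w (dd w (pd j (q F x)))) y =
      ∑ j, Nw G w x y j * pd j (dd w (dd w (dd w (q F x)))) y :=
    Finset.sum_congr rfl fun j _ => by rw [dd_pd3 hQ w j hy]; rfl
  rw [e1, e2, e3, h1]
  ring

/-- the derivative of the lowered Berwald curvature along the flow -/
theorem flow_bl (hL : IsLandsberg U F G) {x : Fin n → ℝ} (hP : Para G x) (w : Fin n → ℝ)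
    {y : Fin n → ℝ} (hx : x ∈ U)
    (hy : y ≠ 0) : Dh (N G y) y (bl F G w) x y =
      3 * ∑ j, dd (Nw G w x y) (dd w (dd w (fun z => G x z j))) y * dd w (pd j (q F x)) y +
      ∑ j, dd w (dd w (dd w (fun z => G x z j))) y * dd (Nw G w x y) (pd j (q F x)) y := by
  have hU := hF.isOpen
  have hQ := (q_mn hF hx).sm
  have hGs : ∀ i, Sm (fun z => G x z i) := fun i => (G_JS hF hG i).sm hx
  have j1 : ∀ j, JS U (fun x y => dd w (dd w (dd w (fun z => G x z j))) y) := fun j =>
    JS.dy hU (JS.dy hU (JS.dy hU (G_JS hF hG j) w) w) w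
  have j2 : ∀ j, JS U (fun x y => dd w (pd j (q F x)) y) := fun j =>
    JS.dy hU ((q_JS hF).pd hU j) w
  have e : Dh (N G y) y (bl F G w) x y = Dh (N G y) y (fun x y => ∑ j,
    dd w (dd w (dd w (fun z => G x z j))) y * dd w (pd j (q F x)) y) x y := rfl
  rw [e, Dh_sum (fun j _ => (j1 j).mul (j2 j)) hx hy]
  have h1 : ∀ j, Dh (N G y) y (fun x y => dd w (dd w (dd w (fun z => G x z j))) y *
      dd w (pd j (q F x)) y) x y =
      (3 * ∑ k, dd w (fun z => G x z k) y * dd w (dd w (pd k (fun z => G x z j))) y -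
      ∑ k, dd w (dd w (dd w (fun z => G x z k))) y * pd k (fun z => G x z j) y) *
        dd w (pd j (q F x)) y +
      dd w (dd w (dd w (fun z => G x z j))) y * Dh (N G y) y (fun x y => dd w (pd j (q F x)) y)
        x y := by
    intro j
    rw [Dh_mul (j1 j) (j2 j) hx hy, hP w y hy j]
  -- the metric is parallel
  have h2 : ∀ j, Dh (N G y) y (fun x y => dd w (pd j (q F x)) y) x y =
      ∑ i, dd w (fun z => G x z i) y * pd i (pd j (q F x)) y +
      ∑ i, dd w (pd i (q F x)) y * pd j (fun z => G x z i) y := by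
    intro j
    have e1 : Dh (N G y) y (fun x y => dd w (pd j (q F x)) y) x y =
        Dh (N G y) y (fun x y => ∑ a, w a * pd a (pd j (q F x)) y) x y :=
      Dh_congr hU (fun x hx y hy => dd_eq w (pd j (q F x)) y) hx hy
    have e2 : ∀ a, Dh (N G y) y (fun x y => w a * pd a (pd j (q F x)) y) x y =
        w a * (∑ i, pd a (fun z => G x z i) y * pd i (pd j (q F x)) y +
        ∑ i, pd a (pd i (q F x)) y * pd j (fun z => G x z i) y) := by
      intro a
      rw [Dh_mul (JS.const (w a)) (((q_JS hF).pd hU j).pd hU a) hx hy, Dh_const, zero_mul,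
        zero_add, Dq2 hF hG hL y hx hy a j]
      congr 2
      · refine Finset.sum_congr rfl fun i _ => ?_
        have := ev1 hF hG (Pi.single a 1) i hx hy
        rw [dd_single, dd_single] at this
        rw [this]
      · refine Finset.sum_congr rfl fun i _ => ?_
        have := ev1 hF hG (Pi.single j 1) i hx hy
        rw [dd_single, dd_single] at this
        rw [this]
    rw [e1, Dh_sum (fun a _ => (JS.const (w a)).mul (((q_JS hF).pd hU j).pd hU a)) hx hy]
    simp only [e2, mul_add, Finset.sum_add_distrib, Finset.mul_sum]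
    congr 1
    · rw [Finset.sum_comm]
      refine Finset.sum_congr rfl fun i _ => ?_
      rw [dd_eq w, Finset.sum_mul]
      exact Finset.sum_congr rfl fun a _ => by ring
    · rw [Finset.sum_comm]
      refine Finset.sum_congr rfl fun i _ => ?_
      rw [dd_eq w, Finset.sum_mul]
      exact Finset.sum_congr rfl fun a _ => by ring
  have h3 : ∀ j, dd (Nw G w x y) (dd w (dd w (fun z => G x z j))) y =
      ∑ k, dd w (fun z => G x z k) y * dd w (dd w (pd k (fun z => G x z j))) y := by
    intro j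
    rw [dd_eq]
    exact Finset.sum_congr rfl fun k _ => by rw [dd_pd2 (hGs j) w k hy]; rfl
  have h4 : ∀ j, dd (Nw G w x y) (pd j (q F x)) y =
      ∑ i, dd w (fun z => G x z i) y * pd i (pd j (q F x)) y := fun j => dd_eq _ _ _
  simp only [h1, h2, h3, h4, Finset.sum_add_distrib, mul_add, sub_mul, Finset.sum_sub_distrib]
  have h5 : ∑ j, (∑ k, dd w (dd w (dd w (fun z => G x z k))) y * pd k (fun z => G x z j) y) *
      dd w (pd j (q F x)) y = ∑ j, dd w (dd w (dd w (fun z => G x z j))) y *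
        ∑ i, dd w (pd i (q F x)) y * pd j (fun z => G x z i) y := by
    simp only [Finset.sum_mul, Finset.mul_sum]
    rw [Finset.sum_comm]
    exact Finset.sum_congr rfl fun i _ => Finset.sum_congr rfl fun j _ => by ring
  rw [h5, Finset.mul_sum]
  have h6 : ∑ j, 3 * (∑ k, dd w (fun z => G x z k) y * dd w (dd w (pd k (fun z => G x z j))) y) *
      dd w (pd j (q F x)) y = ∑ j, 3 * ((∑ k, dd w (fun z => G x z k) y *
        dd w (dd w (pd k (fun z => G x z j))) y) * dd w (pd j (q F x)) y) :=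
    Finset.sum_congr rfl fun j _ => by ring
  rw [h6]
  ring

omit hF hG in
/-- the curvature fields are linear at `x` -/
def RLin (G : (Fin n → ℝ) → (Fin n → ℝ) → (Fin n → ℝ)) (x : Fin n → ℝ) : Prop :=
  ∀ v w i y, y ≠ 0 → dd w (dd w (Rc G v w i x)) y = 0

/-- **Bianchi identity**: linear curvature makes the Berwald curvature parallel along the flow -/
theorem para_of_lin {x : Fin n → ℝ} (hx : x ∈ U) (h : RLin G x) : Para G x := by
  intro w y hy i
  have hU := hF.isOpen
  have hGs : ∀ i, Sm (fun z => G x z i) := fun i => (G_JS hF hG i).sm hx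
  have hNJ : ∀ v i, JS U (N G v i) := fun v i => N_JS hF hG v i
  have h0 := h y w i y hy
  have hsub : dd w (dd w (Rc G y w i x)) y =
      dd w (dd w (Dh (N G w) w (N G y i) x)) y - dd w (dd w (Dh (N G y) y (N G w i) x)) y := by
    have s1 : Sm (Dh (N G w) w (N G y i) x) := (JS.Dh hU (hNJ _ _) (hNJ _)).sm hx
    have s2 : Sm (Dh (N G y) y (N G w i) x) := (JS.Dh hU (hNJ _ _) (hNJ _)).sm hx
    have e : ∀ {f g : (Fin n → ℝ) → ℝ}, Sm f → Sm g → ∀ z, z ≠ 0 →
        dd w (fun z => f z - g z) z = dd w f z - dd w g z := by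
      intro f g hf hg z hz
      unfold Gen.dd
      rw [fderiv_fun_sub (hf.diff hz) (hg.diff hz)]
      rfl
    have e1 : dd w (dd w (Rc G y w i x)) y = dd w (fun z => dd w (Dh (N G w) w (N G y i) x) z -
        dd w (Dh (N G y) y (N G w i) x) z) y :=
      dd_congr (fun z hz => e s1 s2 z hz) w hy
    rw [e1, e (Sm.dd s1 w) (Sm.dd s2 w) y hy]
  rw [hsub] at h0
  have k1 := Dh_dd2 hU (hNJ w i) (hNJ y) y w hx hy
  have k2 := Dh_dd2 hU (hNJ y i) (hNJ w) w w hx hy
  -- evaluation in `k1`
  have a1 : ∑ j, dd w (dd w (N G y j x)) y * pd j (N G w i x) y = 0 := by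
    simp only [ev2 hF hG w _ hx hy, zero_mul, Finset.sum_const_zero]
  have a2 : ∑ j, dd w (N G y j x) y * dd w (pd j (N G w i x)) y =
      ∑ j, dd w (fun z => G x z j) y * dd w (dd w (pd j (fun z => G x z i))) y := by
    refine Finset.sum_congr rfl fun j _ => ?_
    rw [ev1 hF hG w j hx hy]
    congr 1
    exact dd_congr (fun z hz => (dd_pd (hGs i) w j hz).symm) w hy
  -- evaluation in `k2`
  have b1 : ∑ j, dd w (dd w (N G w j x)) y * pd j (N G y i x) y =
      ∑ j, dd w (dd w (dd w (fun z => G x z j))) y * pd j (fun z => G x z i) y := by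
    refine Finset.sum_congr rfl fun j _ => ?_
    have := ev1 hF hG (Pi.single j 1) i hx hy
    rw [dd_single, dd_single] at this
    rw [this]
    rfl
  have b2 : ∑ j, dd w (N G w j x) y * dd w (pd j (N G y i x)) y = 0 := by
    refine Finset.sum_eq_zero fun j _ => ?_
    have e1 : dd w (pd j (N G y i x)) y = dd y (dd w (pd j (fun z => G x z i))) y := by
      have e2 : dd w (pd j (N G y i x)) y = dd w (dd y (pd j (fun z => G x z i))) y :=
        dd_congr (fun z hz => (dd_pd (hGs i) y j hz).symm) w hy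
      rw [e2, dd_comm ((hGs i).pd j) w y hy]
    have e3 : dd y (dd w (pd j (fun z => G x z i))) y = 0 := by
      have hh : Hom (2 - 1 - 1) (dd w (pd j (fun z => G x z i))) :=
        Hom.dd' ((G_hom hF hG hx i).pd (hGs i) j) ((hGs i).pd j) w
      rw [euler_dd hh (Sm.dd ((hGs i).pd j) w) hy]
      norm_num
    rw [e1, e3, mul_zero]
  -- the derivative of the second derivative of the connection
  have c1 : Dh (N G w) w (fun x' y' => dd w (dd w (N G y i x')) y') x y =
      ∑ k, dd w (fun z => G x z k) y * dd w (dd w (pd k (fun z => G x z i))) y := by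
    have hJ : ∀ k, JS U (fun x y => dd w (dd w (pd k (fun z => G x z i))) y) := fun k =>
      JS.dy hU (JS.dy hU ((G_JS hF hG i).pd hU k) w) w
    have e1 : ∀ v : Fin n → ℝ, ∀ x' ∈ U, ∀ y', y' ≠ 0 → dd w (dd w (N G v i x')) y' =
        ∑ k, v k * dd w (dd w (pd k (fun z => G x' z i))) y' := by
      intro v x' hx' y' hy'
      exact dd_dd_dd_eq ((G_JS hF hG i).sm hx') w w v hy'
    have e2 : Dh (N G w) w (fun x' y' => dd w (dd w (N G y i x')) y') x y =
        ∑ k, y k * Dh (N G w) w (fun x y => dd w (dd w (pd k (fun z => G x z i))) y) x y := by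
      rw [Dh_congr hU (fun x' hx' y' hy' => e1 y x' hx' y' hy') hx hy,
        Dh_sum (fun k _ => (JS.const (y k)).mul (hJ k)) hx hy]
      refine Finset.sum_congr rfl fun k _ => ?_
      rw [Dh_mul (JS.const (y k)) (hJ k) hx hy, Dh_const, zero_mul, zero_add]
    have e3 : Dh (N G w) w (fun x' y' => ∑ k, y' k *
        dd w (dd w (pd k (fun z => G x' z i))) y') x y = 0 := by
      rw [Dh_congr hU (g := fun _ _ => 0) (fun x' hx' y' hy' => ?_) hx hy, Dh_const]
      rw [← e1 y' x' hx' y' hy']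
      exact ev2 hF hG w i hx' hy'
    rw [Dh_sum (fun k _ => (JS.coord k).mul (hJ k)) hx hy] at e3
    have e4 : ∀ k, Dh (N G w) w (fun x' y' => y' k *
        dd w (dd w (pd k (fun z => G x' z i))) y') x y =
        - (dd w (fun z => G x z k) y * dd w (dd w (pd k (fun z => G x z i))) y) +
        y k * Dh (N G w) w (fun x y => dd w (dd w (pd k (fun z => G x z i))) y) x y := by
      intro k
      rw [Dh_mul (JS.coord k) (hJ k) hx hy]
      have e5 : Dh (N G w) w (fun _ y' => y' k) x y = - dd w (fun z => G x z k) y := by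
        unfold Dh LF.dx
        have e6 : fderiv ℝ (fun _ : Fin n → ℝ => y k) x w = 0 := by simp
        rw [e6, zero_sub]
        simp only [pd_coord]
        simp only [mul_ite, mul_one, mul_zero, Finset.sum_ite_eq, Finset.mem_univ, if_true]
        rfl
      rw [e5]
      ring
    simp only [e4, Finset.sum_add_distrib, Finset.sum_neg_distrib] at e3
    rw [e2]
    linarith
  rw [a1, a2] at k1
  rw [b1, b2, c1] at k2
  have e7 : Dh (N G y) y (fun x y => dd w (dd w (dd w (fun z => G x z i))) y) x y =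
    Dh (N G y) y (fun x y => dd w (dd w (N G w i x)) y) x y := rfl
  rw [e7, k1]
  linarith

end Pool.Agent.H792.KF
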