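import Pool.Agent.H792.KF.Rho
import Pool.Agent.H792.KF.Alg3

/-!
# Norms in dimension three: adapted frames
-/

set_option autoImplicit false

open scoped BigOperators ContDiff Topology Matrix
open Filter Set

namespace Pool.Agent.H792.KF

open Pool.Agent.R774.BW Pool.Agent.H792.Gen Pool.Agent.H792.LF

section general

variable {n : ℕ} {Q : (Fin n → ℝ) → ℝ} (hQ : MN Q) {y : Fin n → ℝ} (hy : y ≠ 0)

include hQ hy

theorem TM_transpose (a : Fin n) : (TM Q a y)ᵀ = TM Q a y := by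
  ext b c
  exact pd3_symm2 hQ a c b hy

theorem TM_swap (a b c : Fin n) : TM Q a y b c = TM Q b y a c := pd3_symm1 hQ a b c hy

theorem y_TM (a : Fin n) : y ᵥ* TM Q a y = 0 := by
  ext c
  simp only [Matrix.vecMul, dotProduct, TM, Matrix.of_apply, Pi.zero_apply]
  rw [← euler3 hQ a c hy]
  exact Finset.sum_congr rfl fun b _ => by rw [pd3_symm1 hQ a b c hy]

theorem sum_TM : ∑ a, y a • TM Q a y = 0 := by
  ext b c
  simp only [Matrix.sum_apply, Matrix.smul_apply, TM, Matrix.of_apply, smul_eq_mul,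
    Matrix.zero_apply]
  exact euler3 hQ b c hy

theorem P_tr : ((A Q y)⁻¹)ᵀ = (A Q y)⁻¹ := by
  rw [Matrix.transpose_nonsing_inv, R774.BW.A_symm hQ hy]

omit hQ hy in
theorem SM_anti (a b : Fin n) : SM Q a b y = - SM Q b a y := by
  unfold SM
  abel

theorem SM_transpose (a b : Fin n) : (SM Q a b y)ᵀ = - SM Q a b y := by
  unfold SM
  rw [Matrix.transpose_sub, Matrix.transpose_mul, Matrix.transpose_mul, Matrix.transpose_mul,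
    Matrix.transpose_mul, TM_transpose hQ hy, TM_transpose hQ hy, P_tr hQ hy]
  simp only [Matrix.mul_assoc]
  abel

theorem y_SM (a b : Fin n) : y ᵥ* SM Q a b y = 0 := by
  unfold SM
  rw [Matrix.vecMul_sub, ← Matrix.vecMul_vecMul, ← Matrix.vecMul_vecMul, ← Matrix.vecMul_vecMul,
    ← Matrix.vecMul_vecMul, y_TM hQ hy, y_TM hQ hy]
  simp

theorem sum_SM (b : Fin n) : ∑ a, y a • SM Q a b y = 0 := by
  have h : ∑ a, y a • SM Q a b y = (∑ a, y a • TM Q a y) * (A Q y)⁻¹ * TM Q b y -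
      TM Q b y * (A Q y)⁻¹ * ∑ a, y a • TM Q a y := by
    simp only [Finset.sum_mul, Finset.mul_sum, ← Finset.sum_sub_distrib]
    refine Finset.sum_congr rfl fun a _ => ?_
    unfold SM
    rw [smul_sub, Matrix.smul_mul, Matrix.smul_mul, Matrix.mul_smul]
  rw [h, sum_TM hQ hy]
  simp

end general

variable {Q : (Fin 3 → ℝ) → ℝ} (hQ : MN Q) {y : Fin 3 → ℝ} (hy : y ≠ 0)

/-- the contraction of the Cartan tensor with a vector -/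
noncomputable def Tw (Q : (Fin 3 → ℝ) → ℝ) (y a : Fin 3 → ℝ) : Matrix (Fin 3) (Fin 3) ℝ :=
  ∑ i, a i • TM Q i y

/-- the first vector of the frame -/
noncomputable def w1 (Q : (Fin 3 → ℝ) → ℝ) (y u : Fin 3 → ℝ) : Fin 3 → ℝ :=
  u - ((u ⬝ᵥ A Q y *ᵥ y) / (y ⬝ᵥ A Q y *ᵥ y)) • y

/-- the second vector of the frame -/
noncomputable def w2 (Q : (Fin 3 → ℝ) → ℝ) (y u : Fin 3 → ℝ) : Fin 3 → ℝ :=
  √((A Q y).det / (y ⬝ᵥ A Q y *ᵥ y)) • ((A Q y)⁻¹ *ᵥ cr y u)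

/-- the common squared length -/
noncomputable def lam (Q : (Fin 3 → ℝ) → ℝ) (y u : Fin 3 → ℝ) : ℝ :=
  (u ⬝ᵥ A Q y *ᵥ u) - (u ⬝ᵥ A Q y *ᵥ y) ^ 2 / (y ⬝ᵥ A Q y *ᵥ y)

include hQ hy

theorem N_pos : 0 < y ⬝ᵥ A Q y *ᵥ y := by
  have := (A_posDef hQ hy).dotProduct_mulVec_pos hy
  simpa using this

theorem A_dot (a b : Fin 3 → ℝ) : a ⬝ᵥ A Q y *ᵥ b = b ⬝ᵥ A Q y *ᵥ a := by
  rw [Matrix.dotProduct_mulVec, ← Matrix.mulVec_transpose, R774.BW.A_symm hQ hy, dotProduct_comm]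

theorem w1_y (u : Fin 3 → ℝ) : w1 Q y u ⬝ᵥ A Q y *ᵥ y = 0 := by
  have hN := (N_pos hQ hy).ne'
  unfold w1
  rw [sub_dotProduct, smul_dotProduct, smul_eq_mul]
  field_simp
  ring

theorem A_w2 (u : Fin 3 → ℝ) : A Q y *ᵥ w2 Q y u =
    √((A Q y).det / (y ⬝ᵥ A Q y *ᵥ y)) • cr y u := by
  unfold w2
  rw [Matrix.mulVec_smul, Matrix.mulVec_mulVec, APy hQ hy, Matrix.one_mulVec]

omit hQ hy in
theorem cr_dot1 (y u : Fin 3 → ℝ) : y ⬝ᵥ cr y u = 0 := by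
  simp only [dotProduct, cr, Fin.sum_univ_three, Matrix.cons_val_zero, Matrix.cons_val_one,
    Matrix.cons_val_two, Matrix.tail_cons, Matrix.head_cons]
  ring

omit hQ hy in
theorem cr_dot2 (y u : Fin 3 → ℝ) : u ⬝ᵥ cr y u = 0 := by
  simp only [dotProduct, cr, Fin.sum_univ_three, Matrix.cons_val_zero, Matrix.cons_val_one,
    Matrix.cons_val_two, Matrix.tail_cons, Matrix.head_cons]
  ring

theorem y_w2 (u : Fin 3 → ℝ) : y ⬝ᵥ A Q y *ᵥ w2 Q y u = 0 := by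
  rw [A_w2 hQ hy, dotProduct_smul, cr_dot1, smul_zero]

theorem w1_w2 (u : Fin 3 → ℝ) : w1 Q y u ⬝ᵥ A Q y *ᵥ w2 Q y u = 0 := by
  rw [A_w2 hQ hy, dotProduct_smul]
  unfold w1
  rw [sub_dotProduct, smul_dotProduct, cr_dot1, cr_dot2]
  simp

theorem w1_w1 (u : Fin 3 → ℝ) : w1 Q y u ⬝ᵥ A Q y *ᵥ w1 Q y u = lam Q y u := by
  have hN := (N_pos hQ hy).ne'
  have h1 : w1 Q y u ⬝ᵥ A Q y *ᵥ w1 Q y u = w1 Q y u ⬝ᵥ A Q y *ᵥ u := by
    conv_lhs => rw [show A Q y *ᵥ w1 Q y u = A Q y *ᵥ u -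
      ((u ⬝ᵥ A Q y *ᵥ y) / (y ⬝ᵥ A Q y *ᵥ y)) • A Q y *ᵥ y by
        unfold w1; rw [Matrix.mulVec_sub, Matrix.mulVec_smul]]
    rw [dotProduct_sub, dotProduct_smul, w1_y hQ hy]
    simp
  rw [h1]
  unfold w1 lam
  rw [sub_dotProduct, smul_dotProduct, A_dot hQ hy y u, smul_eq_mul]
  ring

theorem w2_w2 (u : Fin 3 → ℝ) : w2 Q y u ⬝ᵥ A Q y *ᵥ w2 Q y u = lam Q y u := by
  have hN := N_pos hQ hy
  have hd := A_det_pos hQ hy
  have hadj : (A Q y)⁻¹ = ((A Q y).det)⁻¹ • (A Q y).adjugate := by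
    rw [Matrix.inv_def, Ring.inverse_eq_inv']
  have hg : ((A Q y)⁻¹ *ᵥ cr y u) ⬝ᵥ cr y u = ((A Q y).det)⁻¹ *
      ((y ⬝ᵥ A Q y *ᵥ y) * (u ⬝ᵥ A Q y *ᵥ u) - (u ⬝ᵥ A Q y *ᵥ y) ^ 2) := by
    rw [dotProduct_comm ((A Q y)⁻¹ *ᵥ cr y u), hadj, Matrix.smul_mulVec, dotProduct_smul,
      gram3 (A Q y) (R774.BW.A_symm hQ hy), smul_eq_mul]
  rw [A_w2 hQ hy, dotProduct_smul]
  unfold w2
  rw [smul_dotProduct, hg]
  have hs : √((A Q y).det / (y ⬝ᵥ A Q y *ᵥ y)) * √((A Q y).det / (y ⬝ᵥ A Q y *ᵥ y)) =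
      (A Q y).det / (y ⬝ᵥ A Q y *ᵥ y) := Real.mul_self_sqrt (by positivity)
  unfold lam
  simp only [smul_eq_mul]
  rw [← mul_assoc, hs]
  field_simp

theorem lam_pos {u : Fin 3 → ℝ} (hu : ∀ c : ℝ, u ≠ c • y) : 0 < lam Q y u := by
  rw [← w1_w1 hQ hy]
  have h : w1 Q y u ≠ 0 := by
    intro h
    unfold w1 at h
    exact hu _ (sub_eq_zero.1 h)
  have := (A_posDef hQ hy).dotProduct_mulVec_pos h
  simpa using this

/-- the frame as a matrix -/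
noncomputable def WM (Q : (Fin 3 → ℝ) → ℝ) (y u : Fin 3 → ℝ) : Matrix (Fin 3) (Fin 3) ℝ :=
  Matrix.of fun i α => ![w1 Q y u i, w2 Q y u i, y i] α

omit hQ hy in
theorem WM_col (u : Fin 3 → ℝ) : (WM Q y u)ᵀ = Matrix.of ![w1 Q y u, w2 Q y u, y] := by
  ext α i
  fin_cases α <;> rfl

theorem WAW (u : Fin 3 → ℝ) : (WM Q y u)ᵀ * (A Q y * WM Q y u) =
    Matrix.diagonal ![lam Q y u, lam Q y u, y ⬝ᵥ A Q y *ᵥ y] := by
  have e : ∀ α β : Fin 3, ((WM Q y u)ᵀ * (A Q y * WM Q y u)) α β =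
      (![w1 Q y u, w2 Q y u, y] α) ⬝ᵥ A Q y *ᵥ (![w1 Q y u, w2 Q y u, y] β) := by
    intro α β
    have h1 : ∀ i γ, WM Q y u i γ = (![w1 Q y u, w2 Q y u, y] γ) i := by
      intro i γ
      fin_cases γ <;> rfl
    simp only [Matrix.mul_apply, Matrix.transpose_apply, dotProduct, Matrix.mulVec, h1]
  ext α β
  rw [e]
  fin_cases α <;> fin_cases β
  · simpa using w1_w1 hQ hy u
  · simpa using w1_w2 hQ hy u
  · simpa using w1_y hQ hy u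
  · simpa using (A_dot hQ hy _ _).trans (w1_w2 hQ hy u)
  · simpa using w2_w2 hQ hy u
  · simpa using (A_dot hQ hy _ _).trans (y_w2 hQ hy u)
  · simpa using (A_dot hQ hy _ _).trans (w1_y hQ hy u)
  · simpa using y_w2 hQ hy u
  · simp

theorem P_frame {u : Fin 3 → ℝ} (hu : ∀ c : ℝ, u ≠ c • y) :
    (A Q y)⁻¹ = WM Q y u * Matrix.diagonal ![(lam Q y u)⁻¹, (lam Q y u)⁻¹,
      (y ⬝ᵥ A Q y *ᵥ y)⁻¹] * (WM Q y u)ᵀ ∧ (WM Q y u).det ≠ 0 := by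
  have hl := (lam_pos hQ hy hu).ne'
  have hN := (N_pos hQ hy).ne'
  set D := Matrix.diagonal ![(lam Q y u)⁻¹, (lam Q y u)⁻¹, (y ⬝ᵥ A Q y *ᵥ y)⁻¹] with hD
  have h1 : (D * (WM Q y u)ᵀ * A Q y) * WM Q y u = 1 := by
    rw [Matrix.mul_assoc, Matrix.mul_assoc, WAW hQ hy, hD, Matrix.diagonal_mul_diagonal,
      ← Matrix.diagonal_one]
    congr 1
    ext i
    fin_cases i <;> simp [hl, hN]
  have h2 : WM Q y u * (D * (WM Q y u)ᵀ * A Q y) = 1 := mul_eq_one_comm.1 h1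
  refine ⟨?_, ?_⟩
  · apply Matrix.inv_eq_left_inv
    rw [← h2]
    simp only [Matrix.mul_assoc]
  · intro h
    have h3 := congrArg Matrix.det h2
    rw [Matrix.det_mul, h, zero_mul, Matrix.det_one] at h3
    exact zero_ne_one h3

theorem P_entry {u : Fin 3 → ℝ} (hu : ∀ c : ℝ, u ≠ c • y) (i j : Fin 3) :
    (A Q y)⁻¹ i j = (lam Q y u)⁻¹ * (w1 Q y u i * w1 Q y u j + w2 Q y u i * w2 Q y u j) +
      (y ⬝ᵥ A Q y *ᵥ y)⁻¹ * (y i * y j) := by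
  rw [(P_frame hQ hy hu).1, Matrix.mul_apply]
  simp only [Matrix.mul_diagonal, Matrix.transpose_apply, Fin.sum_univ_three, WM, Matrix.of_apply,
    Matrix.cons_val_zero, Matrix.cons_val_one, Matrix.cons_val_two, Matrix.tail_cons,
    Matrix.head_cons]
  ring

/-- contraction with `P` in the frame -/
theorem P_dot {u : Fin 3 → ℝ} (hu : ∀ c : ℝ, u ≠ c • y) (f g : Fin 3 → ℝ) (hf : f ⬝ᵥ y = 0) :
    f ⬝ᵥ (A Q y)⁻¹ *ᵥ g = (lam Q y u)⁻¹ * ((f ⬝ᵥ w1 Q y u) * (g ⬝ᵥ w1 Q y u) +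
      (f ⬝ᵥ w2 Q y u) * (g ⬝ᵥ w2 Q y u)) := by
  have h1 : f ⬝ᵥ (A Q y)⁻¹ *ᵥ g = (lam Q y u)⁻¹ * ((f ⬝ᵥ w1 Q y u) * (g ⬝ᵥ w1 Q y u) +
      (f ⬝ᵥ w2 Q y u) * (g ⬝ᵥ w2 Q y u)) + (y ⬝ᵥ A Q y *ᵥ y)⁻¹ * ((f ⬝ᵥ y) * (g ⬝ᵥ y)) := by
    have hE := P_entry hQ hy hu
    generalize (lam Q y u)⁻¹ = L at hE ⊢
    generalize (y ⬝ᵥ A Q y *ᵥ y)⁻¹ = N at hE ⊢
    generalize (A Q y)⁻¹ = M at hE ⊢
    simp only [dotProduct, Matrix.mulVec, Fin.sum_univ_three, hE]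
    ring
  rw [h1, hf]
  ring

end Pool.Agent.H792.KF
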