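import Pool.Agent.H792.LF.One
import Pool.Graph.R_seed8.R774.BW.Few

/-!
# Infinitesimal isometries of a norm
-/

set_option autoImplicit false

open scoped BigOperators ContDiff Topology Matrix
open Filter Set

namespace Pool.Agent.H792.KF

open Pool.Agent.R774.BW Pool.Agent.H792.Gen Pool.Agent.H792.LF

variable {n : ℕ}

/-- `X` is an infinitesimal isometry of the Hessian metric of `Q`, homogeneous of degree one -/
structure Kil (Q : (Fin n → ℝ) → ℝ) (X : Fin n → (Fin n → ℝ) → ℝ) : Prop where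
  sm : ∀ i, Sm (X i)
  hom : ∀ i, Hom 1 (X i)
  eq : ∀ y, y ≠ 0 → ∀ i j, ∑ a, (X a y * pd a (pd i (pd j Q)) y +
    pd a (pd j Q) y * pd i (X a) y + pd a (pd i Q) y * pd j (X a) y) = 0

/-- the lowered second derivatives -/
noncomputable def be (Q : (Fin n → ℝ) → ℝ) (X : Fin n → (Fin n → ℝ) → ℝ) (a b c : Fin n)
    (y : Fin n → ℝ) : ℝ := ∑ i, pd a (pd b (X i)) y * pd i (pd c Q) y

/-- the symmetric tensor determined by the first derivatives -/
noncomputable def W3 (Q : (Fin n → ℝ) → ℝ) (X : Fin n → (Fin n → ℝ) → ℝ) (a b c : Fin n)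
    (y : Fin n → ℝ) : ℝ := ∑ i, (X i y * pd i (pd a (pd b (pd c Q))) y +
      pd a (X i) y * pd i (pd b (pd c Q)) y + pd b (X i) y * pd i (pd a (pd c Q)) y +
      pd c (X i) y * pd i (pd a (pd b Q)) y)

section

variable {Q : (Fin n → ℝ) → ℝ} (hQ : MN Q) {X : Fin n → (Fin n → ℝ) → ℝ} (hX : Kil Q X)
  {y : Fin n → ℝ} (hy : y ≠ 0)

include hQ hX hy

/-- infinitesimal isometries are tangent to the indicatrix -/
theorem tang : ∑ a, X a y * pd a Q y = 0 := by
  have h1 : ∑ i, ∑ j, y i * y j * ∑ a, (X a y * pd a (pd i (pd j Q)) y +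
      pd a (pd j Q) y * pd i (X a) y + pd a (pd i Q) y * pd j (X a) y) = 0 := by
    simp [hX.eq y hy]
  have e0 : ∀ a, ∑ i, ∑ j, y i * y j * (X a y * pd a (pd i (pd j Q)) y) = 0 := by
    intro a
    refine Finset.sum_eq_zero fun i _ => ?_
    have h2 : ∑ j, y j * pd a (pd i (pd j Q)) y = 0 := by
      rw [← euler3 hQ a i hy]
      refine Finset.sum_congr rfl fun j _ => ?_
      rw [pd3_symm2 hQ a i j hy, pd3_symm1 hQ a j i hy]
    calc ∑ j, y i * y j * (X a y * pd a (pd i (pd j Q)) y)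
        = y i * X a y * ∑ j, y j * pd a (pd i (pd j Q)) y := by
          rw [Finset.mul_sum]; exact Finset.sum_congr rfl fun j _ => by ring
      _ = 0 := by rw [h2, mul_zero]
  have e1 : ∀ a, ∑ i, ∑ j, y i * y j * (pd a (pd j Q) y * pd i (X a) y) = X a y * pd a Q y := by
    intro a
    have h3 := (hX.hom a).euler (hX.sm a) hy
    have h4 := euler2 hQ a hy
    calc ∑ i, ∑ j, y i * y j * (pd a (pd j Q) y * pd i (X a) y)
        = (∑ i, y i * pd i (X a) y) * ∑ j, y j * pd j (pd a Q) y := by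
          rw [Finset.sum_mul_sum]
          refine Finset.sum_congr rfl fun i _ => Finset.sum_congr rfl fun j _ => ?_
          rw [pd2_symm hQ a j hy]; ring
      _ = X a y * pd a Q y := by rw [h3, h4]; push_cast; ring
  have e2 : ∀ a, ∑ i, ∑ j, y i * y j * (pd a (pd i Q) y * pd j (X a) y) = X a y * pd a Q y := by
    intro a
    rw [Finset.sum_comm, ← e1 a]
    refine Finset.sum_congr rfl fun i _ => Finset.sum_congr rfl fun j _ => ?_
    ring
  have h5 : ∑ i, ∑ j, y i * y j * ∑ a, (X a y * pd a (pd i (pd j Q)) y +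
      pd a (pd j Q) y * pd i (X a) y + pd a (pd i Q) y * pd j (X a) y) =
      ∑ a, ((∑ i, ∑ j, y i * y j * (X a y * pd a (pd i (pd j Q)) y)) +
        (∑ i, ∑ j, y i * y j * (pd a (pd j Q) y * pd i (X a) y)) +
        ∑ i, ∑ j, y i * y j * (pd a (pd i Q) y * pd j (X a) y)) := by
    simp only [Finset.mul_sum, ← Finset.sum_add_distrib]
    rw [Finset.sum_comm' (s := Finset.univ) (t := fun _ => Finset.univ)
      (t' := Finset.univ) (s' := fun _ => Finset.univ) (by simp)]
    have : ∀ i : Fin n, ∑ j, ∑ a, y j * y i * (X a y * pd a (pd j (pd i Q)) y +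
        pd a (pd i Q) y * pd j (X a) y + pd a (pd j Q) y * pd i (X a) y) =
        ∑ a, ∑ j, y j * y i * (X a y * pd a (pd j (pd i Q)) y +
        pd a (pd i Q) y * pd j (X a) y + pd a (pd j Q) y * pd i (X a) y) := fun i =>
      Finset.sum_comm
    simp only [this]
    rw [Finset.sum_comm]
    refine Finset.sum_congr rfl fun a _ => ?_
    rw [Finset.sum_comm]
    refine Finset.sum_congr rfl fun i _ => Finset.sum_congr rfl fun j _ => ?_
    ring
  rw [h5] at h1
  simp only [e0, e1, e2, zero_add, Finset.sum_add_distrib] at h1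
  linarith

omit hy in
/-- derivative of the Killing equation -/
theorem kil_d {y : Fin n → ℝ} (hy : y ≠ 0) (a b c : Fin n) :
    W3 Q X a b c y = - (be Q X a b c y + be Q X a c b y) := by
  have hs := hX.sm
  have e := pd_congr (g := fun _ => (0:ℝ)) (fun z hz => hX.eq z hz b c) a hy
  rw [pd_const, pd_sum (fun i _ => (((hs i).mul (((hQ.sm.pd c).pd b).pd i)).add
    (((hQ.sm.pd c).pd i).mul ((hs i).pd b))).add (((hQ.sm.pd b).pd i).mul ((hs i).pd c))) a hy] at e
  have e2 : ∀ i, pd a (fun y => X i y * pd i (pd b (pd c Q)) y +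
    pd i (pd c Q) y * pd b (X i) y + pd i (pd b Q) y * pd c (X i) y) y =
      (X i y * pd i (pd a (pd b (pd c Q))) y +
      pd a (X i) y * pd i (pd b (pd c Q)) y + pd b (X i) y * pd i (pd a (pd c Q)) y +
      pd c (X i) y * pd i (pd a (pd b Q)) y) + pd a (pd b (X i)) y * pd i (pd c Q) y +
      pd a (pd c (X i)) y * pd i (pd b Q) y := by
    intro i
    rw [pd_add (((hs i).mul (((hQ.sm.pd c).pd b).pd i)).add
      (((hQ.sm.pd c).pd i).mul ((hs i).pd b))) (((hQ.sm.pd b).pd i).mul ((hs i).pd c)) a hy,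
      pd_add ((hs i).mul (((hQ.sm.pd c).pd b).pd i)) (((hQ.sm.pd c).pd i).mul ((hs i).pd b)) a hy,
      pd_mul (hs i) (((hQ.sm.pd c).pd b).pd i) a hy,
      pd_mul ((hQ.sm.pd c).pd i) ((hs i).pd b) a hy,
      pd_mul ((hQ.sm.pd b).pd i) ((hs i).pd c) a hy,
      pd_comm ((hQ.sm.pd c).pd b) a i hy, pd_comm (hQ.sm.pd c) a i hy, pd_comm (hQ.sm.pd b) a i hy]
    ring
  simp only [e2, Finset.sum_add_distrib] at e
  unfold W3 be
  simp only [Finset.sum_add_distrib]
  linarith

omit hX hy in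
theorem W3_symm {y : Fin n → ℝ} (hy : y ≠ 0) (a b c : Fin n) : W3 Q X a b c y = W3 Q X b a c y := by
  unfold W3
  refine Finset.sum_congr rfl fun i _ => ?_
  rw [pd_congr (fun z hz => pd_comm (hQ.sm.pd c) a b hz) i hy,
    pd_congr (fun z hz => pd_comm hQ.sm a b hz) i hy]
  ring

omit hQ in
theorem be_symm1 (a b c : Fin n) : be Q X a b c y = be Q X b a c y := by
  unfold be
  exact Finset.sum_congr rfl fun i _ => by rw [pd_comm (hX.sm i) a b hy]

omit hy in
theorem be_symm2 {y : Fin n → ℝ} (hy : y ≠ 0) (a b c : Fin n) :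
    be Q X a b c y = be Q X a c b y := by
  have h1 := kil_d hQ hX hy b c a
  have h2 := kil_d hQ hX hy c b a
  rw [W3_symm hQ hy b c a] at h1
  have h3 := be_symm1 hX hy b c a
  have h4 := be_symm1 hX hy b a c
  have h5 := be_symm1 hX hy c a b
  linarith

omit hy in
theorem be_eq {y : Fin n → ℝ} (hy : y ≠ 0) (a b c : Fin n) :
    be Q X a b c y = - (1 / 2) * W3 Q X a b c y := by
  have h1 := kil_d hQ hX hy a b c
  have h2 := be_symm2 hQ hX hy a b c
  linarith

omit hX in
theorem raise (a b j : Fin n) :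
    pd a (pd b (X j)) y = ∑ c, P Q j c y * be Q X a b c y := by
  unfold be
  have h2 : ∀ i, ∑ c, P Q j c y * (pd a (pd b (X i)) y * pd i (pd c Q) y) =
      pd a (pd b (X i)) y * (if j = i then 1 else 0) := by
    intro i
    rw [← P_mul_A hQ hy j i, Finset.mul_sum]
    exact Finset.sum_congr rfl fun c _ => by rw [pd2_symm hQ i c hy]; ring
  simp only [Finset.mul_sum]
  rw [Finset.sum_comm]
  simp [h2]

/-- the second derivatives are determined by the first derivatives -/
theorem second (a b j : Fin n) :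
    pd a (pd b (X j)) y = ∑ c, P Q j c y * (- (1 / 2) * W3 Q X a b c y) := by
  rw [raise hQ hy a b j]
  exact Finset.sum_congr rfl fun c _ => by rw [be_eq hQ hX hy]

/-- the star relation -/
theorem star_X (a b m l : Fin n) :
    ∑ i, pd a (pd m (pd i Q)) y * pd b (pd l (X i)) y
      - ∑ i, pd b (pd m (pd i Q)) y * pd a (pd l (X i)) y
      - ∑ i, pd b (pd m (X i)) y * pd a (pd i (pd l Q)) y
      + ∑ i, pd a (pd m (X i)) y * pd b (pd i (pd l Q)) y = 0 := by
  have hs := hX.sm
  have key : ∀ d a b c : Fin n, pd d (be Q X a b c) y = ∑ i, pd d (pd a (pd b (X i))) y *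
      pd i (pd c Q) y + ∑ i, pd a (pd b (X i)) y * pd d (pd i (pd c Q)) y := by
    intro d a b c
    unfold be
    rw [pd_sum (fun i _ => (((hs i).pd b).pd a).mul ((hQ.sm.pd c).pd i)) d hy,
      ← Finset.sum_add_distrib]
    exact Finset.sum_congr rfl fun i _ => pd_mul (((hs i).pd b).pd a) ((hQ.sm.pd c).pd i) d hy
  have hc : ∀ d a b : Fin n, ∀ i, pd d (pd a (pd b (X i))) y = pd a (pd d (pd b (X i))) y :=
    fun d a b i => pd_comm ((hs i).pd b) d a hy
  -- `∂_a β_blm - ∂_b β_alm`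
  have k1 := key a b l m
  have k2 := key b a l m
  have k3 := key a b m l
  have k4 := key b a m l
  have e1 : pd a (be Q X b l m) y = pd a (be Q X b m l) y :=
    pd_congr (fun z hz => be_symm2 hQ hX hz b l m) a hy
  have e2 : pd b (be Q X a l m) y = pd b (be Q X a m l) y :=
    pd_congr (fun z hz => be_symm2 hQ hX hz a l m) b hy
  simp only [hc b a] at k2 k4
  have f1 : ∑ i, pd a (pd m (pd i Q)) y * pd b (pd l (X i)) y =
      ∑ i, pd b (pd l (X i)) y * pd a (pd i (pd m Q)) y :=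
    Finset.sum_congr rfl fun i _ => by rw [pd3_symm2 hQ a m i hy]; ring
  have f2 : ∑ i, pd b (pd m (pd i Q)) y * pd a (pd l (X i)) y =
      ∑ i, pd a (pd l (X i)) y * pd b (pd i (pd m Q)) y :=
    Finset.sum_congr rfl fun i _ => by rw [pd3_symm2 hQ b m i hy]; ring
  rw [f1, f2]
  linarith

end

end Pool.Agent.H792.KF
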