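import Pool.Agent.H792.KF.Yf

/-!
# Curved Landsberg metrics with few infinitesimal isometries are Berwald metrics
-/

set_option autoImplicit false

open scoped BigOperators ContDiff Topology Matrix
open Filter Set

namespace Pool.Agent.H792.KF

open Pool.Agent.R774.BW Pool.Agent.H792.Gen Pool.Agent.H792.LF

variable {n : ℕ} {U : Set (Fin n → ℝ)} {F : (Fin n → ℝ) → (Fin n → ℝ) → ℝ}
  {G : (Fin n → ℝ) → (Fin n → ℝ) → (Fin n → ℝ)}

section

variable (hF : IsFinsler U F) (hG : IsSpray U F G)

include hF hG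

/-- the Bianchi identity -/
theorem bianchi {x y : Fin n → ℝ} (hx : x ∈ U) (hy : y ≠ 0) (a b c i : Fin n) :
    pd a (Rc G (Pi.single b 1) (Pi.single c 1) i x) y +
    pd b (Rc G (Pi.single c 1) (Pi.single a 1) i x) y +
    pd c (Rc G (Pi.single a 1) (Pi.single b 1) i x) y = 0 := by
  have hU := hF.isOpen
  have hGs : Sm (fun z => G x z i) := (G_JS hF hG i).sm hx
  have hGm : ∀ m, Sm (fun z => G x z m) := fun m => (G_JS hF hG m).sm hx
  have hNJ := fun (v : Fin n → ℝ) (i : Fin n) => N_JS hF hG v i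
  have key : ∀ a b c : Fin n, pd a (Rc G (Pi.single b 1) (Pi.single c 1) i x) y =
      Dh (N G (Pi.single c 1)) (Pi.single c 1) (fun x y => pd a (N G (Pi.single b 1) i x) y) x y -
      Dh (N G (Pi.single b 1)) (Pi.single b 1) (fun x y => pd a (N G (Pi.single c 1) i x) y) x y -
      (∑ j, pd a (pd c (fun z => G x z j)) y * pd j (pd b (fun z => G x z i)) y -
      ∑ j, pd a (pd b (fun z => G x z j)) y * pd j (pd c (fun z => G x z i)) y) := by
    intro a b c
    have h1 : pd a (Rc G (Pi.single b 1) (Pi.single c 1) i x) y =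
        pd a (Dh (N G (Pi.single c 1)) (Pi.single c 1) (N G (Pi.single b 1) i) x) y -
        pd a (Dh (N G (Pi.single b 1)) (Pi.single b 1) (N G (Pi.single c 1) i) x) y :=
      pd_sub ((JS.Dh hU (hNJ _ _) (hNJ _)).sm hx) ((JS.Dh hU (hNJ _ _) (hNJ _)).sm hx) a hy
    have h2 := Dh_pd (v := Pi.single c 1) hU (hNJ (Pi.single b 1) i) (hNJ (Pi.single c 1)) a hx hy
    have h3 := Dh_pd (v := Pi.single b 1) hU (hNJ (Pi.single c 1) i) (hNJ (Pi.single b 1)) a hx hy
    have e1 : ∀ (v m : Fin n), N G (Pi.single v 1) m x = pd v (fun z => G x z m) := fun v m => rfl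
    simp only [e1] at h2 h3 ⊢
    rw [h1]
    linarith
  have hsym : ∀ a b c : Fin n, Dh (N G (Pi.single c 1)) (Pi.single c 1)
      (fun x y => pd a (N G (Pi.single b 1) i x) y) x y =
      Dh (N G (Pi.single c 1)) (Pi.single c 1)
      (fun x y => pd b (N G (Pi.single a 1) i x) y) x y := fun a b c =>
    Dh_congr hU (fun x hx y hy => pd_comm ((G_JS hF hG i).sm hx) a b hy) hx hy
  have k1 := key a b c
  have k2 := key b c a
  have k3 := key c a b
  have s1 := hsym a b c
  have s2 := hsym b c a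
  have s3 := hsym c a b
  have t : ∀ a b c : Fin n, ∑ j, pd a (pd c (fun z => G x z j)) y *
      pd j (pd b (fun z => G x z i)) y = ∑ j, pd c (pd a (fun z => G x z j)) y *
      pd j (pd b (fun z => G x z i)) y := fun a b c =>
    Finset.sum_congr rfl fun j _ => by rw [pd_comm (hGm j) a c hy]
  have t1 := t a b c
  have t2 := t b c a
  have t3 := t c a b
  linarith

/-- the algebraic relation for linear fields -/
theorem rel {X : Fin n → (Fin n → ℝ) → (Fin n → ℝ) → ℝ} (hX : ∀ i, JS U (X i))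
    (hX2 : ∀ x ∈ U, ∀ y, y ≠ 0 → ∀ a b i, pd a (pd b (X i x)) y = 0) {x : Fin n → ℝ}
    (hx : x ∈ U)
    (hY : ∀ v j k i, ∀ y, y ≠ 0 → pd j (pd k (Yf G (Pi.single v 1) X i x)) y = 0)
    {y : Fin n → ℝ} (hy : y ≠ 0) (i j k v : Fin n) :
    ∑ b, pd k (X b x) y * pd j (pd b (pd v (fun z => G x z i))) y =
      ∑ b, pd v (X b x) y * pd j (pd b (pd k (fun z => G x z i))) y := by
  have hU := hF.isOpen
  have hGm : ∀ m, Sm (fun z => G x z m) := fun m => (G_JS hF hG m).sm hx
  have hXs : ∀ m, Sm (X m x) := fun m => (hX m).sm hx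
  have key : ∀ v k : Fin n, ∑ m, pd j (pd k (pd v (fun z => G x z m))) y * pd m (X i x) y =
      ∑ b, pd k (X b x) y * pd j (pd b (pd v (fun z => G x z i))) y +
      ∑ b, pd j (X b x) y * pd k (pd b (pd v (fun z => G x z i))) y +
      ∑ b, X b x y * pd j (pd k (pd b (pd v (fun z => G x z i)))) y := by
    intro v k
    have hNs : ∀ m, Sm (N G (Pi.single v 1) m x) := fun m => (N_JS hF hG _ m).sm hx
    have e1 : ∀ z, z ≠ 0 → pd k (Yf G (Pi.single v 1) X i x) z =
        Dh (N G (Pi.single v 1)) (Pi.single v 1) (fun x y => pd k (X i x) y) x z -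
        ∑ m, pd k (N G (Pi.single v 1) m x) z * pd m (X i x) z +
        ∑ b, (pd k (X b x) z * pd b (N G (Pi.single v 1) i x) z +
          X b x z * pd k (pd b (N G (Pi.single v 1) i x)) z) := by
      intro z hz
      rw [pd_Yf hF hG hX _ hx hz k i, Dh_pd hU (hX i) (N_JS hF hG _) k hx hz]
      ring
    have e2 := hY v j k i y hy
    have s1 : Sm (fun z => Dh (N G (Pi.single v 1)) (Pi.single v 1)
        (fun x y => pd k (X i x) y) x z) :=
      (JS.Dh hU ((hX i).pd hU k) (N_JS hF hG _)).sm hx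
    have s2 : ∀ m, Sm (fun z => pd k (N G (Pi.single v 1) m x) z * pd m (X i x) z) := fun m =>
      ((hNs m).pd k).mul ((hXs i).pd m)
    have s3 : ∀ b, Sm (fun z => pd k (X b x) z * pd b (N G (Pi.single v 1) i x) z +
          X b x z * pd k (pd b (N G (Pi.single v 1) i x)) z) := fun b =>
      (((hXs b).pd k).mul ((hNs i).pd b)).add ((hXs b).mul (((hNs i).pd b).pd k))
    rw [pd_congr e1 j hy, pd_add (s1.sub (Sm.sum fun m _ => s2 m)) (Sm.sum fun b _ => s3 b) j hy,
      pd_sub s1 (Sm.sum fun m _ => s2 m) j hy, pd_sum (fun m _ => s2 m) j hy,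
      pd_sum (fun b _ => s3 b) j hy] at e2
    have e3 : pd j (fun z => Dh (N G (Pi.single v 1)) (Pi.single v 1)
        (fun x y => pd k (X i x) y) x z) y = 0 := by
      have h1 := Dh_pd (v := Pi.single v 1) hU ((hX i).pd hU k) (N_JS hF hG (Pi.single v 1)) j
        hx hy
      have h2 : Dh (N G (Pi.single v 1)) (Pi.single v 1)
          (fun x y => pd j (pd k (X i x)) y) x y = 0 := by
        rw [Dh_congr hU (g := fun _ _ => 0) (fun x hx y hy => hX2 x hx y hy j k i) hx hy, Dh_const]
      have h3 : ∀ m, pd m (pd k (X i x)) y = 0 := fun m => hX2 x hx y hy m k i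
      rw [h2] at h1
      simp only [h3, mul_zero, Finset.sum_const_zero, add_zero] at h1
      exact h1.symm
    have e4 : ∀ m, pd j (fun z => pd k (N G (Pi.single v 1) m x) z * pd m (X i x) z) y =
        pd j (pd k (pd v (fun z => G x z m))) y * pd m (X i x) y := by
      intro m
      rw [pd_mul ((hNs m).pd k) ((hXs i).pd m) j hy, hX2 x hx y hy j m i, mul_zero, add_zero]
      rfl
    have e5 : ∀ b, pd j (fun z => pd k (X b x) z * pd b (N G (Pi.single v 1) i x) z +
          X b x z * pd k (pd b (N G (Pi.single v 1) i x)) z) y =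
        pd k (X b x) y * pd j (pd b (pd v (fun z => G x z i))) y +
        pd j (X b x) y * pd k (pd b (pd v (fun z => G x z i))) y +
        X b x y * pd j (pd k (pd b (pd v (fun z => G x z i)))) y := by
      intro b
      rw [pd_add (((hXs b).pd k).mul ((hNs i).pd b)) ((hXs b).mul (((hNs i).pd b).pd k)) j hy,
        pd_mul ((hXs b).pd k) ((hNs i).pd b) j hy, pd_mul (hXs b) (((hNs i).pd b).pd k) j hy,
        hX2 x hx y hy j k b, zero_mul, zero_add, ← add_assoc]
      rfl
    rw [e3] at e2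
    simp only [e4, e5, Finset.sum_add_distrib] at e2
    linarith
  have k1 := key v k
  have k2 := key k v
  have c1 : ∀ m, pd j (pd k (pd v (fun z => G x z m))) y = pd j (pd v (pd k (fun z => G x z m))) y :=
    fun m => pd_congr (fun z hz => pd_comm (hGm m) k v hz) j hy
  have c2 : ∀ b, pd k (pd b (pd v (fun z => G x z i))) y =
      pd v (pd b (pd k (fun z => G x z i))) y := by
    intro b
    rw [pd_congr (fun z hz => pd_comm (hGm i) b v hz) k hy, pd_comm ((hGm i).pd b) k v hy,
      pd_congr (fun z hz => pd_comm (hGm i) k b hz) v hy]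
  have c3 : ∀ b, pd j (pd k (pd b (pd v (fun z => G x z i)))) y =
      pd j (pd v (pd b (pd k (fun z => G x z i)))) y := by
    intro b
    refine pd_congr (fun z hz => ?_) j hy
    rw [pd_congr (fun z hz => pd_comm (hGm i) b v hz) k hz, pd_comm ((hGm i).pd b) k v hz,
      pd_congr (fun z hz => pd_comm (hGm i) k b hz) v hz]
  simp only [c1, c2, c3] at k1
  linarith

end

/-- functions off the origin with vanishing derivatives are constant -/
theorem const_of_pd (hn : 2 ≤ n) {f : (Fin n → ℝ) → ℝ} (hf : Sm f)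
    (h : ∀ y, y ≠ 0 → ∀ k, pd k f y = 0) {y z : Fin n → ℝ} (hy : y ≠ 0) (hz : z ≠ 0) :
    f y = f z := by
  have hpre : IsPreconnected {y : Fin n → ℝ | y ≠ 0} := by
    have h := (isConnected_compl_singleton_of_one_lt_rank (E := Fin n → ℝ) (by
      simp; exact_mod_cast hn) 0).isPreconnected
    exact h
  have hfd : ∀ y : Fin n → ℝ, y ≠ 0 → fderiv ℝ f y = 0 := by
    intro y hy
    ext v
    rw [fderiv_eq_sum]
    simp [h y hy]
  exact isOpen_ne0.is_const_of_fderiv_eq_zero (𝕜 := ℝ) hpre
    (fun y hy => (hf.diff hy).differentiableWithinAt) (fun y hy => hfd y hy) hy hz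

/-- a function of degree one which is constant in a direction has vanishing second derivatives -/
theorem lin_of_dir (hn : 2 ≤ n) {f : (Fin n → ℝ) → ℝ} (hf : Sm f) (hh : Hom 1 f)
    {z : Fin n → ℝ} (hz : z ≠ 0) (h : ∀ y, y ≠ 0 → dd z f y = 0) {y : Fin n → ℝ} (hy : y ≠ 0)
    (a b : Fin n) : pd a (pd b f) y = 0 := by
  have hh2 : Hom (-1) (pd a (pd b f)) := by
    have := (hh.pd hf b).pd (hf.pd b) a
    norm_num at this
    exact this
  refine null_dir hn ((hf.pd b).pd a) hh2 hz (fun w hw => ?_) hy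
  rw [← dd_eq]
  have h1 : ∀ w, w ≠ 0 → dd z (pd b f) w = 0 := by
    intro w hw
    have e := dd_comm hf z (Pi.single b 1) hw
    rw [dd_single, dd_single] at e
    rw [e, pd_congr (g := fun _ => 0) h b hw, pd_const]
  have e := dd_comm (hf.pd b) z (Pi.single a 1) hw
  rw [dd_single, dd_single] at e
  rw [e, pd_congr (g := fun _ => 0) h1 a hw, pd_const]

/-- the algebraic relation with a degenerate matrix kills the Berwald curvature -/
theorem kill_B (hn : 2 ≤ n) {g : (Fin n → ℝ) → ℝ} (hg : Sm g) (hh : Hom 2 g)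
    {M : Matrix (Fin n) (Fin n) ℝ} (hM : M ≠ 0) {z : Fin n → ℝ} (hz : z ≠ 0)
    (hMz : M *ᵥ z = 0)
    (hrel : ∀ y, y ≠ 0 → ∀ j k v, ∑ b, M b k * pd j (pd b (pd v g)) y =
      ∑ b, M b v * pd j (pd b (pd k g)) y) {y : Fin n → ℝ} (hy : y ≠ 0) (j k l : Fin n) :
    pd j (pd k (pd l g)) y = 0 := by
  obtain ⟨a0, k0, hak⟩ : ∃ a k, M a k ≠ 0 := by
    by_contra hcon
    push Not at hcon
    exact hM (by ext a k; exact hcon a k)
  set s : Fin n → ℝ := fun a => M a k0 with hs
  have hs0 : s ≠ 0 := fun h => hak (congrFun h a0)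
  -- `B(j,s,z) = 0`
  have h1 : ∀ y, y ≠ 0 → ∀ j, pd j (dd s (dd z g)) y = 0 := by
    intro y hy j
    have hzz : ∀ w, w ≠ 0 → dd s (dd z g) w = ∑ b, s b * ∑ v, z v * pd b (pd v g) w := by
      intro w hw
      rw [dd_dd_eq hg s z hw]
      simp only [dd_eq, Finset.mul_sum]
      rw [Finset.sum_comm]
      exact Finset.sum_congr rfl fun b _ => Finset.sum_congr rfl fun v _ => by ring
    have s1 : ∀ b v, Sm (fun w => z v * pd b (pd v g) w) := fun b v =>
      (sm_const _).mul ((hg.pd v).pd b)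
    rw [pd_congr hzz j hy, pd_sum (fun b _ => (sm_const _).mul (Sm.sum fun v _ => s1 b v)) j hy]
    have e1 : ∀ b, pd j (fun w => s b * ∑ v, z v * pd b (pd v g) w) y =
        ∑ v, z v * (M b k0 * pd j (pd b (pd v g)) y) := by
      intro b
      rw [pd_const_mul (Sm.sum fun v _ => s1 b v) _ j hy, pd_sum (fun v _ => s1 b v) j hy,
        Finset.mul_sum]
      refine Finset.sum_congr rfl fun v _ => ?_
      rw [pd_const_mul ((hg.pd v).pd b) _ j hy]
      simp only [hs]
      ring
    simp only [e1]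
    rw [Finset.sum_comm]
    have e2 : ∀ v, ∑ b, z v * (M b k0 * pd j (pd b (pd v g)) y) =
        ∑ b, (M b v * z v) * pd j (pd b (pd k0 g)) y := by
      intro v
      rw [← Finset.mul_sum, hrel y hy j k0 v, Finset.mul_sum]
      exact Finset.sum_congr rfl fun b _ => by ring
    simp only [e2]
    rw [Finset.sum_comm]
    refine Finset.sum_eq_zero fun b _ => ?_
    rw [← Finset.sum_mul]
    have := congrFun hMz b
    simp only [Matrix.mulVec, dotProduct, Pi.zero_apply] at this
    rw [this, zero_mul]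
  -- `B(s,j,l) = 0`
  have h2 : ∀ y, y ≠ 0 → ∀ j l, dd s (pd j (pd l g)) y = 0 := by
    intro y hy j l
    have hh3 : Hom (-1) (dd s (pd j (pd l g))) := by
      intro w hw t ht
      rw [dd_eq, dd_eq, Finset.mul_sum]
      refine Finset.sum_congr rfl fun b _ => ?_
      have := (((hh.pd hg l).pd (hg.pd l) j).pd ((hg.pd l).pd j) b) w hw t ht
      norm_num at this
      rw [this]
      simp only [zpow_neg, zpow_one]
      ring
    refine null_dir hn (Gen.Sm.dd ((hg.pd l).pd j) s) hh3 hz (fun w hw => ?_) hy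
    rw [← dd_eq]
    have c1 : dd z (dd s (pd j (pd l g))) w = dd s (dd z (pd j (pd l g))) w :=
      dd_comm ((hg.pd l).pd j) z s hw
    have c2 : dd s (dd z (pd j (pd l g))) w = dd s (pd j (pd l (dd z g))) w := by
      refine dd_congr (fun w hw => ?_) s hw
      have e1 := dd_comm (hg.pd l) z (Pi.single j 1) hw
      rw [dd_single, dd_single] at e1
      rw [e1]
      refine pd_congr (fun w hw => ?_) j hw
      exact dd_comm hg z (Pi.single l 1) hw
    have c3 : dd s (pd j (pd l (dd z g))) w = pd j (pd l (dd s (dd z g))) w := by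
      have e1 := dd_comm ((Gen.Sm.dd hg z).pd l) s (Pi.single j 1) hw
      rw [dd_single, dd_single] at e1
      rw [e1]
      refine pd_congr (fun w hw => ?_) j hw
      exact dd_comm (Gen.Sm.dd hg z) s (Pi.single l 1) hw
    rw [c1, c2, c3, pd_congr (g := fun _ => 0) (fun w hw => h1 w hw l) j hw, pd_const]
  -- `B = 0`
  have hh3 : Hom (-1) (pd j (pd k (pd l g))) := by
    have := (((hh.pd hg l).pd (hg.pd l) k).pd ((hg.pd l).pd k) j)
    norm_num at this
    exact this
  refine null_dir hn (((hg.pd l).pd k).pd j) hh3 hs0 (fun w hw => ?_) hy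
  rw [← dd_eq]
  have e1 := dd_comm ((hg.pd l).pd k) s (Pi.single j 1) hw
  rw [dd_single, dd_single] at e1
  rw [e1, pd_congr (g := fun _ => 0) (fun w hw => h2 w hw k l) j hw, pd_const]

end Pool.Agent.H792.KF
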