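import Pool.Agent.H792.Gen.Defs

/-!
# Finsler metrics on manifolds: definitions
-/

set_option autoImplicit false

open scoped Manifold ContDiff

namespace Pool.Agent.H792.KF

open Pool.Agent.R774.BW Pool.Agent.H792.Gen

variable {n : ℕ} {M : Type*} [TopologicalSpace M] [ChartedSpace (Fin n → ℝ) M]

/-- The expression of a function `F` on the tangent bundle in the chart `e`: the value of `F` on
the tangent vector with coordinates `y` at the point with coordinates `x`. -/
noncomputable def loc (F : TangentBundle 𝓘(ℝ, Fin n → ℝ) M → ℝ)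
    (e : OpenPartialHomeomorph M (Fin n → ℝ)) (x y : Fin n → ℝ) : ℝ :=
  F (tangentMap 𝓘(ℝ, Fin n → ℝ) 𝓘(ℝ, Fin n → ℝ) e.symm ⟨x, y⟩)

/-- `F` is a smooth Finsler metric on `M` (reversibility is not assumed): it is one in every chart
of the atlas -/
def IsFinslerMetric (F : TangentBundle 𝓘(ℝ, Fin n → ℝ) M → ℝ) : Prop :=
  ∀ e ∈ atlas (Fin n → ℝ) M, IsFinsler e.target (loc F e)

/-- the Landsberg curvature of `F` vanishes, in every chart (`G` are the spray coefficients of `F`
in the chart) -/
def IsLandsbergMetric (F : TangentBundle 𝓘(ℝ, Fin n → ℝ) M → ℝ) : Prop :=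
  ∀ e ∈ atlas (Fin n → ℝ) M, ∀ G, IsSpray e.target (loc F e) G → IsLandsberg e.target (loc F e) G

/-- the Berwald curvature of `F` vanishes, in every chart (`G` are the spray coefficients of `F`
in the chart) -/
def IsBerwaldMetric (F : TangentBundle 𝓘(ℝ, Fin n → ℝ) M → ℝ) : Prop :=
  ∀ e ∈ atlas (Fin n → ℝ) M, ∀ G, IsSpray e.target (loc F e) G →
    ∀ x ∈ e.target, ∀ y, y ≠ 0 → ∀ i j k l, berwald G x y i j k l = 0

end Pool.Agent.H792.KF
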