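import Pool.Agent.H792.KF.Dense

/-!
# The derivative along the lifted geodesic flow
-/

set_option autoImplicit false

open scoped BigOperators ContDiff Topology Matrix
open Filter Set

namespace Pool.Agent.H792.KF

open Pool.Agent.R774.BW Pool.Agent.H792.Gen Pool.Agent.H792.LF

variable {n : ℕ}

section three

/-- functions of three variables, smooth off the zero section -/
def J3 (U : Set (Fin n → ℝ)) (f : (Fin n → ℝ) → (Fin n → ℝ) → (Fin n → ℝ) → ℝ) : Prop :=
  ∀ x ∈ U, ∀ y, y ≠ 0 → ∀ w, ContDiffAt ℝ ∞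
    (fun p : (Fin n → ℝ) × (Fin n → ℝ) × (Fin n → ℝ) => f p.1 p.2.1 p.2.2) (x, y, w)

variable {U : Set (Fin n → ℝ)} {f g : (Fin n → ℝ) → (Fin n → ℝ) → (Fin n → ℝ) → ℝ}

theorem J3.of_JS {f : (Fin n → ℝ) → (Fin n → ℝ) → ℝ} (hf : JS U f) :
    J3 U (fun x y _ => f x y) := by
  intro x hx y hy w
  have h1 : ContDiff ℝ ∞ (fun p : (Fin n → ℝ) × (Fin n → ℝ) × (Fin n → ℝ) => (p.1, p.2.1)) :=
    contDiff_fst.prodMk (contDiff_fst.comp contDiff_snd)
  exact (hf x hx y hy).comp (x, y, w) (g := fun p : (Fin n → ℝ) × (Fin n → ℝ) => f p.1 p.2)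
    (f := fun p : (Fin n → ℝ) × (Fin n → ℝ) × (Fin n → ℝ) => (p.1, p.2.1)) h1.contDiffAt

theorem J3.mul (hf : J3 U f) (hg : J3 U g) : J3 U (fun x y w => f x y w * g x y w) :=
  fun x hx y hy w => (hf x hx y hy w).mul (hg x hx y hy w)

theorem J3.sum {ι : Type*} {s : Finset ι}
    {f : ι → (Fin n → ℝ) → (Fin n → ℝ) → (Fin n → ℝ) → ℝ}
    (hf : ∀ i ∈ s, J3 U (f i)) : J3 U (fun x y w => ∑ i ∈ s, f i x y w) := fun x hx y hy w =>
  ContDiffAt.sum fun i hi => hf i hi x hx y hy w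

theorem nhd3 (hU : IsOpen U) {x y : Fin n → ℝ} (w : Fin n → ℝ) (hx : x ∈ U) (hy : y ≠ 0) :
    ∀ᶠ p : (Fin n → ℝ) × (Fin n → ℝ) × (Fin n → ℝ) in 𝓝 (x, y, w), p.1 ∈ U ∧ p.2.1 ≠ 0 := by
  have h1 : Tendsto (fun p : (Fin n → ℝ) × (Fin n → ℝ) × (Fin n → ℝ) => p.1) (𝓝 (x, y, w))
      (𝓝 x) := continuous_fst.continuousAt
  have h2 : Tendsto (fun p : (Fin n → ℝ) × (Fin n → ℝ) × (Fin n → ℝ) => p.2.1) (𝓝 (x, y, w))
      (𝓝 y) := (continuous_fst.comp continuous_snd).continuousAt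
  exact (h1.eventually (hU.mem_nhds hx)).and (h2.eventually (isOpen_ne0.mem_nhds hy))

/-- the derivative in the tangent vector, in the direction of the third variable -/
theorem J3.dw (hU : IsOpen U) (h : J3 U f) : J3 U (fun x y w => dd w (fun y => f x y w) y) := by
  intro x hx y hy w
  set Ψ : (Fin n → ℝ) × (Fin n → ℝ) × (Fin n → ℝ) → ℝ := fun p => f p.1 p.2.1 p.2.2 with hΨ
  have e : (fun p : (Fin n → ℝ) × (Fin n → ℝ) × (Fin n → ℝ) =>
      dd p.2.2 (fun y => f p.1 y p.2.2) p.2.1) =ᶠ[𝓝 (x, y, w)]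
      fun p => fderiv ℝ Ψ p (0, p.2.2, 0) := by
    filter_upwards [nhd3 hU w hx hy] with p hp
    have hd : DifferentiableAt ℝ Ψ (p.1, p.2.1, p.2.2) :=
      (h p.1 hp.1 p.2.1 hp.2 p.2.2).differentiableAt (by simp)
    have h2 : HasFDerivAt (fun z : Fin n → ℝ => (p.1, z, p.2.2))
        ((0 : (Fin n → ℝ) →L[ℝ] (Fin n → ℝ)).prod
          ((ContinuousLinearMap.id ℝ (Fin n → ℝ)).prod (0 : (Fin n → ℝ) →L[ℝ] (Fin n → ℝ))))
          p.2.1 :=
      (hasFDerivAt_const p.1 p.2.1).prodMk ((hasFDerivAt_id p.2.1).prodMk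
        (hasFDerivAt_const p.2.2 p.2.1))
    have h3 := (show HasFDerivAt Ψ (fderiv ℝ Ψ (p.1, p.2.1, p.2.2))
      ((fun z : Fin n → ℝ => (p.1, z, p.2.2)) p.2.1) from hd.hasFDerivAt).comp p.2.1 h2
    have h4 : fderiv ℝ (fun y => f p.1 y p.2.2) p.2.1 = _ := h3.fderiv
    unfold dd
    rw [h4]; simp
  refine ContDiffAt.congr_of_eventuallyEq ?_ e
  have h5 : ContDiff ℝ ∞ (fun p : (Fin n → ℝ) × (Fin n → ℝ) × (Fin n → ℝ) =>
      ((0 : Fin n → ℝ), p.2.2, (0 : Fin n → ℝ))) :=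
    contDiff_const.prodMk ((contDiff_snd.comp contDiff_snd).prodMk contDiff_const)
  exact ((h x hx y hy w).fderiv_right (m := ∞) (by simp)).clm_apply h5.contDiffAt

/-- the chain rule, splitting the last variable -/
theorem J3.path (h : J3 U f) {x y w a b c : Fin n → ℝ} (hx : x ∈ U) (hy : y ≠ 0) {d1 d2 : ℝ}
    (h1 : HasDerivAt (fun t : ℝ => f (x + t • a) (y + t • b) w) d1 0)
    (h2 : HasDerivAt (fun t : ℝ => f x y (w + t • c)) d2 0) :
    HasDerivAt (fun t : ℝ => f (x + t • a) (y + t • b) (w + t • c)) (d1 + d2) 0 := by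
  set Ψ : (Fin n → ℝ) × (Fin n → ℝ) × (Fin n → ℝ) → ℝ := fun p => f p.1 p.2.1 p.2.2 with hΨ
  have hd : HasFDerivAt Ψ (fderiv ℝ Ψ (x, y, w)) (x, y, w) :=
    ((h x hx y hy w).differentiableAt (by simp)).hasFDerivAt
  have line : ∀ (p v : Fin n → ℝ), HasDerivAt (fun t : ℝ => p + t • v) v 0 := by
    intro p v
    have h3 := ((hasDerivAt_id (0:ℝ)).smul_const v).const_add p
    simpa using h3
  have key : ∀ a b c : Fin n → ℝ, HasDerivAt (fun t : ℝ => Ψ (x + t • a, y + t • b, w + t • c))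
      (fderiv ℝ Ψ (x, y, w) (a, b, c)) 0 := by
    intro a b c
    have h3 : HasDerivAt (fun t : ℝ => (x + t • a, y + t • b, w + t • c)) (a, b, c) 0 :=
      (line x a).prodMk ((line y b).prodMk (line w c))
    have h4 : HasFDerivAt Ψ (fderiv ℝ Ψ (x, y, w))
        ((fun t : ℝ => (x + t • a, y + t • b, w + t • c)) 0) := by
      simpa using hd
    exact h4.comp_hasDerivAt 0 h3
  have k1 := key a b 0
  have k2 := key 0 0 c
  simp only [smul_zero, add_zero] at k1 k2
  have e1 := h1.unique k1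
  have e2 := h2.unique k2
  have e3 : d1 + d2 = fderiv ℝ Ψ (x, y, w) (a, b, c) := by
    rw [e1, e2, ← map_add]
    simp
  rw [e3]
  exact key a b c

end three

section poly

variable {f : (Fin n → ℝ) → ℝ}

theorem K1 (f : (Fin n → ℝ) → ℝ) (w c : Fin n → ℝ) (t : ℝ) (y : Fin n → ℝ) :
    dd (w + t • c) f y = dd w f y + t * dd c f y := by
  unfold dd
  rw [map_add, map_smul, smul_eq_mul]

theorem K2 (hf : Sm f) (w c : Fin n → ℝ) (t : ℝ) {y : Fin n → ℝ} (hy : y ≠ 0) :
    dd (w + t • c) (dd (w + t • c) f) y =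
      dd w (dd w f) y + t * (2 * dd c (dd w f) y) + t ^ 2 * dd c (dd c f) y := by
  have s : ∀ a, Sm (dd a f) := fun a => Sm.dd hf a
  have e : ∀ a, dd a (dd (w + t • c) f) y = dd a (dd w f) y + t * dd a (dd c f) y := by
    intro a
    rw [dd_congr (fun z _ => K1 f w c t z) a hy,
      dd_add (s w) ((sm_const t).mul (s c)) a hy, dd_const_mul (s c) t a hy]
  rw [K1, e, e, dd_comm hf w c hy]
  ring

theorem K3 (hf : Sm f) (w c : Fin n → ℝ) (t : ℝ) {y : Fin n → ℝ} (hy : y ≠ 0) :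
    dd (w + t • c) (dd (w + t • c) (dd (w + t • c) f)) y =
      dd w (dd w (dd w f)) y + t * (3 * dd c (dd w (dd w f)) y) +
      t ^ 2 * (3 * dd c (dd c (dd w f)) y) + t ^ 3 * dd c (dd c (dd c f)) y := by
  have s : ∀ a b, Sm (dd a (dd b f)) := fun a b => Sm.dd (Sm.dd hf b) a
  have e : ∀ a, dd a (dd (w + t • c) (dd (w + t • c) f)) y = dd a (dd w (dd w f)) y +
      t * (2 * dd a (dd c (dd w f)) y) + t ^ 2 * dd a (dd c (dd c f)) y := by
    intro a
    rw [dd_congr (fun z hz => K2 hf w c t hz) a hy,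
      dd_add ((s w w).add ((sm_const t).mul ((sm_const 2).mul (s c w))))
        ((sm_const (t ^ 2)).mul (s c c)) a hy,
      dd_add (s w w) ((sm_const t).mul ((sm_const 2).mul (s c w))) a hy,
      dd_const_mul ((sm_const 2).mul (s c w)) t a hy, dd_const_mul (s c w) 2 a hy,
      dd_const_mul (s c c) _ a hy]
  have c1 : dd w (dd c (dd w f)) y = dd c (dd w (dd w f)) y := dd_comm (Sm.dd hf w) w c hy
  have c2 : dd w (dd c (dd c f)) y = dd c (dd c (dd w f)) y := by
    rw [dd_comm (Sm.dd hf c) w c hy, dd_congr (fun z hz => dd_comm hf w c hz) c hy]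
  rw [K1, e, e, c1, c2]
  ring

theorem K4 (hf : Sm f) (w c : Fin n → ℝ) (t : ℝ) {y : Fin n → ℝ} (hy : y ≠ 0) :
    dd (w + t • c) (dd (w + t • c) (dd (w + t • c) (dd (w + t • c) f))) y =
      dd w (dd w (dd w (dd w f))) y + t * (4 * dd c (dd w (dd w (dd w f))) y) +
      t ^ 2 * (6 * dd c (dd c (dd w (dd w f))) y) + t ^ 3 * (4 * dd c (dd c (dd c (dd w f))) y) +
      t ^ 4 * dd c (dd c (dd c (dd c f))) y := by
  have s : ∀ a b d, Sm (dd a (dd b (dd d f))) := fun a b d => Sm.dd (Sm.dd (Sm.dd hf d) b) a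
  have e : ∀ a, dd a (dd (w + t • c) (dd (w + t • c) (dd (w + t • c) f))) y =
      dd a (dd w (dd w (dd w f))) y + t * (3 * dd a (dd c (dd w (dd w f))) y) +
      t ^ 2 * (3 * dd a (dd c (dd c (dd w f))) y) + t ^ 3 * dd a (dd c (dd c (dd c f))) y := by
    intro a
    rw [dd_congr (fun z hz => K3 hf w c t hz) a hy,
      dd_add (((s w w w).add ((sm_const t).mul ((sm_const 3).mul (s c w w)))).add
        ((sm_const (t ^ 2)).mul ((sm_const 3).mul (s c c w))))
        ((sm_const (t ^ 3)).mul (s c c c)) a hy,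
      dd_add ((s w w w).add ((sm_const t).mul ((sm_const 3).mul (s c w w))))
        ((sm_const (t ^ 2)).mul ((sm_const 3).mul (s c c w))) a hy,
      dd_add (s w w w) ((sm_const t).mul ((sm_const 3).mul (s c w w))) a hy,
      dd_const_mul ((sm_const 3).mul (s c w w)) t a hy, dd_const_mul (s c w w) 3 a hy,
      dd_const_mul ((sm_const 3).mul (s c c w)) _ a hy, dd_const_mul (s c c w) 3 a hy,
      dd_const_mul (s c c c) _ a hy]
  have c1 : dd w (dd c (dd w (dd w f))) y = dd c (dd w (dd w (dd w f))) y :=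
    dd_comm (Sm.dd (Sm.dd hf w) w) w c hy
  have c2 : dd w (dd c (dd c (dd w f))) y = dd c (dd c (dd w (dd w f))) y := by
    rw [dd_comm (Sm.dd (Sm.dd hf w) c) w c hy,
      dd_congr (fun z hz => dd_comm (Sm.dd hf w) w c hz) c hy]
  have c3 : dd w (dd c (dd c (dd c f))) y = dd c (dd c (dd c (dd w f))) y := by
    rw [dd_comm (Sm.dd (Sm.dd hf c) c) w c hy, dd_congr (fun z hz => ?_) c hy]
    rw [dd_comm (Sm.dd hf c) w c hz, dd_congr (fun z hz => dd_comm hf w c hz) c hz]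
  rw [K1, e, e, c1, c2, c3]
  ring

theorem hda (a b c d e : ℝ) :
    HasDerivAt (fun t : ℝ => a + t * b + t ^ 2 * c + t ^ 3 * d + t ^ 4 * e) b 0 := by
  have h1 := (((((hasDerivAt_id (0:ℝ)).mul_const b).const_add a).add
    (((hasDerivAt_id (0:ℝ)).pow 2).mul_const c)).add
    (((hasDerivAt_id (0:ℝ)).pow 3).mul_const d)).add (((hasDerivAt_id (0:ℝ)).pow 4).mul_const e)
  exact h1.congr_deriv (by simp)

theorem hd1 (f : (Fin n → ℝ) → ℝ) (w c y : Fin n → ℝ) :
    HasDerivAt (fun t : ℝ => dd (w + t • c) f y) (dd c f y) 0 := by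
  have e : (fun t : ℝ => dd (w + t • c) f y) =
      fun t => dd w f y + t * dd c f y + t ^ 2 * 0 + t ^ 3 * 0 + t ^ 4 * 0 := by
    funext t
    rw [K1]; ring
  rw [e]
  exact hda _ _ _ _ _

theorem hd2 (hf : Sm f) (w c : Fin n → ℝ) {y : Fin n → ℝ} (hy : y ≠ 0) :
    HasDerivAt (fun t : ℝ => dd (w + t • c) (dd (w + t • c) f) y) (2 * dd c (dd w f) y) 0 := by
  have e : (fun t : ℝ => dd (w + t • c) (dd (w + t • c) f) y) =
      fun t => dd w (dd w f) y + t * (2 * dd c (dd w f) y) + t ^ 2 * dd c (dd c f) y +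
        t ^ 3 * 0 + t ^ 4 * 0 := by
    funext t
    rw [K2 hf w c t hy]; ring
  rw [e]
  exact hda _ _ _ _ _

theorem hd3 (hf : Sm f) (w c : Fin n → ℝ) {y : Fin n → ℝ} (hy : y ≠ 0) :
    HasDerivAt (fun t : ℝ => dd (w + t • c) (dd (w + t • c) (dd (w + t • c) f)) y)
      (3 * dd c (dd w (dd w f)) y) 0 := by
  have e : (fun t : ℝ => dd (w + t • c) (dd (w + t • c) (dd (w + t • c) f)) y) =
      fun t => dd w (dd w (dd w f)) y + t * (3 * dd c (dd w (dd w f)) y) +
      t ^ 2 * (3 * dd c (dd c (dd w f)) y) + t ^ 3 * dd c (dd c (dd c f)) y + t ^ 4 * 0 := by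
    funext t
    rw [K3 hf w c t hy]; ring
  rw [e]
  exact hda _ _ _ _ _

theorem hd4 (hf : Sm f) (w c : Fin n → ℝ) {y : Fin n → ℝ} (hy : y ≠ 0) :
    HasDerivAt (fun t : ℝ => dd (w + t • c) (dd (w + t • c) (dd (w + t • c)
      (dd (w + t • c) f))) y) (4 * dd c (dd w (dd w (dd w f))) y) 0 := by
  have e : (fun t : ℝ => dd (w + t • c) (dd (w + t • c) (dd (w + t • c)
      (dd (w + t • c) f))) y) =
      fun t => dd w (dd w (dd w (dd w f))) y + t * (4 * dd c (dd w (dd w (dd w f))) y) +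
      t ^ 2 * (6 * dd c (dd c (dd w (dd w f))) y) + t ^ 3 * (4 * dd c (dd c (dd c (dd w f))) y) +
      t ^ 4 * dd c (dd c (dd c (dd c f))) y := by
    funext t
    exact K4 hf w c t hy
  rw [e]
  exact hda _ _ _ _ _

theorem dd_neg_dir (f : (Fin n → ℝ) → ℝ) (c y : Fin n → ℝ) : dd (-c) f y = - dd c f y := by
  unfold dd
  rw [map_neg]

end poly

section

variable {U : Set (Fin n → ℝ)} {F : (Fin n → ℝ) → (Fin n → ℝ) → ℝ}
  {G : (Fin n → ℝ) → (Fin n → ℝ) → (Fin n → ℝ)}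

theorem F_JS (hF : IsFinsler U F) : JS U F := by
  intro x hx y hy
  have h1 : U ×ˢ {y : Fin n → ℝ | y ≠ 0} ∈ 𝓝 (x, y) :=
    prod_mem_nhds (hF.isOpen.mem_nhds hx) (isOpen_ne0.mem_nhds hy)
  exact hF.smooth.contDiffAt h1

theorem al_J3 (hF : IsFinsler U F) : J3 U (fun x y w => al F w x y) :=
  J3.dw hF.isOpen (J3.dw hF.isOpen (J3.of_JS (q_JS hF)))

theorem ul_J3 (hF : IsFinsler U F) : J3 U (fun x y w => ul F w x y) :=
  J3.dw hF.isOpen (J3.dw hF.isOpen (J3.dw hF.isOpen (J3.dw hF.isOpen (J3.of_JS (q_JS hF)))))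

variable (hF : IsFinsler U F) (hG : IsSpray U F G)

include hF hG

theorem bl_J3 : J3 U (fun x y w => bl F G w x y) :=
  J3.sum fun j _ => (J3.dw hF.isOpen (J3.dw hF.isOpen (J3.dw hF.isOpen
    (J3.of_JS (G_JS hF hG j))))).mul (J3.dw hF.isOpen (J3.of_JS ((q_JS hF).pd hF.isOpen j)))

/-- derivative along the geodesic flow -/
theorem flow_hasDeriv {f : (Fin n → ℝ) → (Fin n → ℝ) → ℝ} (hf : JS U f) {x y : Fin n → ℝ}
    (hx : x ∈ U) (hy : y ≠ 0) :
    HasDerivAt (fun t : ℝ => f (x + t • y) (y + t • (-(2:ℝ) • G x y)))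
      (Dh (N G y) y f x y) 0 := by
  set Ψ : (Fin n → ℝ) × (Fin n → ℝ) → ℝ := fun p => f p.1 p.2 with hΨ
  have hd : HasFDerivAt Ψ (fderiv ℝ Ψ (x, y)) (x, y) :=
    ((hf x hx y hy).differentiableAt (by simp)).hasFDerivAt
  have line : ∀ (p v : Fin n → ℝ), HasDerivAt (fun t : ℝ => p + t • v) v 0 := by
    intro p v
    have h3 := ((hasDerivAt_id (0:ℝ)).smul_const v).const_add p
    simpa using h3
  have h3 : HasDerivAt (fun t : ℝ => (x + t • y, y + t • (-(2:ℝ) • G x y)))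
      (y, -(2:ℝ) • G x y) 0 := (line x y).prodMk (line y _)
  have h4 : HasFDerivAt Ψ (fderiv ℝ Ψ (x, y))
      ((fun t : ℝ => (x + t • y, y + t • (-(2:ℝ) • G x y))) 0) := by
    simpa using hd
  have h5 := h4.comp_hasDerivAt 0 h3
  have e1 : fderiv ℝ Ψ (x, y) (y, -(2:ℝ) • G x y) = Dh (N G y) y f x y := by
    have e2 : (y, -(2:ℝ) • G x y) = (y, (0 : Fin n → ℝ)) + ((0 : Fin n → ℝ), -(2:ℝ) • G x y) := by
      simp
    have h6 : HasFDerivAt (fun z : Fin n → ℝ => (z, y))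
        ((ContinuousLinearMap.id ℝ (Fin n → ℝ)).prod (0 : (Fin n → ℝ) →L[ℝ] (Fin n → ℝ))) x :=
      (hasFDerivAt_id x).prodMk (hasFDerivAt_const y x)
    have h7 := (show HasFDerivAt Ψ (fderiv ℝ Ψ (x, y)) ((fun z : Fin n → ℝ => (z, y)) x)
      from hd).comp x h6
    have h8 : fderiv ℝ (fun z => f z y) x = _ := h7.fderiv
    have h9 : HasFDerivAt (fun z : Fin n → ℝ => (x, z))
        ((0 : (Fin n → ℝ) →L[ℝ] (Fin n → ℝ)).prod (ContinuousLinearMap.id ℝ (Fin n → ℝ))) y :=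
      (hasFDerivAt_const x y).prodMk (hasFDerivAt_id y)
    have h10 := (show HasFDerivAt Ψ (fderiv ℝ Ψ (x, y)) ((fun z : Fin n → ℝ => (x, z)) y)
      from hd).comp y h9
    have h11 : fderiv ℝ (f x) y = _ := h10.fderiv
    have e3 : fderiv ℝ Ψ (x, y) (y, (0 : Fin n → ℝ)) = LF.dx y f x y := by
      unfold LF.dx
      rw [h8]
      simp
    have e4 : fderiv ℝ Ψ (x, y) ((0 : Fin n → ℝ), -(2:ℝ) • G x y) =
        - ∑ i, N G y i x y * pd i (f x) y := by
      have e5 : fderiv ℝ Ψ (x, y) ((0 : Fin n → ℝ), -(2:ℝ) • G x y) =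
          dd (-(2:ℝ) • G x y) (f x) y := by
        unfold dd
        rw [h11]
        simp
      rw [e5, dd_eq, ← Finset.sum_neg_distrib]
      refine Finset.sum_congr rfl fun i _ => ?_
      have e6 : N G y i x y = 2 * G x y i := by
        have := euler_dd (G_hom hF hG hx i) ((G_JS hF hG i).sm hx) hy
        exact_mod_cast this
      rw [e6]
      simp only [Pi.smul_apply, smul_eq_mul]
      ring
    rw [e2, map_add, e3, e4]
    unfold Dh
    ring
  rw [e1] at h5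
  exact h5

theorem path_F {x y : Fin n → ℝ} (hx : x ∈ U) (hy : y ≠ 0) :
    HasDerivAt (fun t : ℝ => F (x + t • y) (y + t • (-(2:ℝ) • G x y))) 0 0 := by
  have h := flow_hasDeriv hF hG (F_JS hF) hx hy
  have e : Dh (N G y) y F x y = 0 := by
    have h1 := flow_q hF hG hx hy
    have e1 : Dh (N G y) y (q F) x y = Dh (N G y) y (fun x y => F x y * F x y) x y := by
      congr 1
      funext x y
      unfold q
      ring
    rw [e1, Dh_mul (F_JS hF) (F_JS hF) hx hy] at h1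
    have h2 := hF.pos x hx y hy
    have h3 : F x y * Dh (N G y) y F x y = 0 := by linarith
    exact (mul_eq_zero.1 h3).resolve_left h2.ne'
  rw [e] at h
  exact h

theorem path_al {x y : Fin n → ℝ} (hx : x ∈ U) (hy : y ≠ 0) (w : Fin n → ℝ) :
    HasDerivAt (fun t : ℝ => al F (w + t • (-Nw G w x y)) (x + t • y)
      (y + t • (-(2:ℝ) • G x y))) 0 0 := by
  have hU := hF.isOpen
  have hJ : JS U (al F w) := JS.dy hU (JS.dy hU (q_JS hF) w) w
  have h1 := flow_hasDeriv hF hG hJ hx hy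
  rw [flow_al hF hG w hx hy] at h1
  have h2 := hd2 (q_mn hF hx).sm w (-Nw G w x y) hy
  have h3 := (al_J3 hF).path (w := w) (c := -Nw G w x y) hx hy h1 h2
  rw [dd_neg_dir] at h3
  exact h3.congr_deriv (by ring)

theorem path_ul (hL : IsLandsberg U F G) {x y : Fin n → ℝ} (hx : x ∈ U) (hy : y ≠ 0)
    (w : Fin n → ℝ) :
    HasDerivAt (fun t : ℝ => ul F (w + t • (-Nw G w x y)) (x + t • y)
      (y + t • (-(2:ℝ) • G x y))) (-2 * bl F G w x y) 0 := by
  have hU := hF.isOpen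
  have hJ : JS U (ul F w) := JS.dy hU (JS.dy hU (JS.dy hU (JS.dy hU (q_JS hF) w) w) w) w
  have h1 := flow_hasDeriv hF hG hJ hx hy
  rw [flow_ul hF hG hL w hx hy] at h1
  have h2 := hd4 (q_mn hF hx).sm w (-Nw G w x y) hy
  have h3 := (ul_J3 hF).path (w := w) (c := -Nw G w x y) hx hy h1 h2
  rw [dd_neg_dir] at h3
  exact h3.congr_deriv (by ring)

/-- derivative of the lowered Berwald curvature in `w` -/
theorem dw_bl {x y : Fin n → ℝ} (hx : x ∈ U) (hy : y ≠ 0) (w c : Fin n → ℝ) :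
    HasDerivAt (fun t : ℝ => bl F G (w + t • c) x y)
      (3 * ∑ j, dd c (dd w (dd w (fun z => G x z j))) y * dd w (pd j (q F x)) y +
      ∑ j, dd w (dd w (dd w (fun z => G x z j))) y * dd c (pd j (q F x)) y) 0 := by
  have hGs : ∀ i, Sm (fun z => G x z i) := fun i => (G_JS hF hG i).sm hx
  have h1 : ∀ j ∈ (Finset.univ : Finset (Fin n)), HasDerivAt (fun t : ℝ =>
      dd (w + t • c) (dd (w + t • c) (dd (w + t • c) (fun z => G x z j))) y *
        dd (w + t • c) (pd j (q F x)) y)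
      (3 * dd c (dd w (dd w (fun z => G x z j))) y * dd w (pd j (q F x)) y +
      dd w (dd w (dd w (fun z => G x z j))) y * dd c (pd j (q F x)) y) 0 := by
    intro j _
    have h2 := (hd3 (hGs j) w c hy).mul (hd1 (pd j (q F x)) w c y)
    simp only [zero_smul, add_zero] at h2
    exact h2
  have h3 := HasDerivAt.fun_sum h1
  refine h3.congr_deriv ?_
  rw [Finset.sum_add_distrib, Finset.mul_sum]
  congr 1
  exact Finset.sum_congr rfl fun j _ => by ring

theorem path_bl (hL : IsLandsberg U F G) {x y : Fin n → ℝ} (hP : Para G x) (hx : x ∈ U)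
    (hy : y ≠ 0) (w : Fin n → ℝ) :
    HasDerivAt (fun t : ℝ => bl F G (w + t • (-Nw G w x y)) (x + t • y)
      (y + t • (-(2:ℝ) • G x y))) 0 0 := by
  have hU := hF.isOpen
  have hJ : JS U (bl F G w) := JS.sum fun j _ => (JS.dy hU (JS.dy hU (JS.dy hU
    (G_JS hF hG j) w) w) w).mul (JS.dy hU ((q_JS hF).pd hU j) w)
  have h1 := flow_hasDeriv hF hG hJ hx hy
  rw [flow_bl hF hG hL hP w hx hy] at h1
  have h2 := dw_bl hF hG hx hy w (-Nw G w x y)
  have h3 := (bl_J3 hF hG).path (w := w) (c := -Nw G w x y) hx hy h1 h2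
  simp only [dd_neg_dir] at h3
  refine h3.congr_deriv ?_
  simp only [neg_mul, mul_neg, Finset.sum_neg_distrib]
  ring

omit hF hG in
/-- the function to which the maximum principle is applied -/
noncomputable def Phi (F : (Fin n → ℝ) → (Fin n → ℝ) → ℝ)
    (G : (Fin n → ℝ) → (Fin n → ℝ) → (Fin n → ℝ)) (x y w : Fin n → ℝ) : ℝ :=
  F x y ^ 3 * ul F w x y * bl F G w x y / al F w x y ^ 4

omit hG in
theorem al_pos {x y w : Fin n → ℝ} (hx : x ∈ U) (hy : y ≠ 0) (hw : w ≠ 0) : 0 < al F w x y := by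
  have h := (q_mn hF hx).conv y hy w hw
  have e : al F w x y = ∑ i, ∑ j, pd i (pd j (q F x)) y * w i * w j := by
    unfold al
    rw [dd_eq]
    refine Finset.sum_congr rfl fun i _ => ?_
    rw [← dd_single, dd_dd_eq (q_mn hF hx).sm _ _ hy, Finset.mul_sum]
    exact Finset.sum_congr rfl fun j _ => by rw [dd_single]; ring
  rw [e]
  exact h

/-- the derivative of `Phi` along the lifted flow -/
theorem path_Phi (hL : IsLandsberg U F G) {x y : Fin n → ℝ} (hP : Para G x) (hx : x ∈ U)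
    (hy : y ≠ 0) {w : Fin n → ℝ} (hw : w ≠ 0) :
    HasDerivAt (fun t : ℝ => Phi F G (x + t • y) (y + t • (-(2:ℝ) • G x y))
      (w + t • (-Nw G w x y))) (-2 * F x y ^ 3 * bl F G w x y ^ 2 / al F w x y ^ 4) 0 := by
  have hF1 := path_F hF hG hx hy
  have ha := path_al hF hG hx hy w
  have hu := path_ul hF hG hL hx hy w
  have hb := path_bl hF hG hL hP hx hy w
  have hne : al F w x y ≠ 0 := (al_pos hF hx hy hw).ne'
  have h0 : al F (w + (0:ℝ) • (-Nw G w x y)) (x + (0:ℝ) • y)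
      (y + (0:ℝ) • (-(2:ℝ) • G x y)) ^ 4 ≠ 0 := by
    simp only [zero_smul, add_zero]
    exact pow_ne_zero 4 hne
  have h := (((hF1.pow 3).mul hu).mul hb).div (ha.pow 4) h0
  refine HasDerivAt.congr_deriv (f' := _) h ?_
  simp only [Pi.pow_apply, Pi.mul_apply, zero_smul, add_zero]
  have h4 : al F w x y ^ 4 ≠ 0 := pow_ne_zero 4 hne
  field_simp
  ring

/-- continuity of `Phi` -/
theorem Phi_cont {x y w : Fin n → ℝ} (hx : x ∈ U) (hy : y ≠ 0) (hw : w ≠ 0) :
    ContinuousAt (fun p : (Fin n → ℝ) × (Fin n → ℝ) × (Fin n → ℝ) => Phi F G p.1 p.2.1 p.2.2)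
      (x, y, w) := by
  have h1 := ((J3.of_JS (F_JS hF)) x hx y hy w).continuousAt
  have h2 := ((ul_J3 hF) x hx y hy w).continuousAt
  have h3 := ((bl_J3 hF hG) x hx y hy w).continuousAt
  have h4 := ((al_J3 hF) x hx y hy w).continuousAt
  exact (((h1.pow 3).mul h2).mul h3).div (h4.pow 4) (pow_ne_zero 4 (al_pos hF hx hy hw).ne')

/-- polarisation: the Berwald curvature vanishes if its lowered form vanishes on `w` -/
theorem berwald_of_bl (hL : IsLandsberg U F G) {x y : Fin n → ℝ} (hx : x ∈ U) (hy : y ≠ 0)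
    (h : ∀ w, w ≠ 0 → bl F G w x y = 0) (i j k l : Fin n) : berwald G x y i j k l = 0 := by
  have hQ := q_mn hF hx
  have hGs : ∀ i, Sm (fun z => G x z i) := fun i => (G_JS hF hG i).sm hx
  have hall : ∀ w, bl F G w x y = 0 := by
    intro w
    by_cases hw : w = 0
    · unfold bl
      refine Finset.sum_eq_zero fun j _ => ?_
      have : dd w (pd j (q F x)) y = 0 := by
        rw [hw]; unfold dd; exact map_zero _
      rw [this, mul_zero]
    · exact h w hw
  -- the cubic form vanishes against every covector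
  have h1 : ∀ w c : Fin n → ℝ,
      ∑ j, dd w (dd w (dd w (fun z => G x z j))) y * dd c (pd j (q F x)) y = 0 := by
    intro w c
    have h2 := dw_bl hF hG hx hy w c
    have e : (fun t : ℝ => bl F G (w + t • c) x y) = fun _ => 0 := by
      funext t
      exact hall _
    rw [e] at h2
    have h3 := h2.unique (hasDerivAt_const (0:ℝ) (0:ℝ))
    have h4 := hess_X_symm hQ.sm hGs (fun y hy u v w => lands_vec hF hG hL hx y hy u v w) hy
      w w w c
    have e1 : ∀ a b : Fin n → ℝ, dd a (dd (X (fun i z => G x z i) y w w b) (q F x)) y =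
        ∑ j, dd w (dd w (dd b (fun z => G x z j))) y * dd a (pd j (q F x)) y := by
      intro a b
      rw [dd_dd_eq hQ.sm _ _ hy]
      rfl
    rw [e1, e1] at h4
    have e2 : ∀ j, dd c (dd w (dd w (fun z => G x z j))) y =
        dd w (dd w (dd c (fun z => G x z j))) y := fun j => dd_swap13 (hGs j) c w w hy
    simp only [e2] at h3
    linarith
  -- the cubic form vanishes
  have h2 : ∀ (w : Fin n → ℝ) (j : Fin n), dd w (dd w (dd w (fun z => G x z j))) y = 0 := by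
    intro w
    have h3 : (fun j => dd w (dd w (dd w (fun z => G x z j))) y) ᵥ* A (q F x) y = 0 := by
      ext c
      simp only [Matrix.vecMul, dotProduct, Pi.zero_apply]
      rw [← h1 w (Pi.single c 1)]
      exact Finset.sum_congr rfl fun j _ => by
        rw [dd_single]
        congr 1
        exact pd2_symm hQ j c hy
    have h4 := congrArg (fun v => v ᵥ* (A (q F x) y)⁻¹) h3
    simp only [Matrix.vecMul_vecMul, APy hQ hy, Matrix.vecMul_one, Matrix.zero_vecMul] at h4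
    exact fun j => congrFun h4 j
  have h3 : ∀ (w c : Fin n → ℝ) (j : Fin n), dd c (dd w (dd w (fun z => G x z j))) y = 0 := by
    intro w c j
    have h4 := hd3 (hGs j) w c hy
    have e : (fun t : ℝ => dd (w + t • c) (dd (w + t • c) (dd (w + t • c)
      (fun z => G x z j))) y) = fun _ => 0 := by
      funext t
      exact h2 _ j
    rw [e] at h4
    have h5 := h4.unique (hasDerivAt_const (0:ℝ) (0:ℝ))
    linarith
  have h4 : ∀ (w c c' : Fin n → ℝ) (j : Fin n),
      dd c' (dd w (dd c (fun z => G x z j))) y = 0 := by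
    intro w c c' j
    have e0 : ∀ w : Fin n → ℝ, dd w (dd w (dd c (fun z => G x z j))) y = 0 := by
      intro w
      rw [← dd_swap13 (hGs j) c w w hy]
      exact h3 w c j
    have h5 := hd2 (Sm.dd (hGs j) c) w c' hy
    have e : (fun t : ℝ => dd (w + t • c') (dd (w + t • c') (dd c (fun z => G x z j))) y) =
        fun _ => 0 := by
      funext t
      exact e0 _
    rw [e] at h5
    have h6 := h5.unique (hasDerivAt_const (0:ℝ) (0:ℝ))
    linarith
  exact h4 (Pi.single k 1) (Pi.single l 1) (Pi.single j 1) i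

end

end Pool.Agent.H792.KF
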