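import Pool.Agent.H792.KF.Kill

/-!
# The scalar curvature is invariant under infinitesimal isometries
-/

set_option autoImplicit false

open scoped BigOperators ContDiff Topology Matrix
open Filter Set

namespace Pool.Agent.H792.KF

open Pool.Agent.R774.BW Pool.Agent.H792.Gen Pool.Agent.H792.LF

variable {n : ℕ}

/-- matrix valued functions with smooth entries -/
def SmM (f : (Fin n → ℝ) → Matrix (Fin n) (Fin n) ℝ) : Prop := ∀ c d, Sm (fun y => f y c d)

/-- the derivative of a matrix valued function along `X` -/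
noncomputable def dM (X : Fin n → (Fin n → ℝ) → ℝ) (f : (Fin n → ℝ) → Matrix (Fin n) (Fin n) ℝ)
    (y : Fin n → ℝ) : Matrix (Fin n) (Fin n) ℝ :=
  Matrix.of fun c d => dz X (fun y => f y c d) y

/-- the third derivatives of `Q` -/
noncomputable def TM (Q : (Fin n → ℝ) → ℝ) (a : Fin n) (y : Fin n → ℝ) :
    Matrix (Fin n) (Fin n) ℝ := Matrix.of fun b c => pd a (pd b (pd c Q)) y

/-- the curvature of the Hessian metric -/
noncomputable def SM (Q : (Fin n → ℝ) → ℝ) (a b : Fin n) (y : Fin n → ℝ) :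
    Matrix (Fin n) (Fin n) ℝ :=
  TM Q a y * (A Q y)⁻¹ * TM Q b y - TM Q b y * (A Q y)⁻¹ * TM Q a y

/-- first derivatives of a vector field -/
noncomputable def X1 (X : Fin n → (Fin n → ℝ) → ℝ) (y : Fin n → ℝ) : Matrix (Fin n) (Fin n) ℝ :=
  Matrix.of fun i a => pd a (X i) y

/-- second derivatives of a vector field -/
noncomputable def X2 (X : Fin n → (Fin n → ℝ) → ℝ) (a : Fin n) (y : Fin n → ℝ) :
    Matrix (Fin n) (Fin n) ℝ := Matrix.of fun i b => pd a (pd b (X i)) y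

/-- the Ricci tensor (up to a constant factor) -/
noncomputable def Ric (Q : (Fin n → ℝ) → ℝ) (y : Fin n → ℝ) : Matrix (Fin n) (Fin n) ℝ :=
  Matrix.of fun b d => ∑ a, ((A Q y)⁻¹ * SM Q a b y) a d

/-- the scalar curvature (up to a constant factor) -/
noncomputable def rho (Q : (Fin n → ℝ) → ℝ) (y : Fin n → ℝ) : ℝ :=
  Matrix.trace ((A Q y)⁻¹ * Ric Q y)

section

variable {f g : (Fin n → ℝ) → Matrix (Fin n) (Fin n) ℝ} {X : Fin n → (Fin n → ℝ) → ℝ}
  {y : Fin n → ℝ}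

theorem SmM.mul (hf : SmM f) (hg : SmM g) : SmM (fun y => f y * g y) := by
  intro c d
  have e : (fun y => (f y * g y) c d) = fun y => ∑ p, f y c p * g y p d := by
    funext y
    exact Matrix.mul_apply
  rw [e]
  exact Sm.sum fun p _ => (hf c p).mul (hg p d)

theorem SmM.sub (hf : SmM f) (hg : SmM g) : SmM (fun y => f y - g y) :=
  fun c d => (hf c d).sub (hg c d)

theorem dM_mul (hf : SmM f) (hg : SmM g) (hy : y ≠ 0) :
    dM X (fun y => f y * g y) y = dM X f y * g y + f y * dM X g y := by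
  ext c d
  have e : (fun y => (f y * g y) c d) = fun y => ∑ p, f y c p * g y p d := by
    funext y
    exact Matrix.mul_apply
  simp only [dM, Matrix.of_apply, Matrix.add_apply, Matrix.mul_apply]
  rw [dz_sum X (fun p _ => (hf c p).mul (hg p d)) hy, ← Finset.sum_add_distrib]
  exact Finset.sum_congr rfl fun p _ => dz_mul X (hf c p) (hg p d) hy

theorem dz_sub' {f g : (Fin n → ℝ) → ℝ} (hf : Sm f) (hg : Sm g) (hy : y ≠ 0) :
    dz X (fun y => f y - g y) y = dz X f y - dz X g y := by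
  unfold dz
  rw [← Finset.sum_sub_distrib]
  exact Finset.sum_congr rfl fun m _ => by rw [pd_sub hf hg m hy]; ring

theorem dz_const (c : ℝ) : dz X (fun _ => c) y = 0 := by
  unfold dz
  simp [pd_const]

theorem dz_congr {f g : (Fin n → ℝ) → ℝ} (h : ∀ y, y ≠ 0 → f y = g y) (hy : y ≠ 0) :
    dz X f y = dz X g y := by
  unfold dz
  exact Finset.sum_congr rfl fun m _ => by rw [pd_congr h m hy]

theorem dM_sub (hf : SmM f) (hg : SmM g) (hy : y ≠ 0) :
    dM X (fun y => f y - g y) y = dM X f y - dM X g y := by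
  ext c d
  exact dz_sub' (hf c d) (hg c d) hy

end

section

variable {Q : (Fin n → ℝ) → ℝ} (hQ : MN Q)

include hQ

theorem TM_sm (a : Fin n) : SmM (TM Q a) := fun b c => ((hQ.sm.pd c).pd b).pd a

theorem A_sm : SmM (A Q) := fun b c => (hQ.sm.pd c).pd b

theorem P_smM : SmM (fun y => (A Q y)⁻¹) := fun b c => P_sm hQ b c

theorem SM_sm (a b : Fin n) : SmM (SM Q a b) :=
  (((TM_sm hQ a).mul (P_smM hQ)).mul (TM_sm hQ b)).sub
    (((TM_sm hQ b).mul (P_smM hQ)).mul (TM_sm hQ a))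

theorem Ric_sm : SmM (Ric Q) := by
  intro b d
  have h : ∀ a, Sm (fun y => ((A Q y)⁻¹ * SM Q a b y) a d) := fun a =>
    ((P_smM hQ).mul (SM_sm hQ a b)) a d
  exact Sm.sum (s := Finset.univ) (f := fun a y => ((A Q y)⁻¹ * SM Q a b y) a d) fun a _ => h a

theorem rho_sm : Sm (rho Q) := by
  have h : ∀ a, Sm (fun y => ((A Q y)⁻¹ * Ric Q y) a a) := fun a =>
    ((P_smM hQ).mul (Ric_sm hQ)) a a
  exact Sm.sum (s := Finset.univ) (f := fun a y => ((A Q y)⁻¹ * Ric Q y) a a) fun a _ => h a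

variable {y : Fin n → ℝ} (hy : y ≠ 0)

include hy

theorem PAy : (A Q y)⁻¹ * A Q y = 1 :=
  Matrix.nonsing_inv_mul _ (isUnit_iff_ne_zero.2 (A_det_pos hQ hy).ne')

theorem APy : A Q y * (A Q y)⁻¹ = 1 :=
  Matrix.mul_nonsing_inv _ (isUnit_iff_ne_zero.2 (A_det_pos hQ hy).ne')

theorem TM_hom (a : Fin n) {t : ℝ} (ht : 0 < t) : TM Q a (t • y) = t⁻¹ • TM Q a y := by
  ext b c
  have := hom_pd3 hQ a b c y hy t ht
  simpa [TM] using this

theorem A_hom {t : ℝ} (ht : 0 < t) : A Q (t • y) = A Q y := by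
  ext a b
  have := hom_pd2 hQ a b y hy t ht
  simpa [A] using this

theorem SM_hom (a b : Fin n) {t : ℝ} (ht : 0 < t) :
    SM Q a b (t • y) = (t⁻¹ * t⁻¹) • SM Q a b y := by
  unfold SM
  rw [TM_hom hQ hy a ht, TM_hom hQ hy b ht, A_hom hQ hy ht]
  simp only [Matrix.smul_mul, Matrix.mul_smul, smul_smul, smul_sub]

theorem rho_hom {t : ℝ} (ht : 0 < t) : Q (t • y) * rho Q (t • y) = Q y * rho Q y := by
  have h1 : Ric Q (t • y) = (t⁻¹ * t⁻¹) • Ric Q y := by
    ext b d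
    simp only [Ric, Matrix.of_apply, Matrix.smul_apply, smul_eq_mul, Finset.mul_sum]
    refine Finset.sum_congr rfl fun a _ => ?_
    rw [SM_hom hQ hy a b ht, A_hom hQ hy ht, Matrix.mul_smul]
    rfl
  have h2 : rho Q (t • y) = (t⁻¹ * t⁻¹) * rho Q y := by
    unfold rho
    rw [h1, A_hom hQ hy ht, Matrix.mul_smul, Matrix.trace_smul, smul_eq_mul]
  rw [h2, hQ.hom y hy t ht]
  field_simp

variable {X : Fin n → (Fin n → ℝ) → ℝ} (hX : Kil Q X)

include hX

theorem dM_A : dM X (A Q) y = -((X1 X y)ᵀ * A Q y + A Q y * X1 X y) := by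
  ext a b
  simp only [dM, dz, Matrix.of_apply, Matrix.add_apply, Matrix.mul_apply, Matrix.transpose_apply,
    A, X1, Matrix.neg_apply]
  have h := hX.eq y hy a b
  simp only [Finset.sum_add_distrib] at h
  have e1 : ∑ i, pd a (X i) y * pd i (pd b Q) y = ∑ i, pd i (pd b Q) y * pd a (X i) y :=
    Finset.sum_congr rfl fun i _ => mul_comm _ _
  have e2 : ∑ i, pd a (pd i Q) y * pd b (X i) y = ∑ i, pd i (pd a Q) y * pd b (X i) y :=
    Finset.sum_congr rfl fun i _ => by rw [pd2_symm hQ a i hy]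
  rw [e1, e2]
  linarith

theorem dM_T (a : Fin n) : dM X (TM Q a) y =
    -(∑ i, X1 X y i a • TM Q i y + (X1 X y)ᵀ * TM Q a y + TM Q a y * X1 X y +
      (2 : ℝ) • ((X2 X a y)ᵀ * A Q y)) := by
  ext b c
  simp only [dM, dz, Matrix.of_apply, Matrix.add_apply, Matrix.mul_apply, Matrix.transpose_apply,
    A, X1, X2, Matrix.neg_apply, Matrix.smul_apply, Matrix.sum_apply, TM, smul_eq_mul]
  have h := be_eq hQ hX hy a b c
  unfold W3 be at h
  simp only [Finset.sum_add_distrib] at h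
  have e1 : ∑ i, pd a (pd b (pd i Q)) y * pd c (X i) y =
      ∑ i, pd c (X i) y * pd i (pd a (pd b Q)) y :=
    Finset.sum_congr rfl fun i _ => by
      rw [pd3_symm2 hQ a b i hy, pd3_symm1 hQ a i b hy]; ring
  have e2 : ∑ i, pd b (X i) y * pd a (pd i (pd c Q)) y =
      ∑ i, pd b (X i) y * pd i (pd a (pd c Q)) y :=
    Finset.sum_congr rfl fun i _ => by rw [pd3_symm1 hQ a i c hy]
  rw [e1, e2]
  linarith

theorem X2_A (a : Fin n) : (X2 X a y)ᵀ * A Q y = A Q y * X2 X a y := by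
  ext b c
  simp only [Matrix.of_apply, Matrix.mul_apply, Matrix.transpose_apply, A, X2]
  have h := be_symm2 hQ hX hy a b c
  unfold be at h
  rw [h]
  exact Finset.sum_congr rfl fun i _ => by rw [pd2_symm hQ b i hy]; ring

theorem star_MX (a b : Fin n) : TM Q a y * X2 X b y - TM Q b y * X2 X a y -
    (X2 X b y)ᵀ * TM Q a y + (X2 X a y)ᵀ * TM Q b y = 0 := by
  ext m l
  have h := star_X hQ hX hy a b m l
  simp only [Matrix.of_apply, Matrix.add_apply, Matrix.sub_apply, Matrix.mul_apply,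
    Matrix.transpose_apply, TM, X2, Matrix.zero_apply]
  exact h

theorem dM_P : dM X (fun y => (A Q y)⁻¹) y =
    (A Q y)⁻¹ * (X1 X y)ᵀ + X1 X y * (A Q y)⁻¹ := by
  have h1 : dM X (fun y => (A Q y)⁻¹ * A Q y) y = 0 := by
    ext c d
    simp only [dM, Matrix.of_apply, Matrix.zero_apply]
    rw [dz_congr (g := fun _ => (1 : Matrix (Fin n) (Fin n) ℝ) c d)
      (fun y' hy' => by rw [PAy hQ hy']) hy, dz_const]
  rw [dM_mul (P_smM hQ) (A_sm hQ) hy, dM_A hQ hy hX] at h1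
  have h2 := congrArg (fun M => M * (A Q y)⁻¹) h1
  simp only [add_mul, zero_mul, mul_add, mul_neg, neg_mul] at h2
  rw [mul_assoc, APy hQ hy, mul_one, mul_assoc ((A Q y)⁻¹) ((X1 X y)ᵀ * A Q y),
    mul_assoc ((X1 X y)ᵀ), APy hQ hy, mul_one, ← mul_assoc ((A Q y)⁻¹) (A Q y),
    PAy hQ hy, one_mul] at h2
  rw [← sub_eq_zero, ← h2]
  abel

/-- the curvature of the Hessian metric is invariant -/
theorem dM_S (a b : Fin n) : dM X (SM Q a b) y =
    -(∑ i, X1 X y i a • SM Q i b y + ∑ i, X1 X y i b • SM Q a i y +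
      (X1 X y)ᵀ * SM Q a b y + SM Q a b y * X1 X y) := by
  have e : SM Q a b = fun y => TM Q a y * (A Q y)⁻¹ * TM Q b y -
    TM Q b y * (A Q y)⁻¹ * TM Q a y := rfl
  have key : ∀ a b : Fin n, dM X (fun y => TM Q a y * (A Q y)⁻¹ * TM Q b y) y =
      -(∑ i, X1 X y i a • (TM Q i y * (A Q y)⁻¹ * TM Q b y) +
      ∑ i, X1 X y i b • (TM Q a y * (A Q y)⁻¹ * TM Q i y) +
      (X1 X y)ᵀ * (TM Q a y * (A Q y)⁻¹ * TM Q b y) +
      (TM Q a y * (A Q y)⁻¹ * TM Q b y) * X1 X y +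
      (2 : ℝ) • ((X2 X a y)ᵀ * TM Q b y + TM Q a y * X2 X b y)) := by
    intro a b
    rw [dM_mul (f := fun y => TM Q a y * (A Q y)⁻¹) ((TM_sm hQ a).mul (P_smM hQ))
      (TM_sm hQ b) hy, dM_mul (TM_sm hQ a) (P_smM hQ) hy, dM_T hQ hy hX,
      dM_T hQ hy hX, dM_P hQ hy hX, X2_A hQ hy hX b]
    have h1 : (X2 X a y)ᵀ * A Q y * (A Q y)⁻¹ = (X2 X a y)ᵀ := by
      rw [mul_assoc, APy hQ hy, mul_one]
    have h2 : (A Q y)⁻¹ * (A Q y * X2 X b y) = X2 X b y := by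
      rw [← mul_assoc, PAy hQ hy, one_mul]
    have h3 : (∑ i, X1 X y i a • TM Q i y) * (A Q y)⁻¹ * TM Q b y =
        ∑ i, X1 X y i a • (TM Q i y * (A Q y)⁻¹ * TM Q b y) := by
      rw [Finset.sum_mul, Finset.sum_mul]
      exact Finset.sum_congr rfl fun i _ => by rw [smul_mul_assoc, smul_mul_assoc]
    have h4 : TM Q a y * (A Q y)⁻¹ * (∑ i, X1 X y i b • TM Q i y) =
        ∑ i, X1 X y i b • (TM Q a y * (A Q y)⁻¹ * TM Q i y) := by
      rw [Finset.mul_sum]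
      exact Finset.sum_congr rfl fun i _ => by rw [mul_smul_comm]
    have h5 : (2 : ℝ) • ((X2 X a y)ᵀ * A Q y) * (A Q y)⁻¹ * TM Q b y =
        (2 : ℝ) • ((X2 X a y)ᵀ * TM Q b y) := by
      rw [smul_mul_assoc, h1, smul_mul_assoc]
    have h6 : TM Q a y * (A Q y)⁻¹ * ((2 : ℝ) • (A Q y * X2 X b y)) =
        (2 : ℝ) • (TM Q a y * X2 X b y) := by
      rw [mul_smul_comm, mul_assoc, h2]
    simp only [add_mul, mul_add, neg_mul, mul_neg, h3, h4, h5, h6, smul_add]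
    noncomm_ring
  rw [e, dM_sub (((TM_sm hQ a).mul (P_smM hQ)).mul (TM_sm hQ b))
    (((TM_sm hQ b).mul (P_smM hQ)).mul (TM_sm hQ a)) hy, key a b, key b a]
  have hst := star_MX hQ hy hX a b
  have hst2 : (2 : ℝ) • ((X2 X a y)ᵀ * TM Q b y + TM Q a y * X2 X b y) =
      (2 : ℝ) • ((X2 X b y)ᵀ * TM Q a y + TM Q b y * X2 X a y) := by
    congr 1
    rw [← sub_eq_zero, ← hst]
    abel
  rw [hst2]
  simp only [SM, smul_sub, Finset.sum_sub_distrib, mul_sub, sub_mul]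
  abel

theorem dM_Ric : dM X (Ric Q) y = -((X1 X y)ᵀ * Ric Q y + Ric Q y * X1 X y) := by
  ext b d
  have h1 : dM X (Ric Q) y b d = ∑ a, dM X (fun y => (A Q y)⁻¹ * SM Q a b y) y a d := by
    simp only [dM, Matrix.of_apply, Ric]
    exact dz_sum X (f := fun a y => ((A Q y)⁻¹ * SM Q a b y) a d)
      (fun a _ => ((P_smM hQ).mul (SM_sm hQ a b)) a d) hy
  have h2 : ∀ a, dM X (fun y => (A Q y)⁻¹ * SM Q a b y) y = X1 X y * ((A Q y)⁻¹ * SM Q a b y) -
      ∑ i, X1 X y i a • ((A Q y)⁻¹ * SM Q i b y) - ∑ i, X1 X y i b • ((A Q y)⁻¹ * SM Q a i y) -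
      ((A Q y)⁻¹ * SM Q a b y) * X1 X y := by
    intro a
    rw [dM_mul (P_smM hQ) (SM_sm hQ a b) hy, dM_P hQ hy hX, dM_S hQ hy hX]
    simp only [mul_neg, mul_add, Finset.mul_sum, mul_smul_comm, add_mul]
    noncomm_ring
  rw [h1]
  simp only [h2, Matrix.sub_apply, Matrix.neg_apply, Matrix.add_apply, Finset.sum_sub_distrib,
    Matrix.sum_apply, Matrix.smul_apply, smul_eq_mul, Ric, Matrix.mul_apply (M := X1 X y),
    Matrix.mul_apply (N := X1 X y), Matrix.mul_apply (M := (X1 X y)ᵀ), Matrix.transpose_apply,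
    Matrix.of_apply, Finset.mul_sum, Finset.sum_mul]
  have e1 : ∑ a, ∑ i, X1 X y a i * ((A Q y)⁻¹ * SM Q a b y) i d =
      ∑ a, ∑ i, X1 X y i a * ((A Q y)⁻¹ * SM Q i b y) a d := by
    rw [Finset.sum_comm]
  rw [e1, Finset.sum_comm (f := fun a i => X1 X y i b * ((A Q y)⁻¹ * SM Q a i y) a d)]
  have e2 : ∑ a, ∑ i, ((A Q y)⁻¹ * SM Q a b y) a i * X1 X y i d =
      ∑ i, ∑ a, ((A Q y)⁻¹ * SM Q a b y) a i * X1 X y i d := Finset.sum_comm
  rw [e2]
  ring

/-- the scalar curvature is invariant -/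
theorem dz_rho : dz X (rho Q) y = 0 := by
  have h1 : dz X (rho Q) y = Matrix.trace (dM X (fun y => (A Q y)⁻¹ * Ric Q y) y) := by
    exact dz_sum X (s := Finset.univ) (f := fun a y => ((A Q y)⁻¹ * Ric Q y) a a)
      (fun a _ => ((P_smM hQ).mul (Ric_sm hQ)) a a) hy
  rw [h1, dM_mul (P_smM hQ) (Ric_sm hQ) hy, dM_P hQ hy hX, dM_Ric hQ hy hX]
  simp only [add_mul, mul_neg, mul_add, Matrix.trace_add, Matrix.trace_neg]
  have e1 : Matrix.trace ((A Q y)⁻¹ * (X1 X y)ᵀ * Ric Q y) =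
      Matrix.trace ((A Q y)⁻¹ * ((X1 X y)ᵀ * Ric Q y)) := by rw [mul_assoc]
  have e2 : Matrix.trace (X1 X y * (A Q y)⁻¹ * Ric Q y) =
      Matrix.trace ((A Q y)⁻¹ * (Ric Q y * X1 X y)) := by
    rw [mul_assoc, Matrix.trace_mul_comm, mul_assoc]
  rw [e1, e2]
  ring

theorem dz_sig : dz X (fun y => Q y * rho Q y) y = 0 := by
  rw [dz_mul X hQ.sm (rho_sm hQ) hy, dz_rho hQ hy hX]
  have : dz X Q y = 0 := tang hQ hX hy
  rw [this]; ring

end

end Pool.Agent.H792.KF
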