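import Pool.Graph.R_seed8.R774.BW.Few

/-!
# Norms with few infinitesimal isometries
-/

set_option autoImplicit false

open scoped BigOperators Matrix

namespace Pool.Agent.H792.KF

open Pool.Agent.R774.BW

variable {n : ℕ}

/-- any two infinitesimal isometries of the norm `F(x,·)` are proportional (with constant
coefficients) -/
def Proportional (F : (Fin n → ℝ) → (Fin n → ℝ) → ℝ) (x : Fin n → ℝ) : Prop :=
  ∀ X Y : (Fin n → ℝ) → Fin n → ℝ, IsKilling F x X → IsKilling F x Y →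
    ∃ a b : ℝ, (a ≠ 0 ∨ b ≠ 0) ∧ ∀ y, y ≠ 0 → ∀ i, a * X y i + b * Y y i = 0

/-- all infinitesimal isometries of the norm `F(x,·)` are linear, or any two are proportional -/
def Tame (F : (Fin n → ℝ) → (Fin n → ℝ) → ℝ) (x : Fin n → ℝ) : Prop :=
  (∀ X : (Fin n → ℝ) → Fin n → ℝ, IsKilling F x X →
    ∃ A : Matrix (Fin n) (Fin n) ℝ, ∀ y, y ≠ 0 → X y = A *ᵥ y) ∨ Proportional F x

end Pool.Agent.H792.KF
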