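import Pool.Agent.H792.KF.CurDefs
import Pool.Agent.H792.KF.TameDefs
import Pool.Agent.H792.KF.ManiDefs

/-!
# The statements on closed and on local Landsberg metrics
-/

set_option autoImplicit false

open scoped Manifold ContDiff Matrix

namespace Pool.Agent.H792.KF

open Pool.Agent.R774.BW Pool.Agent.H792.Gen

/-- the curvature of the nonlinear connection vanishes on the fibre over `x` -/
def FlatAt {n : ℕ} (G : (Fin n → ℝ) → (Fin n → ℝ) → (Fin n → ℝ)) (x : Fin n → ℝ) : Prop :=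
  ∀ y, y ≠ 0 → ∀ i k l, curvature G x y i k l = 0

/-- the Berwald curvature vanishes on the fibre over `x` -/
def BerwaldAt {n : ℕ} (G : (Fin n → ℝ) → (Fin n → ℝ) → (Fin n → ℝ)) (x : Fin n → ℝ) : Prop :=
  ∀ y, y ≠ 0 → ∀ i j k l, berwald G x y i j k l = 0

/-- `F` is a smooth Finsler metric on the open set `U` with spray coefficients `G` and vanishing
Landsberg curvature -/
def LandsbergOn {n : ℕ} (U : Set (Fin n → ℝ)) (F : (Fin n → ℝ) → (Fin n → ℝ) → ℝ)
    (G : (Fin n → ℝ) → (Fin n → ℝ) → (Fin n → ℝ)) : Prop :=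
  IsFinsler U F ∧ IsSpray U F G ∧ IsLandsberg U F G

/-- closed Landsberg manifolds of dimension three are Berwald manifolds -/
def ClosedThree : Prop :=
  ∀ (M : Type) [TopologicalSpace M] [CompactSpace M] [ChartedSpace (Fin 3 → ℝ) M]
    [IsManifold 𝓘(ℝ, Fin 3 → ℝ) ∞ M] (F : TangentBundle 𝓘(ℝ, Fin 3 → ℝ) M → ℝ),
    IsFinslerMetric F → IsLandsbergMetric F → IsBerwaldMetric F

/-- closed Landsberg manifolds of dimension `n` with tame tangent norms are Berwald manifolds -/
def ClosedTame (n : ℕ) : Prop :=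
  ∀ (M : Type) [TopologicalSpace M] [CompactSpace M] [ChartedSpace (Fin n → ℝ) M]
    [IsManifold 𝓘(ℝ, Fin n → ℝ) ∞ M] (F : TangentBundle 𝓘(ℝ, Fin n → ℝ) M → ℝ),
    IsFinslerMetric F → IsLandsbergMetric F →
    (∀ e ∈ atlas (Fin n → ℝ) M, ∀ x ∈ e.target, Tame (loc F e) x) → IsBerwaldMetric F

end Pool.Agent.H792.KF
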