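import Pool.Agent.H792.KF.Main

/-!
# Derivatives along the geodesic flow: the fourth derivative of `F²` and the Berwald curvature
-/

set_option autoImplicit false

open scoped BigOperators ContDiff Topology Matrix
open Filter Set

namespace Pool.Agent.H792.KF

open Pool.Agent.R774.BW Pool.Agent.H792.Gen Pool.Agent.H792.LF

variable {n : ℕ}

section fibre

variable {f g : (Fin n → ℝ) → ℝ}

theorem dd_add (hf : Sm f) (hg : Sm g) (w : Fin n → ℝ) {y : Fin n → ℝ} (hy : y ≠ 0) :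
    dd w (fun y => f y + g y) y = dd w f y + dd w g y := by
  unfold Gen.dd
  rw [fderiv_fun_add (hf.diff hy) (hg.diff hy)]
  rfl

/-- derivative of a sum of products -/
theorem dd_sum_mul {ι : Type*} {s : Finset ι} {a b : ι → (Fin n → ℝ) → ℝ} (ha : ∀ i ∈ s, Sm (a i))
    (hb : ∀ i ∈ s, Sm (b i)) (w : Fin n → ℝ) {y : Fin n → ℝ} (hy : y ≠ 0) :
    dd w (fun y => ∑ i ∈ s, a i y * b i y) y =
      ∑ i ∈ s, dd w (a i) y * b i y + ∑ i ∈ s, a i y * dd w (b i) y := by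
  rw [dd_sum (fun i hi => (ha i hi).mul (hb i hi)) w hy, ← Finset.sum_add_distrib]
  exact Finset.sum_congr rfl fun i hi => dd_mul (ha i hi) (hb i hi) w hy

theorem dd_pd (hf : Sm f) (w : Fin n → ℝ) (j : Fin n) {y : Fin n → ℝ} (hy : y ≠ 0) :
    dd w (pd j f) y = pd j (dd w f) y := by
  have := dd_comm hf w (Pi.single j 1) hy
  rwa [dd_single, dd_single] at this

theorem dd_pd2 (hf : Sm f) (w : Fin n → ℝ) (j : Fin n) {y : Fin n → ℝ} (hy : y ≠ 0) :
    dd w (dd w (pd j f)) y = pd j (dd w (dd w f)) y := by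
  rw [dd_congr (fun z hz => dd_pd hf w j hz) w hy, dd_pd (Sm.dd hf w) w j hy]

theorem dd_pd3 (hf : Sm f) (w : Fin n → ℝ) (j : Fin n) {y : Fin n → ℝ} (hy : y ≠ 0) :
    dd w (dd w (dd w (pd j f))) y = pd j (dd w (dd w (dd w f))) y := by
  rw [dd_congr (fun z hz => dd_pd2 hf w j hz) w hy, dd_pd (Sm.dd (Sm.dd hf w) w) w j hy]

/-- derivatives of homogeneous functions are homogeneous -/
theorem Hom.dd' {m : ℤ} (h : Hom m f) (hf : Sm f) (w : Fin n → ℝ) : Hom (m - 1) (dd w f) := by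
  have e : ∀ y, dd w f y = ∑ k, w k * pd k f y := dd_eq w f
  have h1 : Hom (m - 1) (fun y => ∑ k, w k * pd k f y) := by
    refine Hom.sum' fun k _ => ?_
    have := Hom.mul' (hom_const (n := n) (w k)) (h.pd hf k)
    rwa [zero_add] at this
  intro y hy t ht
  rw [e, e]
  exact h1 y hy t ht

/-- Euler's relation -/
theorem euler_dd {m : ℤ} (h : Hom m f) (hf : Sm f) {y : Fin n → ℝ} (hy : y ≠ 0) :
    dd y f y = m * f y := by
  rw [dd_eq]
  exact h.euler hf hy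

theorem euler_c1 {m : ℤ} (h : Hom m f) (hf : Sm f) (w : Fin n → ℝ) {y : Fin n → ℝ} (hy : y ≠ 0) :
    dd w (dd y f) y = (m - 1 : ℝ) * dd w f y := by
  rw [dd_comm hf w y hy, euler_dd (Hom.dd' h hf w) (Sm.dd hf w) hy]
  push_cast
  rfl

theorem euler_c2 {m : ℤ} (h : Hom m f) (hf : Sm f) (w : Fin n → ℝ) {y : Fin n → ℝ} (hy : y ≠ 0) :
    dd w (dd w (dd y f)) y = (m - 2 : ℝ) * dd w (dd w f) y := by
  rw [dd_congr (fun z hz => dd_comm hf w y hz) w hy, euler_c1 (Hom.dd' h hf w) (Sm.dd hf w) w hy]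
  push_cast
  ring

theorem euler_c3 {m : ℤ} (h : Hom m f) (hf : Sm f) (w : Fin n → ℝ) {y : Fin n → ℝ} (hy : y ≠ 0) :
    dd w (dd w (dd w (dd y f))) y = (m - 3 : ℝ) * dd w (dd w (dd w f)) y := by
  rw [dd_congr (fun z hz => dd_congr (fun z hz => dd_comm hf w y hz) w hz) w hy,
    euler_c2 (Hom.dd' h hf w) (Sm.dd hf w) w hy]
  push_cast
  ring

theorem euler_c4 {m : ℤ} (h : Hom m f) (hf : Sm f) (w : Fin n → ℝ) {y : Fin n → ℝ} (hy : y ≠ 0) :
    dd w (dd w (dd w (dd w (dd y f)))) y = (m - 4 : ℝ) * dd w (dd w (dd w (dd w f))) y := by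
  rw [dd_congr (fun z hz => dd_congr (fun z hz => dd_congr (fun z hz =>
    dd_comm hf w y hz) w hz) w hz) w hy, euler_c3 (Hom.dd' h hf w) (Sm.dd hf w) w hy]
  push_cast
  ring

end fibre

section

variable {U : Set (Fin n → ℝ)} {f : (Fin n → ℝ) → (Fin n → ℝ) → ℝ}
  {N : Fin n → (Fin n → ℝ) → (Fin n → ℝ) → ℝ}

/-- the commutator of the horizontal and the vertical derivative -/
theorem Dh_dd (hU : IsOpen U) (hf : JS U f) (hN : ∀ i, JS U (N i)) (v w : Fin n → ℝ)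
    {x y : Fin n → ℝ} (hx : x ∈ U) (hy : y ≠ 0) :
    Dh N v (fun x y => dd w (f x) y) x y =
      dd w (Dh N v f x) y + ∑ i, dd w (N i x) y * pd i (f x) y := by
  have e : (fun x y => dd w (f x) y) = fun x y => ∑ k, w k * pd k (f x) y := by
    funext x y
    exact dd_eq w (f x) y
  rw [e, Dh_sum (fun k _ => (JS.const (w k)).mul (hf.pd hU k)) hx hy]
  have h1 : ∀ k, Dh N v (fun x y => w k * pd k (f x) y) x y =
      w k * pd k (Dh N v f x) y + ∑ i, w k * pd k (N i x) y * pd i (f x) y := by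
    intro k
    rw [Dh_mul (JS.const (w k)) (hf.pd hU k) hx hy, Dh_const, Dh_pd hU hf hN k hx hy, mul_add,
      Finset.mul_sum, zero_mul, zero_add]
    congr 1
    exact Finset.sum_congr rfl fun i _ => by ring
  simp only [h1, Finset.sum_add_distrib]
  rw [← dd_eq, Finset.sum_comm]
  congr 1
  refine Finset.sum_congr rfl fun i _ => ?_
  rw [dd_eq w (N i x) y, Finset.sum_mul]

/-- the second commutator -/
theorem Dh_dd2 (hU : IsOpen U) (hf : JS U f) (hN : ∀ i, JS U (N i)) (v w : Fin n → ℝ)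
    {x y : Fin n → ℝ} (hx : x ∈ U) (hy : y ≠ 0) :
    Dh N v (fun x y => dd w (dd w (f x)) y) x y =
      dd w (dd w (Dh N v f x)) y + ∑ i, dd w (dd w (N i x)) y * pd i (f x) y +
        2 * ∑ i, dd w (N i x) y * dd w (pd i (f x)) y := by
  have h0 : Dh N v (fun x y => dd w (dd w (f x)) y) x y =
      dd w (Dh N v (fun x y => dd w (f x) y) x) y +
        ∑ i, dd w (N i x) y * pd i (dd w (f x)) y :=
    Dh_dd hU (JS.dy hU hf w) hN v w hx hy
  have hNs : ∀ i, Sm (N i x) := fun i => (hN i).sm hx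
  have hfs : Sm (f x) := hf.sm hx
  rw [h0, dd_congr (fun z hz => Dh_dd hU hf hN v w hx hz) w hy,
    dd_add (Sm.dd ((JS.Dh hU hf hN).sm hx) w) (Sm.sum fun i _ => (Sm.dd (hNs i) w).mul (hfs.pd i))
      w hy, dd_sum_mul (fun i _ => Sm.dd (hNs i) w) (fun i _ => hfs.pd i) w hy]
  have h2 : ∑ i, dd w (N i x) y * pd i (dd w (f x)) y =
      ∑ i, dd w (N i x) y * dd w (pd i (f x)) y :=
    Finset.sum_congr rfl fun i _ => by rw [dd_pd hfs w i hy]
  rw [h2]
  ring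

end

section

variable {U : Set (Fin n → ℝ)} {F : (Fin n → ℝ) → (Fin n → ℝ) → ℝ}
  {G : (Fin n → ℝ) → (Fin n → ℝ) → (Fin n → ℝ)}
  (hF : IsFinsler U F) (hG : IsSpray U F G)

include hF hG

/-- `D_v` of the derivatives of `F²` -/
theorem Dq_1 (v w : Fin n → ℝ) {x y : Fin n → ℝ} (hx : x ∈ U) (hy : y ≠ 0) :
    Dh (N G v) v (fun x y => dd w (q F x) y) x y =
      ∑ j, dd w (N G v j x) y * pd j (q F x) y := by
  rw [Dh_dd hF.isOpen (q_JS hF) (N_JS hF hG v) v w hx hy,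
    dd_congr (g := fun _ => (0:ℝ)) (fun z hz => Dq hF hG v hx hz) w hy]
  simp [Gen.dd]

theorem Dq_2 (v w : Fin n → ℝ) {x y : Fin n → ℝ} (hx : x ∈ U) (hy : y ≠ 0) :
    Dh (N G v) v (fun x y => dd w (dd w (q F x)) y) x y =
      ∑ j, dd w (dd w (N G v j x)) y * pd j (q F x) y +
      2 * ∑ j, dd w (N G v j x) y * dd w (pd j (q F x)) y := by
  have hNs : ∀ i, Sm (N G v i x) := fun i => (N_JS hF hG v i).sm hx
  have hQ := (q_mn hF hx).sm
  have h0 : Dh (N G v) v (fun x y => dd w (dd w (q F x)) y) x y =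
      dd w (Dh (N G v) v (fun x y => dd w (q F x) y) x) y +
        ∑ i, dd w (N G v i x) y * pd i (dd w (q F x)) y :=
    Dh_dd hF.isOpen (JS.dy hF.isOpen (q_JS hF) w) (N_JS hF hG v) v w hx hy
  rw [h0, dd_congr (fun z hz => Dq_1 hF hG v w hx hz) w hy,
    dd_sum_mul (fun i _ => Sm.dd (hNs i) w) (fun i _ => hQ.pd i) w hy]
  have h2 : ∑ i, dd w (N G v i x) y * pd i (dd w (q F x)) y =
      ∑ i, dd w (N G v i x) y * dd w (pd i (q F x)) y :=
    Finset.sum_congr rfl fun i _ => by rw [dd_pd hQ w i hy]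
  rw [h2]
  ring

theorem Dq_3 (v w : Fin n → ℝ) {x y : Fin n → ℝ} (hx : x ∈ U) (hy : y ≠ 0) :
    Dh (N G v) v (fun x y => dd w (dd w (dd w (q F x))) y) x y =
      ∑ j, dd w (dd w (dd w (N G v j x))) y * pd j (q F x) y +
      3 * ∑ j, dd w (dd w (N G v j x)) y * dd w (pd j (q F x)) y +
      3 * ∑ j, dd w (N G v j x) y * dd w (dd w (pd j (q F x))) y := by
  have hNs : ∀ i, Sm (N G v i x) := fun i => (N_JS hF hG v i).sm hx
  have hQ := (q_mn hF hx).sm
  have hU := hF.isOpen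
  have h0 : Dh (N G v) v (fun x y => dd w (dd w (dd w (q F x))) y) x y =
      dd w (Dh (N G v) v (fun x y => dd w (dd w (q F x)) y) x) y +
        ∑ i, dd w (N G v i x) y * pd i (dd w (dd w (q F x))) y :=
    Dh_dd hF.isOpen (JS.dy hU (JS.dy hU (q_JS hF) w) w) (N_JS hF hG v) v w hx hy
  have s1 : ∀ i, Sm (dd w (N G v i x)) := fun i => Sm.dd (hNs i) w
  have s2 : ∀ i, Sm (dd w (dd w (N G v i x))) := fun i => Sm.dd (s1 i) w
  have t1 : ∀ i, Sm (pd i (q F x)) := fun i => hQ.pd i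
  have t2 : ∀ i, Sm (dd w (pd i (q F x))) := fun i => Sm.dd (t1 i) w
  rw [h0, dd_congr (fun z hz => Dq_2 hF hG v w hx hz) w hy,
    dd_add (Sm.sum fun i _ => (s2 i).mul (t1 i))
      ((sm_const 2).mul (Sm.sum fun i _ => (s1 i).mul (t2 i))) w hy,
    dd_const_mul (Sm.sum fun i _ => (s1 i).mul (t2 i)) 2 w hy,
    dd_sum_mul (fun i _ => s2 i) (fun i _ => t1 i) w hy,
    dd_sum_mul (fun i _ => s1 i) (fun i _ => t2 i) w hy]
  have h2 : ∑ i, dd w (N G v i x) y * pd i (dd w (dd w (q F x))) y =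
      ∑ i, dd w (N G v i x) y * dd w (dd w (pd i (q F x))) y :=
    Finset.sum_congr rfl fun i _ => by rw [dd_pd2 hQ w i hy]
  rw [h2]
  ring

theorem Dq_4 (v w : Fin n → ℝ) {x y : Fin n → ℝ} (hx : x ∈ U) (hy : y ≠ 0) :
    Dh (N G v) v (fun x y => dd w (dd w (dd w (dd w (q F x)))) y) x y =
      ∑ j, dd w (dd w (dd w (dd w (N G v j x)))) y * pd j (q F x) y +
      4 * ∑ j, dd w (dd w (dd w (N G v j x))) y * dd w (pd j (q F x)) y +
      6 * ∑ j, dd w (dd w (N G v j x)) y * dd w (dd w (pd j (q F x))) y +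
      4 * ∑ j, dd w (N G v j x) y * dd w (dd w (dd w (pd j (q F x)))) y := by
  have hNs : ∀ i, Sm (N G v i x) := fun i => (N_JS hF hG v i).sm hx
  have hQ := (q_mn hF hx).sm
  have hU := hF.isOpen
  have h0 : Dh (N G v) v (fun x y => dd w (dd w (dd w (dd w (q F x)))) y) x y =
      dd w (Dh (N G v) v (fun x y => dd w (dd w (dd w (q F x))) y) x) y +
        ∑ i, dd w (N G v i x) y * pd i (dd w (dd w (dd w (q F x)))) y :=
    Dh_dd hF.isOpen (JS.dy hU (JS.dy hU (JS.dy hU (q_JS hF) w) w) w) (N_JS hF hG v) v w hx hy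
  have s1 : ∀ i, Sm (dd w (N G v i x)) := fun i => Sm.dd (hNs i) w
  have s2 : ∀ i, Sm (dd w (dd w (N G v i x))) := fun i => Sm.dd (s1 i) w
  have s3 : ∀ i, Sm (dd w (dd w (dd w (N G v i x)))) := fun i => Sm.dd (s2 i) w
  have t1 : ∀ i, Sm (pd i (q F x)) := fun i => hQ.pd i
  have t2 : ∀ i, Sm (dd w (pd i (q F x))) := fun i => Sm.dd (t1 i) w
  have t3 : ∀ i, Sm (dd w (dd w (pd i (q F x)))) := fun i => Sm.dd (t2 i) w
  rw [h0, dd_congr (fun z hz => Dq_3 hF hG v w hx hz) w hy,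
    dd_add ((Sm.sum fun i _ => (s3 i).mul (t1 i)).add
      ((sm_const 3).mul (Sm.sum fun i _ => (s2 i).mul (t2 i))))
      ((sm_const 3).mul (Sm.sum fun i _ => (s1 i).mul (t3 i))) w hy,
    dd_add (Sm.sum fun i _ => (s3 i).mul (t1 i))
      ((sm_const 3).mul (Sm.sum fun i _ => (s2 i).mul (t2 i))) w hy,
    dd_const_mul (Sm.sum fun i _ => (s1 i).mul (t3 i)) 3 w hy,
    dd_const_mul (Sm.sum fun i _ => (s2 i).mul (t2 i)) 3 w hy,
    dd_sum_mul (fun i _ => s3 i) (fun i _ => t1 i) w hy,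
    dd_sum_mul (fun i _ => s2 i) (fun i _ => t2 i) w hy,
    dd_sum_mul (fun i _ => s1 i) (fun i _ => t3 i) w hy]
  have h2 : ∑ i, dd w (N G v i x) y * pd i (dd w (dd w (dd w (q F x)))) y =
      ∑ i, dd w (N G v i x) y * dd w (dd w (dd w (pd i (q F x)))) y :=
    Finset.sum_congr rfl fun i _ => by rw [dd_pd3 hQ w i hy]
  rw [h2]
  ring

end

end Pool.Agent.H792.KF
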