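import Pool.Agent.H792.KF.Kill

/-!
# Unique continuation for infinitesimal isometries
-/

set_option autoImplicit false

open scoped BigOperators ContDiff Topology Matrix
open Filter Set

namespace Pool.Agent.H792.KF

open Pool.Agent.R774.BW Pool.Agent.H792.Gen Pool.Agent.H792.LF

variable {n : ℕ}

theorem hasDerivAt_line {f : (Fin n → ℝ) → ℝ} (hf : Sm f) {y v : Fin n → ℝ} {t : ℝ}
    (h : y + t • v ≠ 0) :
    HasDerivAt (fun t : ℝ => f (y + t • v)) (∑ k, v k * pd k f (y + t • v)) t := by
  have ha : HasFDerivAt f (fderiv ℝ f (y + t • v)) ((fun t : ℝ => y + t • v) t) :=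
    (hf.diff h).hasFDerivAt
  have hb' : HasDerivAt (fun t : ℝ => y + t • v) v t := by
    simpa using ((hasDerivAt_id t).smul_const v).const_add y
  have := ha.comp_hasDerivAt t hb'
  rwa [fderiv_eq_sum] at this

theorem abs_sum_le' {ι : Type*} [Fintype ι] {f : ι → ℝ} {C : ℝ} (h : ∀ i, |f i| ≤ C) :
    |∑ i, f i| ≤ Fintype.card ι * C := by
  calc |∑ i, f i| ≤ ∑ i, |f i| := Finset.abs_sum_le_sum_abs _ _
    _ ≤ ∑ _i : ι, C := Finset.sum_le_sum fun i _ => h i
    _ = Fintype.card ι * C := by simp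

theorem abs_mul_le' {a b A' B' : ℝ} (ha : |a| ≤ A') (hb : |b| ≤ B') : |a * b| ≤ A' * B' := by
  rw [abs_mul]
  exact mul_le_mul ha hb (abs_nonneg _) ((abs_nonneg _).trans ha)

section

variable {Q : (Fin n → ℝ) → ℝ} (hQ : MN Q) {X : Fin n → (Fin n → ℝ) → ℝ} (hX : Kil Q X)

include hQ hX

theorem uc_segment {y v : Fin n → ℝ} (hseg : ∀ t ∈ Icc (0:ℝ) 1, y + t • v ≠ 0)
    (h0 : ∀ j, X j y = 0) (h1 : ∀ i j, pd i (X j) y = 0) (j : Fin n) : X j (y + v) = 0 := by
  -- bound for the coefficients
  have hcont : ∀ f : (Fin n → ℝ) → ℝ, Sm f →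
      ContinuousOn (fun t : ℝ => f (y + t • v)) (Icc 0 1) := by
    intro f hf t ht
    exact (hasDerivAt_line hf (hseg t ht)).continuousAt.continuousWithinAt
  set cf : ℝ → (Fin n → Fin n → ℝ) × (Fin n → Fin n → Fin n → Fin n → ℝ) ×
        (Fin n → Fin n → Fin n → ℝ) := fun t => (fun j c => P Q j c (y + t • v),
      fun m a b c => pd m (pd a (pd b (pd c Q))) (y + t • v),
      fun m a b => pd m (pd a (pd b Q)) (y + t • v)) with hcf
  obtain ⟨B, hB⟩ : ∃ B : ℝ, ∀ t ∈ Icc (0:ℝ) 1, ‖cf t‖ ≤ B := by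
    refine isCompact_Icc.exists_bound_of_continuousOn ?_
    refine ContinuousOn.prodMk ?_ (ContinuousOn.prodMk ?_ ?_)
    · exact continuousOn_pi.2 fun j => continuousOn_pi.2 fun c => hcont _ (P_sm hQ j c)
    · exact continuousOn_pi.2 fun m => continuousOn_pi.2 fun a => continuousOn_pi.2 fun b =>
        continuousOn_pi.2 fun c => hcont _ ((((hQ.sm.pd c).pd b).pd a).pd m)
    · exact continuousOn_pi.2 fun m => continuousOn_pi.2 fun a => continuousOn_pi.2 fun b =>
        hcont _ (((hQ.sm.pd b).pd a).pd m)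
  have hP : ∀ t ∈ Icc (0:ℝ) 1, ∀ j c, |P Q j c (y + t • v)| ≤ B := by
    intro t ht j c
    have := (norm_le_pi_norm _ c).trans ((norm_le_pi_norm (cf t).1 j).trans
      ((norm_fst_le _).trans (hB t ht)))
    simpa [hcf] using this
  have h4 : ∀ t ∈ Icc (0:ℝ) 1, ∀ m a b c,
      |pd m (pd a (pd b (pd c Q))) (y + t • v)| ≤ B := by
    intro t ht m a b c
    have := (norm_le_pi_norm _ c).trans ((norm_le_pi_norm _ b).trans ((norm_le_pi_norm _ a).trans
      ((norm_le_pi_norm (cf t).2.1 m).trans ((norm_fst_le _).trans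
        ((norm_snd_le _).trans (hB t ht))))))
    simpa [hcf] using this
  have h3 : ∀ t ∈ Icc (0:ℝ) 1, ∀ m a b, |pd m (pd a (pd b Q)) (y + t • v)| ≤ B := by
    intro t ht m a b
    have := (norm_le_pi_norm _ b).trans ((norm_le_pi_norm _ a).trans
      ((norm_le_pi_norm (cf t).2.2 m).trans ((norm_snd_le _).trans
        ((norm_snd_le _).trans (hB t ht)))))
    simpa [hcf] using this
  set V : ℝ := ‖v‖ with hV
  have hv : ∀ k, |v k| ≤ V := fun k => norm_le_pi_norm v k
  have hV0 : 0 ≤ V := norm_nonneg _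
  -- the jet along the segment
  set u : ℝ → (Fin n → ℝ) × (Fin n → Fin n → ℝ) := fun t =>
    ((fun j => X j (y + t • v)), fun i j => pd i (X j) (y + t • v)) with hu
  set u' : ℝ → (Fin n → ℝ) × (Fin n → Fin n → ℝ) := fun t =>
    ((fun j => ∑ k, v k * pd k (X j) (y + t • v)),
      fun i j => ∑ k, v k * pd k (pd i (X j)) (y + t • v)) with hu'
  have hder : ∀ t ∈ Icc (0:ℝ) 1, HasDerivAt u (u' t) t := by
    intro t ht
    refine HasDerivAt.prodMk ?_ ?_
    · exact hasDerivAt_pi.2 fun j => hasDerivAt_line (hX.sm j) (hseg t ht)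
    · exact hasDerivAt_pi.2 fun i => hasDerivAt_pi.2 fun j =>
        hasDerivAt_line ((hX.sm j).pd i) (hseg t ht)
  have hu1 : ∀ t, ∀ m, |X m (y + t • v)| ≤ ‖u t‖ := by
    intro t m
    have := (norm_le_pi_norm (u t).1 m).trans (norm_fst_le (u t))
    simpa [hu] using this
  have hu2 : ∀ t, ∀ i m, |pd i (X m) (y + t • v)| ≤ ‖u t‖ := by
    intro t i m
    have := (norm_le_pi_norm _ m).trans ((norm_le_pi_norm (u t).2 i).trans (norm_snd_le (u t)))
    simpa [hu] using this
  set C : ℝ := n * V + n * (V * (n * (B * (1 / 2 * (n * (4 * B)))))) with hC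
  have hbound : ∀ t ∈ Icc (0:ℝ) 1, ‖u' t‖ ≤ C * ‖u t‖ := by
    intro t ht
    set U := ‖u t‖ with hU
    have hU0 : 0 ≤ U := norm_nonneg _
    have hB0 : 0 ≤ B := (norm_nonneg _).trans (hB t ht)
    have hn0 : (0:ℝ) ≤ n := Nat.cast_nonneg n
    have ea : n * (V * U) ≤ C * U := by
      rw [hC]
      have : 0 ≤ n * (V * (n * (B * (1 / 2 * (n * (4 * B)))))) * U := by positivity
      nlinarith
    have eb : n * (V * (n * (B * (1 / 2 * (n * (4 * (U * B))))))) ≤ C * U := by
      rw [hC]
      have : 0 ≤ n * (V * U) := by positivity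
      nlinarith
    have hCU : 0 ≤ C * U := le_trans (by positivity) ea
    rw [norm_prod_le_iff]
    constructor
    · rw [pi_norm_le_iff_of_nonneg hCU]
      intro j
      rw [Real.norm_eq_abs]
      refine le_trans ?_ ea
      have := abs_sum_le' (f := fun k => v k * pd k (X j) (y + t • v)) (C := V * U)
        fun k => abs_mul_le' (hv k) (hu2 t k j)
      simpa using this
    · rw [pi_norm_le_iff_of_nonneg hCU]
      intro i
      rw [pi_norm_le_iff_of_nonneg hCU]
      intro j
      rw [Real.norm_eq_abs]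
      refine le_trans ?_ eb
      have hsec : ∀ k, |pd k (pd i (X j)) (y + t • v)| ≤
          n * (B * (1 / 2 * (n * (4 * (U * B))))) := by
        intro k
        rw [second hQ hX (hseg t ht) k i j]
        have := abs_sum_le' (f := fun c => P Q j c (y + t • v) *
          (-(1 / 2) * W3 Q X k i c (y + t • v))) (C := B * (1 / 2 * (n * (4 * (U * B))))) ?_
        · simpa using this
        intro c
        refine abs_mul_le' (hP t ht j c) ?_
        refine abs_mul_le' (by norm_num [abs_of_pos]) ?_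
        unfold W3
        have := abs_sum_le' (f := fun m => X m (y + t • v) *
            pd m (pd k (pd i (pd c Q))) (y + t • v) +
          pd k (X m) (y + t • v) * pd m (pd i (pd c Q)) (y + t • v) +
          pd i (X m) (y + t • v) * pd m (pd k (pd c Q)) (y + t • v) +
          pd c (X m) (y + t • v) * pd m (pd k (pd i Q)) (y + t • v)) (C := 4 * (U * B)) ?_
        · simpa using this
        intro m
        have q1 := abs_mul_le' (hu1 t m) (h4 t ht m k i c)
        have q2 := abs_mul_le' (hu2 t k m) (h3 t ht m i c)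
        have q3 := abs_mul_le' (hu2 t i m) (h3 t ht m k c)
        have q4 := abs_mul_le' (hu2 t c m) (h3 t ht m k i)
        refine (abs_add_le _ _).trans ?_
        refine (add_le_add ((abs_add_le _ _).trans (add_le_add (abs_add_le _ _) le_rfl)) le_rfl).trans ?_
        linarith
      have := abs_sum_le' (f := fun k => v k * pd k (pd i (X j)) (y + t • v))
        (C := V * (n * (B * (1 / 2 * (n * (4 * (U * B)))))))
        fun k => abs_mul_le' (hv k) (hsec k)
      simpa using this
  have key := norm_le_gronwallBound_of_norm_deriv_right_le (f := u) (f' := u') (δ := 0) (K := C)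
    (ε := 0) (a := 0) (b := 1) (fun t ht => (hder t ht).continuousAt.continuousWithinAt)
    (fun t ht => (hder t ⟨ht.1, ht.2.le⟩).hasDerivWithinAt) ?_
    (fun t ht => by simpa using hbound t ⟨ht.1, ht.2.le⟩) 1 ⟨zero_le_one, le_rfl⟩
  · rw [gronwallBound_ε0, zero_mul] at key
    have h5 := (hu1 1 j).trans key
    rw [one_smul] at h5
    exact abs_eq_zero.1 (le_antisymm h5 (abs_nonneg _))
  · have : u 0 = 0 := by
      simp only [hu, zero_smul, add_zero, h0, h1]
      rfl
    rw [this, norm_zero]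

/-- an infinitesimal isometry with vanishing one-jet at a point vanishes -/
theorem uc (hn : 2 ≤ n) {y : Fin n → ℝ} (hy : y ≠ 0) (h0 : ∀ j, X j y = 0)
    (h1 : ∀ i j, pd i (X j) y = 0) {z : Fin n → ℝ} (hz : z ≠ 0) (j : Fin n) : X j z = 0 := by
  by_cases hseg : ∀ t ∈ Icc (0:ℝ) 1, y + t • (z - y) ≠ 0
  · have := uc_segment hQ hX hseg h0 h1 j
    rwa [add_sub_cancel] at this
  · push Not at hseg
    obtain ⟨t0, ht0, hzero⟩ := hseg
    have ht00 : t0 ≠ 0 := by
      rintro rfl
      rw [zero_smul, add_zero] at hzero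
      exact hy hzero
    have hz' : z = (-(1 - t0) / t0) • y := by
      have h2 : t0 • z = (-(1 - t0)) • y := by
        rw [← sub_eq_zero, ← hzero]
        module
      rw [div_eq_inv_mul, mul_smul, ← h2, smul_smul, inv_mul_cancel₀ ht00, one_smul]
    obtain ⟨a, ha⟩ : ∃ a, y a ≠ 0 := by
      by_contra h; push Not at h; exact hy (funext h)
    obtain ⟨a', ha'⟩ : ∃ a' : Fin n, a' ≠ a := by
      have : Nontrivial (Fin n) := Fin.nontrivial_iff_two_le.2 hn
      exact exists_ne a
    set q : Fin n → ℝ := Pi.single a' (1:ℝ) with hq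
    have hind : ∀ s e : ℝ, s • y + e • q = 0 → s = 0 ∧ e = 0 := by
      intro s e h0
      have e1 := congrFun h0 a
      have e2 := congrFun h0 a'
      simp only [Pi.add_apply, Pi.smul_apply, smul_eq_mul, hq, Pi.zero_apply,
        Pi.single_eq_of_ne ha'.symm, mul_zero, add_zero, Pi.single_eq_same, mul_one] at e1 e2
      have hs : s = 0 := (mul_eq_zero.1 e1).resolve_right ha
      rw [hs] at e2
      simp at e2
      exact ⟨hs, e2⟩
    have h5 : ∀ e : ℝ, e ≠ 0 → X j (z + e • q) = 0 := by
      intro e he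
      have hseg2 : ∀ t ∈ Icc (0:ℝ) 1, y + t • ((z + e • q) - y) ≠ 0 := by
        intro t _ h
        have h6 : (1 - t + t * (-(1 - t0) / t0)) • y + (t * e) • q = 0 := by
          rw [← h]
          conv_rhs => rw [hz']
          module
        obtain ⟨h7, h8⟩ := hind _ _ h6
        have ht : t = 0 := (mul_eq_zero.1 h8).resolve_right he
        rw [ht] at h7
        norm_num at h7
      have := uc_segment hQ hX hseg2 h0 h1 j
      rwa [add_sub_cancel] at this
    have h6 : Tendsto (fun e : ℝ => X j (z + e • q)) (𝓝[≠] 0) (𝓝 (X j z)) := by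
      have h7 : Tendsto (fun e : ℝ => z + e • q) (𝓝 0) (𝓝 (z + (0:ℝ) • q)) :=
        (tendsto_id.smul_const q).const_add z
      rw [zero_smul, add_zero] at h7
      exact ((hX.sm j z hz).continuousAt.tendsto.comp h7).mono_left nhdsWithin_le_nhds
    have h8 : Tendsto (fun e : ℝ => X j (z + e • q)) (𝓝[≠] 0) (𝓝 0) := by
      refine tendsto_const_nhds.congr' ?_
      filter_upwards [self_mem_nhdsWithin] with e he using (h5 e he).symm
    exact tendsto_nhds_unique h6 h8

end

end Pool.Agent.H792.KF
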