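import Pool.Agent.H792.KF.Flat3
import Pool.Agent.H792.KF.Uc

/-!
# Norms in dimension three with two independent infinitesimal isometries are Euclidean
-/

set_option autoImplicit false

open scoped BigOperators ContDiff Topology Matrix
open Filter Set

namespace Pool.Agent.H792.KF

open Pool.Agent.R774.BW Pool.Agent.H792.Gen Pool.Agent.H792.LF

section general

variable {n : ℕ} {Q : (Fin n → ℝ) → ℝ}

/-- linear combinations of infinitesimal isometries -/
theorem Kil.lin {X Y : Fin n → (Fin n → ℝ) → ℝ} (hX : Kil Q X) (hY : Kil Q Y) (a b : ℝ) :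
    Kil Q (fun i y => a * X i y + b * Y i y) := by
  refine ⟨fun i => ((sm_const a).mul (hX.sm i)).add ((sm_const b).mul (hY.sm i)),
    fun i y hy t ht => ?_, fun y hy i j => ?_⟩
  · have h1 := hX.hom i y hy t ht
    have h2 := hY.hom i y hy t ht
    simp only [h1, h2]
    ring
  · have e : ∀ k m : Fin n, pd k (fun y => a * X m y + b * Y m y) y =
        a * pd k (X m) y + b * pd k (Y m) y := by
      intro k m
      rw [pd_add ((sm_const a).mul (hX.sm m)) ((sm_const b).mul (hY.sm m)) k hy,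
        pd_const_mul (hX.sm m) a k hy, pd_const_mul (hY.sm m) b k hy]
    have h1 := hX.eq y hy i j
    have h2 := hY.eq y hy i j
    have h3 : a * ∑ m, (X m y * pd m (pd i (pd j Q)) y +
        pd m (pd j Q) y * pd i (X m) y + pd m (pd i Q) y * pd j (X m) y) +
        b * ∑ m, (Y m y * pd m (pd i (pd j Q)) y +
        pd m (pd j Q) y * pd i (Y m) y + pd m (pd i Q) y * pd j (Y m) y) = 0 := by
      rw [h1, h2]; ring
    rw [← h3, Finset.mul_sum, Finset.mul_sum, ← Finset.sum_add_distrib]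
    refine Finset.sum_congr rfl fun m _ => ?_
    rw [e, e]
    ring

end general

/-- vectors with vanishing cross product are proportional -/
theorem cr_zero {v w : Fin 3 → ℝ} (h : cr v w = 0) (hv : v ≠ 0) : ∃ c : ℝ, w = c • v := by
  have h0 : v 1 * w 2 - v 2 * w 1 = 0 := congrFun h 0
  have h1 : v 2 * w 0 - v 0 * w 2 = 0 := congrFun h 1
  have h2 : v 0 * w 1 - v 1 * w 0 = 0 := congrFun h 2
  obtain ⟨i, hi⟩ : ∃ i, v i ≠ 0 := by
    by_contra hcon
    push Not at hcon
    exact hv (funext hcon)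
  refine ⟨w i / v i, ?_⟩
  have key : ∀ j, w j * v i = w i * v j := by
    intro j
    fin_cases i <;> fin_cases j <;> simp <;> linarith
  ext j
  rw [Pi.smul_apply, smul_eq_mul, div_mul_eq_mul_div, eq_div_iff hi]
  exact key j

/-- two vectors orthogonal to two independent vectors are linearly dependent -/
theorem dep3 {g h x z : Fin 3 → ℝ} (hgh : cr g h ≠ 0) (h1 : g ⬝ᵥ x = 0) (h2 : h ⬝ᵥ x = 0)
    (h3 : g ⬝ᵥ z = 0) (h4 : h ⬝ᵥ z = 0) : ∃ a b : ℝ, (a ≠ 0 ∨ b ≠ 0) ∧ a • x + b • z = 0 := by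
  have key : ∀ v : Fin 3 → ℝ, g ⬝ᵥ v = 0 → h ⬝ᵥ v = 0 → cr (cr g h) v = 0 := by
    intro v hv1 hv2
    simp only [dotProduct, Fin.sum_univ_three] at hv1 hv2
    ext i
    fin_cases i
    · simp only [cr, Fin.zero_eta, Matrix.cons_val_zero, Matrix.cons_val_one, Matrix.cons_val_two,
        Matrix.tail_cons, Matrix.head_cons, Pi.zero_apply]
      linear_combination (h 0) * hv1 - (g 0) * hv2
    · simp only [cr, Fin.mk_one, Matrix.cons_val_zero, Matrix.cons_val_one, Matrix.cons_val_two,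
        Matrix.tail_cons, Matrix.head_cons, Pi.zero_apply]
      linear_combination (h 1) * hv1 - (g 1) * hv2
    · simp only [cr, Fin.reduceFinMk, Matrix.cons_val_zero, Matrix.cons_val_one,
        Matrix.cons_val_two, Matrix.tail_cons, Matrix.head_cons, Pi.zero_apply]
      linear_combination (h 2) * hv1 - (g 2) * hv2
  obtain ⟨a, ha⟩ := cr_zero (key x h1 h2) hgh
  obtain ⟨b, hb⟩ := cr_zero (key z h3 h4) hgh
  by_cases hb0 : b = 0
  · refine ⟨0, 1, Or.inr one_ne_zero, ?_⟩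
    rw [hb, hb0]
    simp
  · refine ⟨b, -a, Or.inl hb0, ?_⟩
    rw [ha, hb, smul_smul, smul_smul, ← add_smul]
    ring_nf
    simp

variable {Q : (Fin 3 → ℝ) → ℝ} (hQ : MN Q)

include hQ

/-- with two independent infinitesimal isometries the scalar curvature is constant -/
theorem crit {X Y : Fin 3 → (Fin 3 → ℝ) → ℝ} (hX : Kil Q X) (hY : Kil Q Y)
    (hind : ∀ a b : ℝ, (∀ y, y ≠ 0 → ∀ i, a * X i y + b * Y i y = 0) → a = 0 ∧ b = 0)
    {y : Fin 3 → ℝ} (hy : y ≠ 0) (k : Fin 3) : pd k (fun y => Q y * rho Q y) y = 0 := by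
  by_contra hk
  set sg : (Fin 3 → ℝ) → ℝ := fun y => Q y * rho Q y with hsg
  have hsgs : Sm sg := hQ.sm.mul (rho_sm hQ)
  set g : Fin 3 → ℝ := fun k => pd k sg y with hg
  have hg0 : g ≠ 0 := fun h => hk (congrFun h k)
  set h : Fin 3 → ℝ := fun k => pd k Q y with hh
  have hgy : g ⬝ᵥ y = 0 := by
    have hom : Hom 0 sg := by
      intro z hz t ht
      rw [zpow_zero, one_mul]
      exact rho_hom hQ hz ht
    have := hom.euler hsgs hy
    simp only [Int.cast_zero, zero_mul] at this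
    rw [← this]
    exact Finset.sum_congr rfl fun k _ => mul_comm _ _
  have hhy : h ⬝ᵥ y ≠ 0 := by
    have := euler1 hQ hy
    have e : h ⬝ᵥ y = 2 * Q y := by
      rw [← this]
      exact Finset.sum_congr rfl fun k _ => mul_comm _ _
    rw [e]
    have := hQ.pos y hy
    positivity
  have hgh : cr g h ≠ 0 := by
    intro hcr
    obtain ⟨c, hc⟩ := cr_zero hcr hg0
    rw [hc, smul_dotProduct, hgy, smul_zero] at hhy
    exact hhy rfl
  have hXg : ∀ {X : Fin 3 → (Fin 3 → ℝ) → ℝ}, Kil Q X → g ⬝ᵥ (fun i => X i y) = 0 := by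
    intro X hX
    have := dz_sig hQ hy hX
    unfold dz at this
    rw [← this]
    exact Finset.sum_congr rfl fun k _ => mul_comm _ _
  have hXh : ∀ {X : Fin 3 → (Fin 3 → ℝ) → ℝ}, Kil Q X → h ⬝ᵥ (fun i => X i y) = 0 := by
    intro X hX
    have := tang hQ hX hy
    rw [← this]
    exact Finset.sum_congr rfl fun k _ => mul_comm _ _
  obtain ⟨a, b, hab, hz⟩ := dep3 hgh (hXg hX) (hXh hX) (hXg hY) (hXh hY)
  set Z : Fin 3 → (Fin 3 → ℝ) → ℝ := fun i y => a * X i y + b * Y i y with hZdef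
  have hZ : Kil Q Z := hX.lin hY a b
  have hZ0 : ∀ i, Z i y = 0 := by
    intro i
    have := congrFun hz i
    simpa [hZdef] using this
  -- the derivative
  have hskew : (A Q y * X1 Z y)ᵀ = - (A Q y * X1 Z y) := by
    have h1 := dM_A hQ hy hZ
    have h2 : dM Z (A Q) y = 0 := by
      ext c d
      simp [dM, dz, hZ0]
    rw [h2] at h1
    rw [Matrix.transpose_mul, R774.BW.A_symm hQ hy]
    have h3 := neg_eq_zero.1 h1.symm
    exact eq_neg_of_add_eq_zero_left h3
  have hMy : X1 Z y *ᵥ y = 0 := by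
    ext i
    have := (hZ.hom i).euler (hZ.sm i) hy
    rw [hZ0 i, mul_zero] at this
    simp only [Matrix.mulVec, dotProduct, X1, Matrix.of_apply, Pi.zero_apply]
    rw [← this]
    exact Finset.sum_congr rfl fun k _ => mul_comm _ _
  have hgM : g ᵥ* X1 Z y = 0 := by
    ext j
    have e := pd_congr (g := fun _ => (0:ℝ)) (fun z hz => dz_sig hQ hz hZ) j hy
    rw [pd_const] at e
    have e2 : pd j (dz Z sg) y = ∑ m, (pd j (Z m) y * pd m sg y + Z m y * pd j (pd m sg) y) := by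
      unfold dz
      rw [pd_sum (fun m _ => (hZ.sm m).mul (hsgs.pd m)) j hy]
      exact Finset.sum_congr rfl fun m _ => pd_mul (hZ.sm m) (hsgs.pd m) j hy
    rw [e2] at e
    simp only [hZ0, zero_mul, add_zero] at e
    simp only [Matrix.vecMul, dotProduct, X1, Matrix.of_apply, Pi.zero_apply]
    rw [← e]
    exact Finset.sum_congr rfl fun k _ => mul_comm _ _
  have hN : A Q y * X1 Z y = 0 := by
    refine skew3 hskew (v := y) (w := (A Q y)⁻¹ *ᵥ g) ?_ ?_ ?_
    · rw [← Matrix.mulVec_mulVec, hMy, Matrix.mulVec_zero]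
    · have h1 : (A Q y * X1 Z y) *ᵥ ((A Q y)⁻¹ *ᵥ g) =
          - ((A Q y * X1 Z y)ᵀ *ᵥ ((A Q y)⁻¹ *ᵥ g)) := by
        rw [hskew, Matrix.neg_mulVec, neg_neg]
      rw [h1, Matrix.mulVec_transpose, ← Matrix.vecMul_vecMul]
      have h2 : ((A Q y)⁻¹ *ᵥ g) ᵥ* A Q y = g := by
        rw [← Matrix.mulVec_transpose, R774.BW.A_symm hQ hy, Matrix.mulVec_mulVec, APy hQ hy,
          Matrix.one_mulVec]
      rw [h2, hgM, neg_zero]
    · intro hcr
      obtain ⟨c, hc⟩ := cr_zero hcr hy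
      have h1 : g = c • (A Q y *ᵥ y) := by
        have := congrArg (fun v => A Q y *ᵥ v) hc
        simp only [Matrix.mulVec_mulVec, APy hQ hy, Matrix.one_mulVec, Matrix.mulVec_smul] at this
        exact this
      have h2 : c * (y ⬝ᵥ A Q y *ᵥ y) = 0 := by
        rw [← hgy]
        conv_rhs => rw [h1]
        rw [smul_dotProduct, smul_eq_mul, dotProduct_comm]
      have h3 : c = 0 := (mul_eq_zero.1 h2).resolve_right (N_pos hQ hy).ne'
      rw [h3, zero_smul] at h1
      exact hg0 h1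
  have hM : X1 Z y = 0 := by
    have := congrArg (fun M => (A Q y)⁻¹ * M) hN
    simp only [← Matrix.mul_assoc, PAy hQ hy, Matrix.one_mul, Matrix.mul_zero] at this
    exact this
  have hZZ : ∀ z, z ≠ 0 → ∀ i, Z i z = 0 := fun z hz i =>
    uc hQ hZ (by norm_num) hy hZ0 (fun i j => congrFun (congrFun hM j) i) hz i
  obtain ⟨ha, hb⟩ := hind a b hZZ
  rcases hab with h1 | h1
  · exact h1 ha
  · exact h1 hb

theorem const_of_two {X Y : Fin 3 → (Fin 3 → ℝ) → ℝ} (hX : Kil Q X) (hY : Kil Q Y)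
    (hind : ∀ a b : ℝ, (∀ y, y ≠ 0 → ∀ i, a * X i y + b * Y i y = 0) → a = 0 ∧ b = 0) :
    ∃ c, ∀ y, y ≠ 0 → Q y * rho Q y = c := by
  set sg : (Fin 3 → ℝ) → ℝ := fun y => Q y * rho Q y with hsg
  have hsgs : Sm sg := hQ.sm.mul (rho_sm hQ)
  have hpre : IsPreconnected {y : Fin 3 → ℝ | y ≠ 0} := by
    have h := (isConnected_compl_singleton_of_one_lt_rank (E := Fin 3 → ℝ) (by simp)
      0).isPreconnected
    exact h
  have hfd : ∀ y : Fin 3 → ℝ, y ≠ 0 → fderiv ℝ sg y = 0 := by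
    intro y hy
    ext v
    rw [fderiv_eq_sum]
    have h1 : ∀ k, pd k sg y = 0 := fun k => crit hQ hX hY hind hy k
    simp [h1]
  have hconst : ∀ y z : Fin 3 → ℝ, y ≠ 0 → z ≠ 0 → sg y = sg z := fun y z hy hz =>
    isOpen_ne0.is_const_of_fderiv_eq_zero (𝕜 := ℝ) hpre (f := sg)
    (fun y hy => (hsgs.diff hy).differentiableWithinAt) (fun y hy => hfd y hy) hy hz
  refine ⟨sg (Pi.single 0 1), fun y hy => hconst _ _ hy ?_⟩
  intro h
  have := congrFun h 0
  simp at this

/-- **norms in dimension three with two independent infinitesimal isometries are flat** -/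
theorem flat_of_two {X Y : Fin 3 → (Fin 3 → ℝ) → ℝ} (hX : Kil Q X) (hY : Kil Q Y)
    (hind : ∀ a b : ℝ, (∀ y, y ≠ 0 → ∀ i, a * X i y + b * Y i y = 0) → a = 0 ∧ b = 0)
    {y : Fin 3 → ℝ} (hy : y ≠ 0) (a b : Fin 3) : SM Q a b y = 0 := by
  obtain ⟨c, hc⟩ := const_of_two hQ hX hY hind
  exact flat3 hQ hc hy a b

end Pool.Agent.H792.KF
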