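import Pool.Agent.H792.KF.Cur

/-!
# Derivatives of fields of infinitesimal isometries
-/

set_option autoImplicit false

open scoped BigOperators ContDiff Topology Matrix
open Filter Set

namespace Pool.Agent.H792.KF

open Pool.Agent.R774.BW Pool.Agent.H792.Gen Pool.Agent.H792.LF

variable {n : ℕ} {U : Set (Fin n → ℝ)} {F : (Fin n → ℝ) → (Fin n → ℝ) → ℝ}
  {G : (Fin n → ℝ) → (Fin n → ℝ) → (Fin n → ℝ)}

/-- the bracket of the horizontal lift of `v` with the vertical field `X` -/
noncomputable def Yf (G : (Fin n → ℝ) → (Fin n → ℝ) → (Fin n → ℝ)) (v : Fin n → ℝ)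
    (X : Fin n → (Fin n → ℝ) → (Fin n → ℝ) → ℝ) (i : Fin n) (x y : Fin n → ℝ) : ℝ :=
  Dh (N G v) v (X i) x y + ∑ b, X b x y * pd b (N G v i x) y

section

variable (hF : IsFinsler U F) (hG : IsSpray U F G)
  {X : Fin n → (Fin n → ℝ) → (Fin n → ℝ) → ℝ} (hX : ∀ i, JS U (X i))

include hF hG hX

theorem Yf_JS (v : Fin n → ℝ) (i : Fin n) : JS U (Yf G v X i) :=
  (JS.Dh hF.isOpen (hX i) (N_JS hF hG v)).add
    (JS.sum fun b _ => (hX b).mul ((N_JS hF hG v i).pd hF.isOpen b))

theorem Yf_hom (v : Fin n → ℝ) (hh : ∀ x ∈ U, ∀ i, Hom 1 (X i x)) {x : Fin n → ℝ} (hx : x ∈ U)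
    (i : Fin n) : Hom 1 (Yf G v X i x) := by
  refine Hom.add' (Hom.Dh' hF.isOpen (hX i) (fun x hx => hh x hx i) hx
    (fun j => N_hom hF hG v hx j) v) (Hom.sum' fun b _ => ?_)
  have := Hom.mul' (hh x hx b) ((N_hom hF hG v hx i).pd ((N_JS hF hG v i).sm hx) b)
  norm_num at this
  exact this

/-- the derivative of the bracket -/
theorem pd_Yf (v : Fin n → ℝ) {x y : Fin n → ℝ} (hx : x ∈ U) (hy : y ≠ 0) (a i : Fin n) :
    pd a (Yf G v X i x) y = pd a (Dh (N G v) v (X i) x) y +
      ∑ b, (pd a (X b x) y * pd b (N G v i x) y + X b x y * pd a (pd b (N G v i x)) y) := by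
  have h1 : pd a (Yf G v X i x) y = pd a (fun y => Dh (N G v) v (X i) x y +
      ∑ b, X b x y * pd b (N G v i x) y) y := rfl
  rw [h1, pd_add ((JS.Dh hF.isOpen (hX i) (N_JS hF hG v)).sm hx)
    (Sm.sum fun b _ => ((hX b).sm hx).mul (((N_JS hF hG v i).sm hx).pd b)) a hy,
    pd_sum (fun b _ => ((hX b).sm hx).mul (((N_JS hF hG v i).sm hx).pd b)) a hy]
  congr 1
  exact Finset.sum_congr rfl fun b _ => pd_mul ((hX b).sm hx) (((N_JS hF hG v i).sm hx).pd b) a hy

/-- the bracket with an infinitesimal isometry is an infinitesimal isometry -/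
theorem Yf_kil (hL : IsLandsberg U F G) (v : Fin n → ℝ)
    (hk : ∀ x ∈ U, Kil (q F x) (fun i => X i x)) {x : Fin n → ℝ} (hx : x ∈ U) :
    Kil (q F x) (fun i => Yf G v X i x) := by
  refine ⟨fun i => (Yf_JS hF hG hX v i).sm hx, fun i => Yf_hom hF hG hX v
    (fun x hx i => (hk x hx).hom i) hx i, fun y hy a b => ?_⟩
  have hQ := q_mn hF hx
  have hU := hF.isOpen
  -- the Killing equation in matrix form
  set KM : (Fin n → ℝ) → (Fin n → ℝ) → Matrix (Fin n) (Fin n) ℝ := fun x y =>
    dM (fun i => X i x) (A (q F x)) y + ((X1 (fun i => X i x) y)ᵀ * A (q F x) y +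
      A (q F x) y * X1 (fun i => X i x) y) with hKM
  have hK0 : ∀ x ∈ U, ∀ y, y ≠ 0 → KM x y = 0 := by
    intro x hx y hy
    rw [hKM]
    simp only
    rw [dM_A (q_mn hF hx) hy (hk x hx)]
    abel
  have hJX : JM U (fun x y => X1 (fun i => X i x) y) := fun i a => (hX i).pd hU a
  have hA := A_JM hF
  have hq3 : ∀ i a b : Fin n, JS U (fun x y => pd i (pd a (pd b (q F x))) y) := fun i a b =>
    (((q_JS hF).pd hU b).pd hU a).pd hU i
  have hJd : JM U (fun x y => dM (fun i => X i x) (A (q F x)) y) := fun a b =>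
    JS.sum (s := Finset.univ) (f := fun i x y => X i x y * pd i (pd a (pd b (q F x))) y)
      fun i _ => (hX i).mul (hq3 i a b)
  have h1 : DM (N G v) v KM x y = 0 := by
    rw [DM_congr hU (g := fun _ _ => 0) hK0 hx hy]
    ext c d
    exact Dh_const _ _ _
  have h4 : DM (N G v) v KM x y = DM (N G v) v (fun x y => dM (fun i => X i x) (A (q F x)) y) x y +
      (((X1 (fun i => Dh (N G v) v (X i) x) y + X1 (fun i => X i x) y * N1 G v x y)ᵀ *
        A (q F x) y + (X1 (fun i => X i x) y)ᵀ *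
        ((N1 G v x y)ᵀ * A (q F x) y + A (q F x) y * N1 G v x y)) +
      (((N1 G v x y)ᵀ * A (q F x) y + A (q F x) y * N1 G v x y) * X1 (fun i => X i x) y +
      A (q F x) y * (X1 (fun i => Dh (N G v) v (X i) x) y +
        X1 (fun i => X i x) y * N1 G v x y))) := by
    rw [hKM, DM_add hJd (JM.add (JM.mul (JM.tr hJX) hA) (JM.mul hA hJX)) hx hy,
      DM_add ((JM.tr hJX).mul hA) (hA.mul hJX) hx hy,
      DM_mul (f := fun x y => (X1 (fun i => X i x) y)ᵀ) (JM.tr hJX) hA hx hy,
      DM_mul hA hJX hx hy, DM_tr, LF.DM_A hF hG hL v hx hy, DM_N1 hF hG v hX hx hy]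
  rw [h1] at h4
  -- the matrix of `Σ X^i ∂_i N`
  set V : Matrix (Fin n) (Fin n) ℝ := ∑ i, X i x y • X1 (fun m => pd i (N G v m x)) y with hV
  have hY1 : X1 (fun i => Yf G v X i x) y = X1 (fun i => Dh (N G v) v (X i) x) y +
      N1 G v x y * X1 (fun i => X i x) y + V := by
    ext i c
    simp only [X1, Matrix.of_apply, Matrix.add_apply, Matrix.mul_apply, N1, hV,
      Matrix.sum_apply, Matrix.smul_apply, smul_eq_mul]
    rw [pd_Yf hF hG hX v hx hy c i, Finset.sum_add_distrib, ← add_assoc]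
    congr 1
    congr 1
    exact Finset.sum_congr rfl fun m _ => mul_comm _ _
  have hdX : dM (fun i => X i x) (A (q F x)) y = - ((X1 (fun i => X i x) y)ᵀ * A (q F x) y +
      A (q F x) y * X1 (fun i => X i x) y) := dM_A hQ hy (hk x hx)
  have hdX2 : dM (fun i => X i x) (A (q F x)) y = ∑ i, X i x y • TM (q F x) i y := by
    ext c d
    simp only [dM, dz, Matrix.of_apply, Matrix.sum_apply, Matrix.smul_apply, smul_eq_mul, TM, A]
  have hYd : dM (fun i => Yf G v X i x) (A (q F x)) y =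
      ∑ i, Dh (N G v) v (X i) x y • TM (q F x) i y +
      ∑ i, X i x y • ∑ j, pd i (N G v j x) y • TM (q F x) j y := by
    ext c d
    simp only [dM, dz, Matrix.of_apply, Matrix.sum_apply, Matrix.smul_apply, smul_eq_mul, TM, A,
      Matrix.add_apply, Yf, add_mul, Finset.sum_add_distrib]
    congr 1
    simp only [Finset.sum_mul, Finset.mul_sum]
    rw [Finset.sum_comm]
    exact Finset.sum_congr rfl fun i _ => Finset.sum_congr rfl fun j _ => by ring
  have h5 : DM (N G v) v (fun x y => dM (fun i => X i x) (A (q F x)) y) x y =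
      dM (fun i => Yf G v X i x) (A (q F x)) y + (Vᵀ * A (q F x) y +
      (N1 G v x y)ᵀ * dM (fun i => X i x) (A (q F x)) y +
      dM (fun i => X i x) (A (q F x)) y * N1 G v x y + A (q F x) y * V) := by
    have h6 : Vᵀ * A (q F x) y + (N1 G v x y)ᵀ * dM (fun i => X i x) (A (q F x)) y +
      dM (fun i => X i x) (A (q F x)) y * N1 G v x y + A (q F x) y * V =
      ∑ i, X i x y • ((X1 (fun m => pd i (N G v m x)) y)ᵀ * A (q F x) y +
        (N1 G v x y)ᵀ * TM (q F x) i y + TM (q F x) i y * N1 G v x y +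
        A (q F x) y * X1 (fun m => pd i (N G v m x)) y) := by
      rw [hdX2, hV, Matrix.transpose_sum]
      simp only [Finset.sum_mul, Finset.mul_sum, ← Finset.sum_add_distrib, Matrix.transpose_smul,
        Matrix.smul_mul, Matrix.mul_smul, smul_add]
    rw [h6, hYd]
    ext c d
    have hab : DM (N G v) v (fun x y => dM (fun i => X i x) (A (q F x)) y) x y c d =
      ∑ i, (Dh (N G v) v (X i) x y * pd i (pd c (pd d (q F x))) y +
        X i x y * (pd i (Dh (N G v) v (fun x y => pd c (pd d (q F x)) y) x) y +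
          ∑ j, pd i (N G v j x) y * pd j (pd c (pd d (q F x))) y)) := by
      have e : DM (N G v) v (fun x y => dM (fun i => X i x) (A (q F x)) y) x y c d =
        Dh (N G v) v (fun x y => ∑ i, X i x y * pd i (pd c (pd d (q F x))) y) x y := rfl
      rw [e, Dh_sum (fun i _ => (hX i).mul (hq3 i c d)) hx hy]
      refine Finset.sum_congr rfl fun i _ => ?_
      rw [Dh_mul (hX i) (hq3 i c d) hx hy,
        Dh_pd hU (((q_JS hF).pd hU d).pd hU c) (N_JS hF hG v) i hx hy]
    have h3' : ∀ i, pd i (Dh (N G v) v (fun x y => pd c (pd d (q F x)) y) x) y =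
      ((X1 (fun m => pd i (N G v m x)) y)ᵀ * A (q F x) y + (N1 G v x y)ᵀ * TM (q F x) i y +
        TM (q F x) i y * N1 G v x y + A (q F x) y * X1 (fun m => pd i (N G v m x)) y) c d := by
      intro i
      have hNs : ∀ m, Sm (N G v m x) := fun m => (N_JS hF hG v m).sm hx
      rw [pd_congr (fun z hz => Dq2 hF hG hL v hx hz c d) i hy,
        pd_add (Sm.sum fun m _ => ((hNs m).pd c).mul ((hQ.sm.pd d).pd m))
          (Sm.sum fun m _ => ((hQ.sm.pd m).pd c).mul ((hNs m).pd d)) i hy,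
        pd_sum (fun m _ => ((hNs m).pd c).mul ((hQ.sm.pd d).pd m)) i hy,
        pd_sum (fun m _ => ((hQ.sm.pd m).pd c).mul ((hNs m).pd d)) i hy]
      simp only [Matrix.add_apply, Matrix.mul_apply, Matrix.transpose_apply, X1, N1, TM, A,
        Matrix.of_apply, ← Finset.sum_add_distrib]
      refine Finset.sum_congr rfl fun m _ => ?_
      rw [pd_mul ((hNs m).pd c) ((hQ.sm.pd d).pd m) i hy,
        pd_mul ((hQ.sm.pd m).pd c) ((hNs m).pd d) i hy,
        pd_comm (hNs m) c i hy, pd_comm (hNs m) d i hy]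
      ring
    rw [hab]
    simp only [h3', Matrix.add_apply, Matrix.sum_apply, Matrix.smul_apply, smul_eq_mul,
      ← Finset.sum_add_distrib]
    refine Finset.sum_congr rfl fun i _ => ?_
    have e1 : TM (q F x) i y c d = pd i (pd c (pd d (q F x))) y := rfl
    have e2 : ∀ j, TM (q F x) j y c d = pd j (pd c (pd d (q F x))) y := fun j => rfl
    simp only [e2]
    ring
  rw [h5, hdX] at h4
  have h7 : ∑ m, (Yf G v X m x y * pd m (pd a (pd b (q F x))) y +
      pd m (pd b (q F x)) y * pd a (Yf G v X m x) y +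
      pd m (pd a (q F x)) y * pd b (Yf G v X m x) y) =
      (dM (fun i => Yf G v X i x) (A (q F x)) y +
        ((X1 (fun i => Yf G v X i x) y)ᵀ * A (q F x) y +
        A (q F x) y * X1 (fun i => Yf G v X i x) y)) a b := by
    simp only [Matrix.add_apply, Matrix.mul_apply, Matrix.transpose_apply, dM, dz,
      Matrix.of_apply, X1, ← Finset.sum_add_distrib]
    refine Finset.sum_congr rfl fun m _ => ?_
    have e1 : A (q F x) y m b = pd m (pd b (q F x)) y := rfl
    have e2 : A (q F x) y a m = pd m (pd a (q F x)) y := pd2_symm hQ a m hy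
    have e3 : pd m (fun y => A (q F x) y a b) y = pd m (pd a (pd b (q F x))) y := rfl
    rw [e1, e2, e3]
    ring
  rw [h7, hY1]
  have h8 : ∀ (W V M Z K A : Matrix (Fin n) (Fin n) ℝ), (0 : Matrix (Fin n) (Fin n) ℝ) =
      W + (Vᵀ * A + Mᵀ * -(Kᵀ * A + A * K) + -(Kᵀ * A + A * K) * M + A * V) +
      (((Z + K * M)ᵀ * A + Kᵀ * (Mᵀ * A + A * M)) +
        ((Mᵀ * A + A * M) * K + A * (Z + K * M))) →
      W + ((Z + M * K + V)ᵀ * A + A * (Z + M * K + V)) = 0 := by
    intro W V M Z K A h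
    rw [h]
    simp only [Matrix.transpose_add, Matrix.transpose_mul]
    noncomm_ring
  rw [h8 _ _ _ _ _ _ h4]
  rfl

end

end Pool.Agent.H792.KF
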